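import Pool.Agent.Helper45.CF.GoalsA

/-!
# Project CF (MP_d97caa_an): theories with parameters
-/

open scoped ComplexOrder ZeroAtInfty Topology ComplexConjugate
open TopologicalSpace Filter

namespace Pool.Agent.Helper45.CF

open Pool.Agent.Helper34.CAR Pool.Agent.Helper39.CR

noncomputable section

theorem mapC_comp {Z A B C : Type} [TopologicalSpace Z] [CompactSpace Z] [NonUnitalCStarAlgebra A]
    [NonUnitalCStarAlgebra B] [NonUnitalCStarAlgebra C] (g : B →⋆ₙₐ[ℂ] C) (f : A →⋆ₙₐ[ℂ] B) :
    mapC Z (g.comp f) = (mapC Z g).comp (mapC Z f) := by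
  ext a z
  rfl

theorem mapC_id {Z A : Type} [TopologicalSpace Z] [CompactSpace Z] [NonUnitalCStarAlgebra A] :
    mapC Z (NonUnitalStarAlgHom.id ℂ A) = NonUnitalStarAlgHom.id ℂ C(Z, A) := by
  ext a z
  rfl

theorem mapC_injective {Z A B : Type} [TopologicalSpace Z] [CompactSpace Z]
    [NonUnitalCStarAlgebra A] [NonUnitalCStarAlgebra B] (f : A →⋆ₙₐ[ℂ] B)
    (hf : Function.Injective f) : Function.Injective (mapC Z f) := by
  intro a b h
  ext z
  exact hf (DFunLike.congr_fun h z)

/-- The theory `A ↦ F(C(Z, A))`. -/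
def par (hSUR : S_SUR) (hDEN : S_DEN) (hHOC : S_HOC) (hMUC : S_MUC) (T : Theory) (Z : Type)
    [TopologicalSpace Z] [CompactSpace Z] [T2Space Z] [SecondCountableTopology Z]
    (hZ : T.Zero C(Z, ℂ)) : Theory where
  F i A _ := T.F i C(Z, A)
  map i _ _ _ _ f := T.map i (mapC Z f)
  map_id i A _ _ x := by
    rw [mapC_id]
    exact T.map_id i _ x
  map_comp i A B C _ _ _ _ _ _ f g x := by
    rw [mapC_comp]
    exact T.map_comp i _ _ _ _ _ x
  homotopy i A B _ _ _ _ h hh := T.homotopy i _ _ (fun t => mapC Z (h t)) (hHOC Z A B h hh)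
  stable i A M _ _ _ _ ι _ e he j h hh := by
    obtain ⟨e', he', he''⟩ := hMUC Z A M ι e he
    refine T.stable i _ _ ι e' he' j (mapC Z h) fun a => ?_
    ext z
    rw [mapC_apply, he'', hh]
  exact i J A Q _ _ _ _ _ _ u q hu hq hk := by
    refine T.exact i C(Z, J) C(Z, A) C(Z, Q) (mapC Z u) (mapC Z q) (mapC_injective u hu)
      (hSUR Z A Q q hq) fun a => ?_
    constructor
    · intro h
      have h1 : ∀ z, ∃ x, u x = a z := fun z => by
        have h2 : q (a z) = 0 := DFunLike.congr_fun h z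
        exact (hk _).1 h2
      choose g hg using h1
      have hiso : Isometry u := NonUnitalStarAlgHom.isometry u hu
      have hgc : Continuous g := by
        rw [hiso.isEmbedding.isInducing.continuous_iff]
        have h2 : (u ∘ g) = a := funext hg
        rw [h2]
        exact a.continuous
      exact ⟨⟨g, hgc⟩, by
        ext z
        exact hg z⟩
    · rintro ⟨g, rfl⟩
      ext z
      exact (hk _).2 ⟨g z, rfl⟩
  milnor i A _ _ B _ _ j u hu hj hd := by
    refine T.milnor i C(Z, A) (fun k => C(Z, B k)) (fun k => mapC Z (j k)) (fun k => mapC Z (u k))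
      (fun k => mapC_injective _ (hu k)) (fun k b => ?_) (hDEN Z A B j u hj hd)
    ext z
    exact hj k (b z)
  point i x := hZ i x

theorem par_zero (hSUR : S_SUR) (hDEN : S_DEN) (hHOC : S_HOC) (hMUC : S_MUC) (T : Theory)
    (Z : Type) [TopologicalSpace Z] [CompactSpace Z] [T2Space Z] [SecondCountableTopology Z]
    (hZ : T.Zero C(Z, ℂ)) (A : Type) [NonUnitalCStarAlgebra A] :
    (par hSUR hDEN hHOC hMUC T Z hZ).Zero A ↔ T.Zero C(Z, A) := Iff.rfl

end

end Pool.Agent.Helper45.CF
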