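import Pool.Agent.Helper45.CF.GoalsB
import Pool.Agent.Helper45.CF.Par
import Pool.Agent.Helper39.CR.Parts6
import Pool.Agent.Helper34.CAR.Main

/-!
# Project CF (MP_d97caa_an): assembly
-/

open scoped ComplexOrder ZeroAtInfty Topology ComplexConjugate
open TopologicalSpace Filter

namespace Pool.Agent.Helper45.CF

open Pool.Agent.Helper34.CAR Pool.Agent.Helper39.CR

noncomputable section

/-- Transport of vanishing along isomorphisms. -/
theorem zero_iso (T : Theory) {A B : Type} [NonUnitalCStarAlgebra A] [NonUnitalCStarAlgebra B]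
    [SeparableSpace A] [SeparableSpace B] (f : A →⋆ₙₐ[ℂ] B) (g : B →⋆ₙₐ[ℂ] A)
    (h : ∀ b, f (g b) = b) (h' : ∀ a, g (f a) = a) (hA : T.Zero A) : T.Zero B := by
  intro i x
  exact (bij_of_inv T i f g h h').1 (by rw [hA i (T.map i f x), map_zero])

/-- Evaluation at a point. -/
def evC {Z : Type} [TopologicalSpace Z] [CompactSpace Z] (A : Type) [NonUnitalCStarAlgebra A]
    (z : Z) : C(Z, A) →⋆ₙₐ[ℂ] A where
  toFun f := f z
  map_smul' _ _ := rfl
  map_zero' := rfl
  map_add' _ _ := rfl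
  map_mul' _ _ := rfl
  map_star' _ := rfl

/-- Constant functions. -/
def cstC (Z : Type) [TopologicalSpace Z] [CompactSpace Z] (A : Type) [NonUnitalCStarAlgebra A] :
    A →⋆ₙₐ[ℂ] C(Z, A) where
  toFun a := ContinuousMap.const Z a
  map_smul' _ _ := rfl
  map_zero' := rfl
  map_add' _ _ := rfl
  map_mul' _ _ := rfl
  map_star' _ := rfl

theorem evC_cstC {Z A : Type} [TopologicalSpace Z] [CompactSpace Z] [NonUnitalCStarAlgebra A]
    (z : Z) (a : A) : evC A z (cstC Z A a) = a := rfl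

theorem cstC_evC {A : Type} [NonUnitalCStarAlgebra A] {Y : Type} [TopologicalSpace Y]
    [CompactSpace Y] (z : Fin 0 → Y) (f : C(Fin 0 → Y, A)) :
    cstC (Fin 0 → Y) A (evC A z f) = f := by
  ext z'
  rw [Subsingleton.elim z' z]
  rfl

/-- Products of spheres. -/
theorem zfin (hSPH : S_SPH) (hCUR : S_CUR) (T : Theory) (k : ℕ) :
    ∀ (A : Type) [NonUnitalCStarAlgebra A] [SeparableSpace A], T.Zero A →
      T.Zero C(Fin k → Sphere2, A) := by
  induction k with
  | zero =>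
    intro A _ _ hA
    have z : Fin 0 → Sphere2 := fun i => i.elim0
    exact zero_iso T (cstC (Fin 0 → Sphere2) A) (evC A z) (cstC_evC z) (evC_cstC z) hA
  | succ k ih =>
    intro A _ _ hA
    obtain ⟨φ, ψ, -, h1, h2⟩ := hCUR Sphere2 A k
    exact zero_iso T ψ φ h1 h2 (ih _ (hSPH T A hA))

/-- The character of the unitization. -/
def omg (X : Type) [NonUnitalCStarAlgebra X] : Unitization ℂ X →⋆ₐ[ℂ] ℂ where
  toFun b := b.fst
  map_one' := rfl
  map_mul' _ _ := Unitization.fst_mul _ _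
  map_zero' := rfl
  map_add' _ _ := rfl
  commutes' _ := rfl
  map_star' _ := rfl

section tower

variable {B : Type} [CStarAlgebra B] [SeparableSpace B] {θ : B →⋆ₐ[ℂ] B} (s : Sys B θ)

/-- The corner. -/
def cor (i : ℕ) (x : s.S i) : B →⋆ₙₐ[ℂ] s.A i where
  toFun b := Mt.single x x b
  map_smul' c b := by
    ext y z
    rw [Mt.smul_apply, Mt.single_apply, Mt.single_apply]
    simp only [MonoidHom.id_apply]
    split_ifs <;> simp
  map_zero' := by
    ext y z
    rw [Mt.single_apply, Mt.zero_apply]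
    split_ifs <;> rfl
  map_add' a b := by
    ext y z
    rw [Mt.add_apply, Mt.single_apply, Mt.single_apply, Mt.single_apply]
    split_ifs <;> simp
  map_mul' a b := (Mt.single_mul_single x x x a b).symm
  map_star' a := (Mt.star_single x x a).symm

theorem cor_bij (T : Theory) (i : ZMod 2) (k : ℕ) (x : s.S k) :
    Function.Bijective (T.map i (cor s k x)) :=
  T.stable i B (s.A k) (s.S k) (Pool.Agent.Helper36.CR.mu (I := s.S k) (B := B))
    Pool.Agent.Helper36.CR.munits x (cor s k x) fun _ => rfl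

end tower

/-- Increasing unions of algebras with vanishing theories. -/
theorem zero_union (T : Theory) (A : Type) [NonUnitalCStarAlgebra A] [SeparableSpace A]
    (B : ℕ → Type) [∀ k, NonUnitalCStarAlgebra (B k)] [∀ k, SeparableSpace (B k)]
    (j : ∀ k, B k →⋆ₙₐ[ℂ] B (k + 1)) (u : ∀ k, B k →⋆ₙₐ[ℂ] A)
    (hu : ∀ k, Function.Injective (u k)) (hj : ∀ k b, u (k + 1) (j k b) = u k b)
    (hd : Dense (⋃ k, Set.range (u k))) (hB : ∀ k, T.Zero (B k)) : T.Zero A := by
  intro i x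
  obtain ⟨-, d, -, h2⟩ := T.milnor i A B j u hu hj hd
  obtain ⟨z, hz⟩ := (h2 x).1 fun k => hB k i _
  have h0 : z = 0 := funext fun k => hB k (i + 1) (z k)
  rw [← hz, h0, map_zero]

/-- Towers with surjective connecting maps. -/
theorem zero_first (T : Theory) (A : Type) [NonUnitalCStarAlgebra A] [SeparableSpace A]
    (B : ℕ → Type) [∀ k, NonUnitalCStarAlgebra (B k)] [∀ k, SeparableSpace (B k)]
    (j : ∀ k, B k →⋆ₙₐ[ℂ] B (k + 1)) (u : ∀ k, B k →⋆ₙₐ[ℂ] A)
    (hu : ∀ k, Function.Injective (u k)) (hj : ∀ k b, u (k + 1) (j k b) = u k b)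
    (hd : Dense (⋃ k, Set.range (u k))) (i : ZMod 2)
    (hs : ∀ k, Function.Surjective (T.map i (j k))) (hA : ∀ x : T.F i A, x = 0)
    (x : T.F i (B 0)) : x = 0 := by
  choose g hg using hs
  let y : ∀ k, T.F i (B k) := fun k => Nat.rec x (fun k z => g k z) k
  have hy : ∀ k, T.map i (j k) (y (k + 1)) = y k := fun k => hg k (y k)
  obtain ⟨h1, -⟩ := T.milnor i A B j u hu hj hd
  obtain ⟨z, hz⟩ := h1 y hy
  have h0 : T.map i (u 0) z = x := hz 0
  rw [← h0, hA z, map_zero]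

theorem cfmain (hSUR : S_SUR) (hDEN : S_DEN) (hHOC : S_HOC) (hMUC : S_MUC) (hSPH : S_SPH)
    (hSYSO : S_SYSO) (hKAP : S_KAP) (hSRJ : S_SRJ) (hFC : S_FC) (hCUR : S_CUR) (hNUB : S_NUB) :
    S_CFMAIN := by
  intro D _ _ hD
  obtain ⟨E, iE, sE, hPN, -, hφ⟩ := p_TDB2 D hD
  have hTD : ∀ T : Theory, T.Zero (Unitization ℂ C₀(ℝ, E)) ↔ T.Zero D := fun T =>
    zero_iff_of T (hφ T)
  have sX : SeparableSpace C₀(ℝ, E) := by
    obtain ⟨u, hu, -⟩ := p_EMB E
    exact sep_of_inj u hu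
  obtain ⟨s, c2, hs, hom⟩ := hSYSO (Unitization ℂ C₀(ℝ, E)) (Unitization.starMap (flip E))
    (omg C₀(ℝ, E)) (t_STEP' C₀(ℝ, E) (flip E) (Pool.Agent.Helper61.CAR.s_NS E hPN) (t_HOM E))
  have hk := t_KINJ _ _ s
  obtain ⟨L, iL, ι, hι1, hι2, hι3⟩ := t_IL s.A s.κ hk
  have hcar : IsCAR L := t_CARL _ _ s hs L ι hι1 hι2 hι3
  choose κh hκ hU using hKAP _ _ (omg C₀(ℝ, E)) s c2 hom
  have ne : Nonempty Sphere2 := ⟨⟨(1, 0), by simp⟩⟩
  obtain ⟨A, iA, ζ, π, u, hf, hu, hj, hd⟩ := hFC Sphere2 s.A s.κ κh hU L ι hι1 hι2 hι3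
  -- separability
  have sA : SeparableSpace A := by
    have h1 : ∀ i, IsSeparable (Set.range (u i)) := fun i =>
      isSeparable_range (continuous_hom (u i))
    have h2 : IsSeparable (⋃ i, Set.range (u i)) := IsSeparable.iUnion h1
    have h3 : IsSeparable (Set.univ : Set A) := by
      have := h2.closure
      rwa [hd.closure_eq] at this
    exact isSeparable_univ_iff.1 h3
  -- the connecting maps
  choose φ ψ hψ h1 h2 using fun k => hCUR Sphere2 (s.A (k + 1)) k
  let κn : ∀ k, s.A k →⋆ₙₐ[ℂ] C(Sphere2, s.A (k + 1)) := fun k => (κh k : _ →⋆ₙₐ[ℂ] _)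
  let j : ∀ k, C(Fin k → Sphere2, s.A k) →⋆ₙₐ[ℂ] C(Fin (k + 1) → Sphere2, s.A (k + 1)) :=
    fun k => (ψ k).comp (mapC (Fin k → Sphere2) (κn k))
  have hju : ∀ k f, u (k + 1) (j k f) = u k f := by
    intro k f
    refine hj k f (j k f) fun z => ?_
    exact hψ k _ z
  refine ⟨A, L, iA, iL, ζ, π, sA, hNUB _ A L ζ π hf hcar, hcar, hf, fun T => ?_⟩
  rw [← hTD T]
  have hC : ∀ k, T.Zero C(Fin k → Sphere2, ℂ) := fun k => zfin hSPH hCUR T k ℂ T.point
  constructor
  · intro hA i x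
    -- surjectivity of the connecting maps
    have hsurj : ∀ k, Function.Surjective (T.map i (j k)) := by
      intro k
      let T' := par hSUR hDEN hHOC hMUC T (Fin k → Sphere2) (hC k)
      have e1 : Function.Surjective (T'.map i (κn k)) :=
        hSRJ T' i _ (Unitization.starMap (flip E)) (omg C₀(ℝ, E)) s c2 hom
          (hSPH T' ℂ T'.point) (fun g hg x => (p_TNEG T' i E).2 g hg x) k (κh k) (hκ k) (κn k)
          (fun _ => rfl)
      have e2 : Function.Surjective (T.map i (mapC (Fin k → Sphere2) (κn k))) := e1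
      have e3 : Function.Surjective (T.map i (ψ k)) := (bij_of_inv T i (ψ k) (φ k) (h1 k) (h2 k)).2
      intro y
      obtain ⟨y1, hy1⟩ := e2 y
      obtain ⟨y2, hy2⟩ := e3 y1
      refine ⟨y2, ?_⟩
      have h3 := T.map_comp i _ _ _ (mapC (Fin k → Sphere2) (κn k)) (ψ k) y2
      exact h3.trans (by rw [hy2, hy1])
    -- the first group
    have z0 : Fin 0 → Sphere2 := fun i => i.elim0
    have e4 : Function.Bijective (T.map i (cstC (Fin 0 → Sphere2) (s.A 0))) :=
      bij_of_inv T i _ (evC (s.A 0) z0) (cstC_evC z0) (evC_cstC z0)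
    obtain ⟨x1, hx1⟩ := (cor_bij s T i 0 s.s0).2 x
    obtain ⟨x2, hx2⟩ := e4.2 x1
    have h0 : x2 = 0 := zero_first T A (fun k => C(Fin k → Sphere2, s.A k)) j u hu hju hd i hsurj
      (hA i) x2
    rw [← hx1, ← hx2, h0, map_zero, map_zero]
  · intro hB
    have hAk : ∀ k, T.Zero (s.A k) := by
      intro k i x
      exact (cor_bij s T i k (s.top k)).1
        (by rw [hB i (T.map i (cor s k (s.top k)) x), map_zero])
    exact zero_union T A (fun k => C(Fin k → Sphere2, s.A k)) j u hu hju hd fun k =>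
      zfin hSPH hCUR T k _ (hAk k)

end

end Pool.Agent.Helper45.CF
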