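import Pool.Agent.Helper45.CF.Parts
import Pool.Agent.Helper53.CF.CIR
import Pool.Agent.Helper81.CF.UNV
import Pool.Agent.Helper83.CF.JSU
import Pool.Agent.Helper16.CF.DEC
import Pool.Agent.Helper88.CF.NUB
import Pool.Agent.Helper39.CR.Final

/-!
# Project CF (MP_d97caa_an): the theorem over the product of spheres
-/

open scoped ComplexOrder ZeroAtInfty Topology
open TopologicalSpace

namespace Pool.Agent.Helper45.CF

open Pool.Agent.Helper34.CAR Pool.Agent.Helper39.CR Pool.Agent.Helper39.CarDefs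

theorem c_CIR : S_CIR := Pool.Agent.Helper53.CF.t
theorem c_UNV : S_UNV := Pool.Agent.Helper81.CF.t c_POU
theorem c_JSU : S_JSU := Pool.Agent.Helper83.CF.t
theorem c_DEC : S_DEC := Pool.Agent.Helper16.CF.t
theorem c_NUB : S_NUB := Pool.Agent.Helper88.CF.t c_NSUP c_CPQ c_NUA
theorem c_SPH : S_SPH := Pool.Agent.Helper20.CF.t c_CIR

theorem main : S_CFMAIN := core c_CIR c_JSU c_DEC c_UNV c_NUB

theorem final : ∀ (D : Type) [NonUnitalCStarAlgebra D] [SeparableSpace D], Nuclear D →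
    ∃ (A L : Type) (_ : CStarAlgebra A) (_ : CStarAlgebra L)
      (ζ : C(ℕ → Sphere2, ℂ) →⋆ₐ[ℂ] A) (π : (ℕ → Sphere2) → A →⋆ₐ[ℂ] L),
      SeparableSpace A ∧ Nuclear A ∧ IsCAR L ∧ CtsField ζ π ∧
      ∀ T : Groups, IsTheory T → (T.Zero A ↔ T.Zero D) := by
  intro D _ _ hD
  obtain ⟨A, L, iA, iL, ζ, π, h1, h2, h3, h4, h5⟩ := main D hD
  exact ⟨A, L, iA, iL, ζ, π, h1, h2, h3, h4, fun T hT => h5 (toTheory T hT)⟩

end Pool.Agent.Helper45.CF
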