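import Pool.Agent.Helper45.CF.GoalsC
import Pool.Agent.Helper45.CF.Final

/-!
# Project CF (MP_d97caa_an), second stage: assembly
-/

open scoped ComplexOrder ZeroAtInfty Topology ComplexConjugate NNReal
open TopologicalSpace Filter

namespace Pool.Agent.Helper45.CF

open Pool.Agent.Helper34.CAR Pool.Agent.Helper39.CR

noncomputable section

/-- The theories of the field over the product of spheres. -/
theorem zero_field (E : Type) [NonUnitalCStarAlgebra E] [SeparableSpace E]
    [SeparableSpace C₀(ℝ, E)] (ω : Unitization ℂ C₀(ℝ, E) →⋆ₐ[ℂ] ℂ)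
    (s : Sys (Unitization ℂ C₀(ℝ, E)) (Unitization.starMap (flip E))) (c2 : ∀ i, s.C i)
    (hom : ∀ i, HasOm ω (s.c0 i) (s.c1 i) (c2 i) (s.K i))
    (κh : ∀ k, s.A k →⋆ₐ[ℂ] C(Sphere2, s.A (k + 1))) (hκ : ∀ k, IsKap s ω c2 k (κh k))
    (A : Type) [CStarAlgebra A] [SeparableSpace A]
    (u : ∀ i, C(Fin i → Sphere2, s.A i) →⋆ₙₐ[ℂ] A) (hu : ∀ i, Function.Injective (u i))
    (hj : ∀ i (f : C(Fin i → Sphere2, s.A i)) (f' : C(Fin (i + 1) → Sphere2, s.A (i + 1))),
      (∀ z, f' z = κh i (f fun l => z l.castSucc) (z (Fin.last i))) → u (i + 1) f' = u i f)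
    (hd : Dense (⋃ i, Set.range (u i))) (T : Theory) :
    T.Zero A ↔ T.Zero (Unitization ℂ C₀(ℝ, E)) := by
  choose φ ψ hψ h1 h2 using fun k => c_CUR Sphere2 (s.A (k + 1)) k
  let κn : ∀ k, s.A k →⋆ₙₐ[ℂ] C(Sphere2, s.A (k + 1)) := fun k => (κh k : _ →⋆ₙₐ[ℂ] _)
  let j : ∀ k, C(Fin k → Sphere2, s.A k) →⋆ₙₐ[ℂ] C(Fin (k + 1) → Sphere2, s.A (k + 1)) :=
    fun k => (ψ k).comp (mapC (Fin k → Sphere2) (κn k))
  have hju : ∀ k f, u (k + 1) (j k f) = u k f := by
    intro k f
    refine hj k f (j k f) fun z => ?_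
    exact hψ k _ z
  have hC : ∀ k, T.Zero C(Fin k → Sphere2, ℂ) := fun k => zfin c_SPH c_CUR T k ℂ T.point
  constructor
  · intro hA i x
    -- surjectivity of the connecting maps
    have hsurj : ∀ k, Function.Surjective (T.map i (j k)) := by
      intro k
      let T' := par c_SUR c_DEN c_HOC c_MUC T (Fin k → Sphere2) (hC k)
      have e1 : Function.Surjective (T'.map i (κn k)) :=
        c_SRJ c_JSU c_DEC c_UNV T' i _ (Unitization.starMap (flip E)) ω s c2 hom
          (c_SPH T' ℂ T'.point) (fun g hg x => (p_TNEG T' i E).2 g hg x) k (κh k) (hκ k) (κn k)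
          (fun _ => rfl)
      have e2 : Function.Surjective (T.map i (mapC (Fin k → Sphere2) (κn k))) := e1
      have e3 : Function.Surjective (T.map i (ψ k)) := (bij_of_inv T i (ψ k) (φ k) (h1 k) (h2 k)).2
      intro y
      obtain ⟨y1, hy1⟩ := e2 y
      obtain ⟨y2, hy2⟩ := e3 y1
      refine ⟨y2, ?_⟩
      have h3 := T.map_comp i _ _ _ (mapC (Fin k → Sphere2) (κn k)) (ψ k) y2
      exact h3.trans (by rw [hy2, hy1])
    -- the first group
    have z0 : Fin 0 → Sphere2 := fun i => i.elim0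
    have e4 : Function.Bijective (T.map i (cstC (Fin 0 → Sphere2) (s.A 0))) :=
      bij_of_inv T i _ (evC (s.A 0) z0) (cstC_evC z0) (evC_cstC z0)
    obtain ⟨x1, hx1⟩ := (cor_bij s T i 0 s.s0).2 x
    obtain ⟨x2, hx2⟩ := e4.2 x1
    have h0 : x2 = 0 := zero_first T A (fun k => C(Fin k → Sphere2, s.A k)) j u hu hju hd i hsurj
      (hA i) x2
    rw [← hx1, ← hx2, h0, map_zero, map_zero]
  · intro hB
    have hAk : ∀ k, T.Zero (s.A k) := by
      intro k i x
      exact (cor_bij s T i k (s.top k)).1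
        (by rw [hB i (T.map i (cor s k (s.top k)) x), map_zero])
    exact zero_union T A (fun k => C(Fin k → Sphere2, s.A k)) j u hu hju hd fun k =>
      zfin c_SPH c_CUR T k _ (hAk k)

/-- Functions on the half line as functions on the line. -/
def evn (E : Type) [NonUnitalCStarAlgebra E] : C₀(ℝ≥0, E) →⋆ₙₐ[ℂ] C₀(ℝ, E) where
  toFun f := ⟨⟨fun t => f ‖t‖₊, by fun_prop⟩, (zero_at_infty f).comp (by
    refine tendsto_cocompact_of_tendsto_dist_comp_atTop 0 ?_
    refine (tendsto_norm_cocompact_atTop (E := ℝ)).congr fun t => ?_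
    rw [NNReal.dist_eq, coe_nnnorm, NNReal.coe_zero, sub_zero, abs_norm])⟩
  map_smul' _ _ := rfl
  map_zero' := rfl
  map_add' _ _ := rfl
  map_mul' _ _ := rfl
  map_star' _ := rfl

theorem evn_injective (E : Type) [NonUnitalCStarAlgebra E] : Function.Injective (evn E) := by
  intro f g h
  ext t
  have h1 := DFunLike.congr_fun h (t : ℝ)
  have h2 : f ‖(t : ℝ)‖₊ = g ‖(t : ℝ)‖₊ := h1
  have h3 : ‖(t : ℝ)‖₊ = t := by
    ext
    rw [coe_nnnorm, Real.norm_eq_abs, abs_of_nonneg (NNReal.coe_nonneg t)]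
  rwa [h3] at h2

theorem sep_two (E : Type) [NonUnitalCStarAlgebra E] [SeparableSpace C₀(ℝ, E)] :
    SeparableSpace (Two E) := by
  have : SeparableSpace C₀(ℝ≥0, E) := sep_of_inj (evn E) (evn_injective E)
  infer_instance

/-- The homomorphism `x ↦ x ⊗ 1`. -/
def xtH {S C S' : Type} [Fintype S] [DecidableEq S] [Fintype C] [DecidableEq C] [Fintype S']
    [DecidableEq S'] (e : S' ≃ S × C) : Mt S ℂ →⋆ₐ[ℂ] Mt S' ℂ where
  toFun x := Mt.of fun p q => if (e p).2 = (e q).2 then x (e p).1 (e q).1 else 0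
  map_one' := by
    ext p q
    rw [Mt.of_apply, Mt.one_apply, Mt.one_apply]
    by_cases h2 : (e p).2 = (e q).2
    · rw [if_pos h2]
      by_cases h1 : (e p).1 = (e q).1
      · rw [if_pos h1, if_pos (e.injective (Prod.ext h1 h2))]
      · rw [if_neg h1, if_neg fun h => h1 (by rw [h])]
    · rw [if_neg h2, if_neg fun h => h2 (by rw [h])]
  map_mul' a b := by
    ext p q
    rw [Mt.of_apply, Mt.mul_apply, Mt.mul_apply]
    rw [← e.symm.sum_comp, Fintype.sum_prod_type]
    simp only [Mt.of_apply, Equiv.apply_symm_apply]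
    by_cases h2 : (e p).2 = (e q).2
    · rw [if_pos h2]
      refine Finset.sum_congr rfl fun k _ => ?_
      rw [Finset.sum_eq_single (e p).2]
      · rw [if_pos rfl, if_pos h2]
      · intro c _ hc
        rw [if_neg (Ne.symm hc), zero_mul]
      · intro h
        exact absurd (Finset.mem_univ _) h
    · rw [if_neg h2]
      refine (Finset.sum_eq_zero fun k _ => Finset.sum_eq_zero fun c _ => ?_).symm
      by_cases h3 : (e p).2 = c
      · have h4 : ¬ c = (e q).2 := fun h => h2 (h3.trans h)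
        rw [if_neg h4, mul_zero]
      · rw [if_neg h3, zero_mul]
  map_zero' := by
    ext p q
    rw [Mt.of_apply, Mt.zero_apply, Mt.zero_apply, ite_self]
  map_add' a b := by
    ext p q
    rw [Mt.of_apply, Mt.add_apply, Mt.add_apply, Mt.of_apply, Mt.of_apply]
    by_cases h : (e p).2 = (e q).2
    · rw [if_pos h, if_pos h, if_pos h]
    · rw [if_neg h, if_neg h, if_neg h, add_zero]
  commutes' c := by
    ext p q
    rw [Mt.of_apply, Mt.algebraMap_apply, Mt.algebraMap_apply]
    by_cases h2 : (e p).2 = (e q).2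
    · rw [if_pos h2]
      by_cases h1 : (e p).1 = (e q).1
      · rw [if_pos h1, if_pos (e.injective (Prod.ext h1 h2))]
      · rw [if_neg h1, if_neg fun h => h1 (by rw [h])]
    · rw [if_neg h2, if_neg fun h => h2 (by rw [h])]
  map_star' a := by
    ext p q
    rw [Mt.of_apply, Mt.star_apply, Mt.star_apply, Mt.of_apply]
    by_cases h : (e p).2 = (e q).2
    · rw [if_pos h, if_pos h.symm]
    · rw [if_neg h, if_neg (Ne.symm h), star_zero]

theorem xtH_apply {S C S' : Type} [Fintype S] [DecidableEq S] [Fintype C] [DecidableEq C]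
    [Fintype S'] [DecidableEq S'] (e : S' ≃ S × C) (x : Mt S ℂ) :
    xtH e x = Mt.of (xt e fun p q => x p q) := rfl

/-- The induced unital homomorphism `C(X, A) → C(X, B)`. -/
def mapU (X : Type) [TopologicalSpace X] [CompactSpace X] {A B : Type} [CStarAlgebra A]
    [CStarAlgebra B] (f : A →⋆ₐ[ℂ] B) : C(X, A) →⋆ₐ[ℂ] C(X, B) where
  toFun a := ⟨fun x => f (a x), by
    have hf : Continuous f := AddMonoidHomClass.continuous_of_bound f 1 fun x => by
      simpa using NonUnitalStarAlgHom.norm_apply_le f x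
    exact hf.comp a.continuous⟩
  map_one' := by
    ext x
    exact map_one f
  map_mul' a b := by
    ext x
    exact map_mul f (a x) (b x)
  map_zero' := by
    ext x
    exact map_zero f
  map_add' a b := by
    ext x
    exact map_add f (a x) (b x)
  commutes' c := by
    ext x
    exact AlgHomClass.commutes f c
  map_star' a := by
    ext x
    exact map_star f (a x)

theorem mapU_apply {X A B : Type} [TopologicalSpace X] [CompactSpace X] [CStarAlgebra A]
    [CStarAlgebra B] (f : A →⋆ₐ[ℂ] B) (a : C(X, A)) (x : X) : mapU X f a x = f (a x) := rfl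

/-- The connecting maps of the field. -/
def kX {A A' : Type} [CStarAlgebra A] [CStarAlgebra A'] (κ : A →⋆ₐ[ℂ] C(Sphere2, A')) (i : ℕ)
    (a : C(ℕ → Sphere2, A)) : C(ℕ → Sphere2, A') where
  toFun x := κ (a x) (x i)
  continuous_toFun := by
    have hf : Continuous κ := AddMonoidHomClass.continuous_of_bound κ 1 fun x => by
      simpa using NonUnitalStarAlgHom.norm_apply_le κ x
    have h1 : Continuous fun x : ℕ → Sphere2 => κ (a x) := hf.comp a.continuous
    have h2 : Continuous fun x : ℕ → Sphere2 => x i := continuous_apply i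
    exact h1.eval h2

theorem kX_apply {A A' : Type} [CStarAlgebra A] [CStarAlgebra A'] (κ : A →⋆ₐ[ℂ] C(Sphere2, A'))
    (i : ℕ) (a : C(ℕ → Sphere2, A)) (x : ℕ → Sphere2) : kX κ i a x = κ (a x) (x i) := rfl

theorem norm_conj {A : Type} [CStarAlgebra A] (U a : A) (h : star U * U = 1) (h' : U * star U = 1) :
    ‖U * a * star U‖ = ‖a‖ := by
  have hU : U ∈ unitary A := Unitary.mem_iff.2 ⟨h, h'⟩
  have h1 := CStarRing.norm_mul_coe_unitary (U * a)
    (⟨star U, Unitary.star_mem hU⟩ : unitary A)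
  have h2 := CStarRing.norm_coe_unitary_mul (⟨U, hU⟩ : unitary A) a
  exact h1.trans h2

end

end Pool.Agent.Helper45.CF
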