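import Pool.Agent.Helper45.CF.Emb

/-!
# Project CF (MP_d97caa_an), second stage: the theorem over the Hilbert cube
-/

open scoped ComplexOrder ZeroAtInfty Topology ComplexConjugate NNReal
open TopologicalSpace Filter

namespace Pool.Agent.Helper45.CF

open Pool.Agent.Helper34.CAR Pool.Agent.Helper39.CR

noncomputable section

theorem cfq (hDST : S_DST) (hDSY : S_DSY) (hLCM : S_LCM) (hTAUV : S_TAUV) (hFMAP : S_FMAP)
    (hGMAP : S_GMAP) (hCPT : S_CPT) (hFCX : S_FCX) (hEMQ : S_EMQ) (hAQ : S_AQ)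
    (hFIB : S_FIB) (hZAQ : S_ZAQ) (hZCAR : S_ZCAR) (hSEPM : S_SEPM) (hZX : S_ZX) (hZQ : S_ZQ)
    (hNQ : S_NQ) : S_CFQ := by
  intro D _ _ hD
  obtain ⟨E, iE, sE, hPN, -, hφ⟩ := p_TDB2 D hD
  have hTD : ∀ T : Theory, T.Zero (Unitization ℂ C₀(ℝ, E)) ↔ T.Zero D := fun T =>
    zero_iff_of T (hφ T)
  obtain ⟨H, M, L, iH, iM, iL, j, π, sH, hM, hL, hπ, hn, hj, hsc, hz⟩ :=
    emb hDST hDSY hLCM hTAUV hFMAP hGMAP hCPT hFCX E hPN
  obtain ⟨e, he⟩ := hEMQ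
  obtain ⟨A, iA, i, r, hi, hr, hmem⟩ := hAQ (ℕ → Sphere2) (ℕ → unitInterval) M H e j hj
  have sM : SeparableSpace M := hSEPM M hM
  have sA : SeparableSpace A := sep_of_inj (i : A →⋆ₙₐ[ℂ] C(ℕ → unitInterval, M)) hi
  have hscal : ∀ f : C(ℕ → unitInterval, ℂ), ∃ a, ∀ x, i a x = algebraMap ℂ M (f x) := by
    intro f
    obtain ⟨b, hb⟩ := hsc (f.comp e)
    obtain ⟨a, ha⟩ := hmem ⟨fun x => algebraMap ℂ M (f x),
      (continuous_algebraMap ℂ M).comp f.continuous⟩ ⟨b, fun x => hb x⟩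
    exact ⟨a, fun x => by rw [ha]; rfl⟩
  have hfib := hFIB (ℕ → Sphere2) (ℕ → unitInterval) M H A L e j i r π he hM hL hπ hn hr hmem
  refine ⟨A, M, iA, iM, i, hi, hM, hscal, hfib, sA,
    hNQ (ℕ → unitInterval) M A i hi hscal hfib, fun T => ?_⟩
  have hZM : ∀ T : Theory, T.Zero M := fun T => hZCAR T M hM
  have h1 : T.Zero C(ℕ → unitInterval, M) :=
    (par_zero c_SUR c_DEN c_HOC c_MUC T (ℕ → unitInterval) (hZQ T) M).1 (hZM _)
  have h2 : T.Zero C(ℕ → Sphere2, M) :=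
    (par_zero c_SUR c_DEN c_HOC c_MUC T (ℕ → Sphere2) (hZX T) M).1 (hZM _)
  exact (hZAQ T (ℕ → Sphere2) (ℕ → unitInterval) M H A e j i r he hj hi hr hmem h1 h2).trans
    ((hz T).trans (hTD T))

end

end Pool.Agent.Helper45.CF
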