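import Pool.Agent.Helper45.CF.GoalsD
import Pool.Agent.Helper37.CF2.DST
import Pool.Agent.Helper24.CF2.GREC
import Pool.Agent.Helper12.CF2.DSY
import Pool.Agent.Helper83.CF2.PNT
import Pool.Agent.Helper84.CF2.FMAP
import Pool.Agent.Helper63.CF2.CPT
import Pool.Agent.Helper73.CF2.NSUPV

/-!
# Project CF (MP_d97caa_an), second stage: the theorem over compact metrizable spaces that contain a
Hilbert cube
-/

open scoped ComplexOrder ZeroAtInfty Topology ComplexConjugate NNReal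
open TopologicalSpace Filter

namespace Pool.Agent.Helper45.CF

open Pool.Agent.Helper34.CAR Pool.Agent.Helper39.CR

noncomputable section

theorem c_GREC : S_GREC := Pool.Agent.Helper24.CF2.GREC.t
theorem c_PNT : S_PNT := Pool.Agent.Helper83.CF2.PNT.t
theorem c_DST : S_DST := Pool.Agent.Helper37.CF2.DST.t c_SML (c_BIG c_PNT)
theorem c_DSY : S_DSY := Pool.Agent.Helper12.CF2.t c_GREC c_KCB c_STC
theorem c_FMAP : S_FMAP := Pool.Agent.Helper84.CF2.FMAP.t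
theorem c_CPT : S_CPT := Pool.Agent.Helper63.CF2.CPT.t
theorem c_ZAQ : S_ZAQ := Pool.Agent.Helper13.CF2.t c_TIE
theorem c_NSUPV : S_NSUPV := Pool.Agent.Helper73.CF2.t

theorem cfx (hZCAR : S_ZCAR) (hZCX : S_ZCX) : S_CFX := by
  intro X _ _ _ _ ⟨q, hq⟩ D _ _ hD
  obtain ⟨E, iE, sE, hPN, -, hφ⟩ := p_TDB2 D hD
  have hTD : ∀ T : Theory, T.Zero (Unitization ℂ C₀(ℝ, E)) ↔ T.Zero D := fun T =>
    zero_iff_of T (hφ T)
  obtain ⟨H, M, L, iH, iM, iL, j, π, sH, hM, hL, hπ, hn, hj, hsc, hz⟩ :=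
    emb c_DST c_DSY c_LCM c_TAUV c_FMAP c_GMAP c_CPT c_FCX E hPN
  obtain ⟨e', he'⟩ := c_EMQ
  set e : C(ℕ → Sphere2, X) := q.comp e' with hedef
  have he : Function.Injective e := fun a b h => he' (hq h)
  obtain ⟨A, iA, i, r, hi, hr, hmem⟩ := c_AQ (ℕ → Sphere2) X M H e j hj
  have sM : SeparableSpace M := c_SEPM M hM
  have sA : SeparableSpace A := sep_of_inj (i : A →⋆ₙₐ[ℂ] C(X, M)) hi
  have hscal : ∀ f : C(X, ℂ), ∃ a, ∀ x, i a x = algebraMap ℂ M (f x) := by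
    intro f
    obtain ⟨b, hb⟩ := hsc (f.comp e)
    obtain ⟨a, ha⟩ := hmem ⟨fun x => algebraMap ℂ M (f x),
      (continuous_algebraMap ℂ M).comp f.continuous⟩ ⟨b, fun x => hb x⟩
    exact ⟨a, fun x => by rw [ha]; rfl⟩
  have hfib := c_FIB (ℕ → Sphere2) X M H A L e j i r π he hM hL hπ hn hr hmem
  refine ⟨A, M, iA, iM, i, hi, hM, hscal, hfib, sA,
    c_NQ c_NSUPV X M A i hi hscal hfib, fun T => ?_⟩
  have hZM : ∀ T : Theory, T.Zero M := fun T => hZCAR T M hM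
  have h1 : T.Zero C(X, M) :=
    (par_zero c_SUR c_DEN c_HOC c_MUC T X (hZCX T X) M).1 (hZM _)
  have h2 : T.Zero C(ℕ → Sphere2, M) :=
    (par_zero c_SUR c_DEN c_HOC c_MUC T (ℕ → Sphere2) (c_ZX T) M).1 (hZM _)
  exact (c_ZAQ T (ℕ → Sphere2) X M H A e j i r he hj hi hr hmem h1 h2).trans
    ((hz T).trans (hTD T))

end

end Pool.Agent.Helper45.CF
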