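import Pool.Agent.Helper45.CF.Defs
import Pool.Agent.Helper39.CR.GoalsS

/-!
# Project CF (MP_d97caa_an): auxiliary definitions for the goals
-/

open scoped ComplexOrder ZeroAtInfty Topology ComplexConjugate
open TopologicalSpace

namespace Pool.Agent.Helper45.CF

open Pool.Agent.Helper34.CAR Pool.Agent.Helper39.CR

noncomputable section

/-- Separability of `C(Z, A)`. -/
instance sepC {Z A : Type} [TopologicalSpace Z] [CompactSpace Z] [T2Space Z]
    [SecondCountableTopology Z] [NonUnitalCStarAlgebra A] [SeparableSpace A] :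
    SeparableSpace C(Z, A) := by
  have : SecondCountableTopology A := UniformSpace.secondCountable_of_separable A
  infer_instance

/-- *-homomorphisms are continuous. -/
theorem continuous_hom {A B : Type} [NonUnitalCStarAlgebra A] [NonUnitalCStarAlgebra B]
    (f : A →⋆ₙₐ[ℂ] B) : Continuous f :=
  AddMonoidHomClass.continuous_of_bound f 1 fun x => by
    simpa using NonUnitalStarAlgHom.norm_apply_le f x

/-- The induced homomorphism `C(Z, A) → C(Z, B)`. -/
def mapC (Z : Type) [TopologicalSpace Z] [CompactSpace Z] {A B : Type} [NonUnitalCStarAlgebra A]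
    [NonUnitalCStarAlgebra B] (f : A →⋆ₙₐ[ℂ] B) : C(Z, A) →⋆ₙₐ[ℂ] C(Z, B) where
  toFun a := ⟨fun z => f (a z), (continuous_hom f).comp a.continuous⟩
  map_smul' c a := by
    ext z
    exact map_smul f c (a z)
  map_zero' := by
    ext z
    exact map_zero f
  map_add' a b := by
    ext z
    exact map_add f (a z) (b z)
  map_mul' a b := by
    ext z
    exact map_mul f (a z) (b z)
  map_star' a := by
    ext z
    exact map_star f (a z)

theorem mapC_apply {Z A B : Type} [TopologicalSpace Z] [CompactSpace Z] [NonUnitalCStarAlgebra A]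
    [NonUnitalCStarAlgebra B] (f : A →⋆ₙₐ[ℂ] B) (a : C(Z, A)) (z : Z) :
    mapC Z f a z = f (a z) := rfl

/-- Pullback along a continuous map of compact spaces. -/
def pull {Y Z : Type} [TopologicalSpace Y] [CompactSpace Y] [TopologicalSpace Z] [CompactSpace Z]
    (A : Type) [NonUnitalCStarAlgebra A] (c : C(Z, Y)) : C(Y, A) →⋆ₙₐ[ℂ] C(Z, A) where
  toFun a := a.comp c
  map_smul' _ _ := rfl
  map_zero' := rfl
  map_add' _ _ := rfl
  map_mul' _ _ := rfl
  map_star' _ := rfl

theorem pull_apply {Y Z A : Type} [TopologicalSpace Y] [CompactSpace Y] [TopologicalSpace Z]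
    [CompactSpace Z] [NonUnitalCStarAlgebra A] (c : C(Z, Y)) (a : C(Y, A)) (z : Z) :
    pull A c a z = a (c z) := rfl

/-- Descent of functions along a continuous surjection of compact Hausdorff spaces. -/
theorem quo {P Y A : Type} [TopologicalSpace P] [CompactSpace P] [TopologicalSpace Y] [T2Space Y]
    [TopologicalSpace A] (c : C(P, Y)) (hc : Function.Surjective c) (g : C(P, A))
    (h : ∀ p p', c p = c p' → g p = g p') : ∃ f : C(Y, A), ∀ p, f (c p) = g p := by
  have hq : Topology.IsQuotientMap c := (c.continuous.isClosedMap).isQuotientMap c.continuous hc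
  exact ⟨hq.lift g h, fun p => DFunLike.congr_fun (hq.lift_comp g h) p⟩

/-! ## The Bott projection -/

/-- The entries of the Bott projection `(1/2) [[1 + t, conj w], [w, 1 - t]]` at the point
`(t, w)` of the sphere. -/
def bp (y : Sphere2) (i j : Fin 2) : ℂ :=
  if i = 0 then (if j = 0 then ((1 + y.1.1 : ℝ) : ℂ) / 2 else conj y.1.2 / 2)
  else (if j = 0 then y.1.2 / 2 else ((1 - y.1.1 : ℝ) : ℂ) / 2)

theorem continuous_bp (i j : Fin 2) : Continuous fun y => bp y i j := by
  unfold bp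
  split_ifs <;> fun_prop

/-- Polar coordinates on the sphere: `(cos (π t), sin (π t) z)`. -/
def pol : C(unitInterval × Circle, Sphere2) where
  toFun p := ⟨(Real.cos (Real.pi * p.1), ((Real.sin (Real.pi * p.1) : ℝ) : ℂ) * (p.2 : ℂ)), by
    have h1 : ‖((Real.sin (Real.pi * p.1) : ℝ) : ℂ) * (p.2 : ℂ)‖ ^ 2 =
        Real.sin (Real.pi * p.1) ^ 2 := by
      rw [norm_mul, Circle.norm_coe, mul_one, Complex.norm_real, Real.norm_eq_abs, sq_abs]
    show Real.cos (Real.pi * p.1) ^ 2 + ‖((Real.sin (Real.pi * p.1) : ℝ) : ℂ) * (p.2 : ℂ)‖ ^ 2 = 1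
    rw [h1]
    exact Real.cos_sq_add_sin_sq _⟩
  continuous_toFun := by
    refine Continuous.subtype_mk ?_ _
    fun_prop

/-! ## Infinite matrix units -/

/-- `K` is the algebra of the compact operators with coefficients in `A`: the closure of the union
of the matrix algebras over `A`. -/
structure IUnits {A K : Type} [NonUnitalCStarAlgebra A] [NonUnitalCStarAlgebra K]
    (e : ℕ → ℕ → A →ₗ[ℂ] K) : Prop where
  mul : ∀ i j k a b, e i j a * e j k b = e i k (a * b)
  mul0 : ∀ i j k l a b, j ≠ k → e i j a * e k l b = 0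
  star : ∀ i j a, star (e i j a) = e j i (star a)
  inj : ∀ i j a, e i j a = 0 → a = 0
  dense : Dense {x : K | ∃ (n : ℕ) (f : ℕ → ℕ → A),
    x = ∑ i ∈ Finset.range n, ∑ j ∈ Finset.range n, e i j (f i j)}

/-- The data extracted from the Toeplitz extension. -/
structure Toe {W G : Type} [CStarAlgebra W] [CStarAlgebra G] (r : W →⋆ₐ[ℂ] G)
    (Φ : C(Sphere2, W) →⋆ₐ[ℂ] G) (ε : W →⋆ₙₐ[ℂ] G) (ξ : Fin 2 → G) : Prop where
  const : ∀ w, Φ (ContinuousMap.const _ w) = r w
  comm : ∀ i w, ξ i * r w = r w * ξ i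
  iso : star (ξ 0) * ξ 0 + star (ξ 1) * ξ 1 = 1
  bott : ∀ (i j : Fin 2) (w : W) (f : C(Sphere2, W)), (∀ y, f y = bp y i j • w) →
    Φ f = ξ i * r w * star (ξ j) + if i = 1 ∧ j = 1 then ε w else 0
  orth : ∀ w, star (ξ 1) * ε w = 0

/-! ## Steps with an extra character -/

/-- The summand of `K b` at the index `c2` is the character `ω b`. -/
def HasOm {B : Type} [CStarAlgebra B] (ω : B →⋆ₐ[ℂ] ℂ) {C : Type} [Fintype C] [DecidableEq C]
    (c0 c1 c2 : C) (K : B →⋆ₐ[ℂ] Mt C B) : Prop :=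
  c2 ≠ c0 ∧ c2 ≠ c1 ∧ (∀ b, K b c2 c2 = algebraMap ℂ B (ω b)) ∧
    ∀ b x, x ≠ c2 → K b c2 x = 0 ∧ K b x c2 = 0

/-- The number of the index `x ∈ {c1, c2}`. -/
def ix {C : Type} [DecidableEq C] (c1 x : C) : Fin 2 := if x = c1 then 0 else 1

/-- The entries of the rotated step: the block `diag(b, ω b)` at the indices `c1`, `c2` is replaced
by `b ⊗ p_y + ω b ⊗ (1 - p_y)`, with the Bott projection `p_y`. -/
def rotE {B : Type} [CStarAlgebra B] (ω : B →⋆ₐ[ℂ] ℂ) {C : Type} [Fintype C] [DecidableEq C]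
    (c1 c2 : C) (K : B →⋆ₐ[ℂ] Mt C B) (y : Sphere2) (b : B) (x x' : C) : B :=
  if (x = c1 ∨ x = c2) ∧ (x' = c1 ∨ x' = c2) then
    bp y (ix c1 x) (ix c1 x') • b +
      ((if x = x' then 1 else 0) - bp y (ix c1 x) (ix c1 x')) • algebraMap ℂ B (ω b)
  else K b x x'

/-- `κh` is the connecting map at the step `k`, rotated over the points of the sphere. -/
def IsKap {B : Type} [CStarAlgebra B] {θ : B →⋆ₐ[ℂ] B} (s : Sys B θ) (ω : B →⋆ₐ[ℂ] ℂ)
    (c2 : ∀ i, s.C i) (k : ℕ) (κh : s.A k →⋆ₐ[ℂ] C(Sphere2, s.A (k + 1))) : Prop :=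
  ∀ a y p q, κh a y p q = rotE ω (s.c1 k) (c2 k) (s.K k) y
    (a (s.e k p).1 (s.e k q).1) (s.e k p).2 (s.e k q).2

end

end Pool.Agent.Helper45.CF
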