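import Pool.Agent.Helper45.CF.GoalsB
import Pool.Agent.Helper39.CR.SYS2

/-!
# Project CF (MP_d97caa_an), second stage: auxiliary definitions
-/

open scoped ComplexOrder ZeroAtInfty Topology ComplexConjugate NNReal
open TopologicalSpace

namespace Pool.Agent.Helper45.CF

open Pool.Agent.Helper34.CAR Pool.Agent.Helper39.CR

noncomputable section

/-! ## Direct sums of homomorphisms into matrix algebras -/

section

variable {B R I J : Type} [CStarAlgebra B] [CStarAlgebra R] [Fintype I] [DecidableEq I] [Fintype J]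
  [DecidableEq J]

/-- `diag(α b, β b)`. -/
def osum (α : B →⋆ₐ[ℂ] Mt I R) (β : B →⋆ₐ[ℂ] Mt J R) : B →⋆ₐ[ℂ] Mt (I ⊕ J) R where
  toFun b := Mt.of fun p q => match p, q with
    | .inl x, .inl y => α b x y
    | .inr x, .inr y => β b x y
    | _, _ => 0
  map_one' := by
    ext p q
    rcases p with p | p <;> rcases q with q | q <;>
      simp only [Mt.of_apply, map_one, Mt.one_apply, Sum.inl.injEq, Sum.inr.injEq, reduceCtorEq,
        if_false]
  map_mul' a b := by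
    ext p q
    rcases p with p | p <;> rcases q with q | q <;>
      simp [Mt.of_apply, Mt.mul_apply, Fintype.sum_sum_type, map_mul]
  map_zero' := by
    ext p q
    rcases p with p | p <;> rcases q with q | q <;> simp [Mt.of_apply]
  map_add' a b := by
    ext p q
    rcases p with p | p <;> rcases q with q | q <;> simp [Mt.of_apply]
  commutes' c := by
    ext p q
    rcases p with p | p <;> rcases q with q | q <;>
      simp only [Mt.of_apply, AlgHomClass.commutes, Mt.algebraMap_apply, Sum.inl.injEq,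
        Sum.inr.injEq, reduceCtorEq, if_false]
  map_star' a := by
    ext p q
    rcases p with p | p <;> rcases q with q | q <;> simp [Mt.of_apply, Mt.star_apply, map_star]

theorem osum_ll (α : B →⋆ₐ[ℂ] Mt I R) (β : B →⋆ₐ[ℂ] Mt J R) (b : B) (x y : I) :
    osum α β b (.inl x) (.inl y) = α b x y := rfl

theorem osum_rr (α : B →⋆ₐ[ℂ] Mt I R) (β : B →⋆ₐ[ℂ] Mt J R) (b : B) (x y : J) :
    osum α β b (.inr x) (.inr y) = β b x y := rfl

theorem osum_lr (α : B →⋆ₐ[ℂ] Mt I R) (β : B →⋆ₐ[ℂ] Mt J R) (b : B) (x : I) (y : J) :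
    osum α β b (.inl x) (.inr y) = 0 := rfl

theorem osum_rl (α : B →⋆ₐ[ℂ] Mt I R) (β : B →⋆ₐ[ℂ] Mt J R) (b : B) (x : I) (y : J) :
    osum α β b (.inr y) (.inl x) = 0 := rfl

end

/-- The scalars of a unital C*-algebra. -/
def algC (R : Type) [CStarAlgebra R] : ℂ →⋆ₐ[ℂ] R where
  toFun c := algebraMap ℂ R c
  map_one' := map_one _
  map_mul' := map_mul _
  map_zero' := map_zero _
  map_add' := map_add _
  commutes' _ := rfl
  map_star' c := algebraMap_star_comm c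

/-- A matrix valued representation, with values in the scalar matrices over `R`. -/
def scl (R : Type) [CStarAlgebra R] {B J : Type} [CStarAlgebra B] [Fintype J] [DecidableEq J]
    (t : B →⋆ₐ[ℂ] Mt J ℂ) : B →⋆ₐ[ℂ] Mt J R :=
  (Mt.map (algC R)).comp t

theorem scl_apply {R B J : Type} [CStarAlgebra R] [CStarAlgebra B] [Fintype J] [DecidableEq J]
    (t : B →⋆ₐ[ℂ] Mt J ℂ) (b : B) (p q : J) : scl R t b p q = algebraMap ℂ R (t b p q) := rfl

/-- A character, as a matrix of size one. -/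
def chM {B : Type} [CStarAlgebra B] (ω : B →⋆ₐ[ℂ] ℂ) : B →⋆ₐ[ℂ] Mt Unit ℂ where
  toFun b := Mt.of fun _ _ => ω b
  map_one' := by
    ext p q
    rw [Mt.of_apply, map_one, Mt.one_apply, if_pos rfl]
  map_mul' a b := by
    ext p q
    simp [Mt.of_apply, Mt.mul_apply, map_mul]
  map_zero' := by
    ext p q
    rw [Mt.of_apply, map_zero, Mt.zero_apply]
  map_add' a b := by
    ext p q
    rw [Mt.of_apply, map_add, Mt.add_apply, Mt.of_apply, Mt.of_apply]
  commutes' c := by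
    ext p q
    rw [Mt.of_apply, AlgHomClass.commutes, Mt.algebraMap_apply, if_pos rfl]
  map_star' a := by
    ext p q
    rw [Mt.of_apply, map_star, Mt.star_apply, Mt.of_apply]

/-- The standard step: `diag(θ b, b, ω b, t b)`, over the index set `(Fin 2 ⊕ Unit) ⊕ J`. -/
def kst {B J : Type} [CStarAlgebra B] [Fintype J] [DecidableEq J] (θ : B →⋆ₐ[ℂ] B)
    (ω : B →⋆ₐ[ℂ] ℂ) (t : B →⋆ₐ[ℂ] Mt J ℂ) : B →⋆ₐ[ℂ] Mt ((Fin 2 ⊕ Unit) ⊕ J) B :=
  osum (osum (Sys2.Ktriv θ) (scl B (chM ω))) (scl B t)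

/-- The three distinguished indices of a standard step. -/
abbrev i0 (J : Type) : (Fin 2 ⊕ Unit) ⊕ J := .inl (.inl 0)
abbrev i1 (J : Type) : (Fin 2 ⊕ Unit) ⊕ J := .inl (.inl 1)
abbrev i2 (J : Type) : (Fin 2 ⊕ Unit) ⊕ J := .inl (.inr ())

theorem kst_step {B J : Type} [CStarAlgebra B] [Fintype J] [DecidableEq J] (θ : B →⋆ₐ[ℂ] B)
    (ω : B →⋆ₐ[ℂ] ℂ) (t : B →⋆ₐ[ℂ] Mt J ℂ) : StepAt θ ∅ 1 _ (i0 J) (i1 J) (kst θ ω t) 1 := by
  refine ⟨by simp [i0, i1], by rw [star_one, one_mul], by rw [star_one, one_mul], ?_, ?_, ?_, ?_,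
    fun b hb => absurd hb (Finset.notMem_empty b)⟩
  · intro b
    rfl
  · intro b
    rfl
  · intro b x y hxy h
    rcases x with (x | x) | x <;> rcases y with (y | y) | y
    · show Sys2.Ktriv θ b x y = 0
      rw [Sys2.Ktriv_apply, if_neg]
      rintro rfl
      exact hxy rfl
    · rfl
    · rfl
    · rfl
    · exfalso
      exact hxy rfl
    · rfl
    · rfl
    · rfl
    · exfalso
      rcases h with h | h | h | h <;> cases h
  · intro b x y h0 h1 h2 h3
    rcases x with (x | x) | x <;> rcases y with (y | y) | y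
    · exfalso
      fin_cases x
      · exact h0 rfl
      · exact h1 rfl
    · exact ⟨0, (map_zero _).symm⟩
    · exact ⟨0, (map_zero _).symm⟩
    · exact ⟨0, (map_zero _).symm⟩
    · exact ⟨ω b, rfl⟩
    · exact ⟨0, (map_zero _).symm⟩
    · exact ⟨0, (map_zero _).symm⟩
    · exact ⟨0, (map_zero _).symm⟩
    · exact ⟨t b x y, rfl⟩

theorem kst_om {B J : Type} [CStarAlgebra B] [Fintype J] [DecidableEq J] (θ : B →⋆ₐ[ℂ] B)
    (ω : B →⋆ₐ[ℂ] ℂ) (t : B →⋆ₐ[ℂ] Mt J ℂ) : HasOm ω (i0 J) (i1 J) (i2 J) (kst θ ω t) := by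
  refine ⟨by simp [i0, i2], by simp [i1, i2], fun b => rfl, ?_⟩
  intro b x hx
  rcases x with (x | x) | x
  · exact ⟨rfl, rfl⟩
  · exact absurd rfl hx
  · exact ⟨rfl, rfl⟩

/-! ## Pairs of algebras -/

/-- A unital C*-algebra `B` contained in a unital C*-algebra `B'`, with an automorphism `θ'` and a
character `ω'` of `B'` that restrict to `B`. -/
structure Pr (B B' : Type) [CStarAlgebra B] [CStarAlgebra B'] where
  inc : B →⋆ₐ[ℂ] B'
  θ : B →⋆ₐ[ℂ] B
  θ' : B' →⋆ₐ[ℂ] B'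
  ω' : B' →⋆ₐ[ℂ] ℂ
  inj : Function.Injective inc
  comm : ∀ b, inc (θ b) = θ' (inc b)

/-- The restricted character. -/
def Pr.ω {B B' : Type} [CStarAlgebra B] [CStarAlgebra B'] (P : Pr B B') : B →⋆ₐ[ℂ] ℂ :=
  P.ω'.comp P.inc

/-- The rotated step over `B'`, as a matrix. -/
def rotM {B J : Type} [CStarAlgebra B] [Fintype J] [DecidableEq J] (θ : B →⋆ₐ[ℂ] B)
    (ω : B →⋆ₐ[ℂ] ℂ) (t : B →⋆ₐ[ℂ] Mt J ℂ) (y : Sphere2) (b : B) :
    Mt ((Fin 2 ⊕ Unit) ⊕ J) B :=
  Mt.of (rotE ω (i1 J) (i2 J) (kst θ ω t) y b)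

/-- The step property of a pair. -/
def Pr.Step {B B' : Type} [CStarAlgebra B] [CStarAlgebra B'] (P : Pr B B') : Prop :=
  ∀ (F : Finset B) (F' : Finset B') (ε : ℝ), 0 < ε → ∃ (a : ℕ) (J : Type) (_ : Fintype J)
    (_ : DecidableEq J) (t : B' →⋆ₐ[ℂ] Mt J ℂ) (w : Mt ((Fin 2 ⊕ Unit) ⊕ J) B)
    (w' : C(Sphere2, Mt ((Fin 2 ⊕ Unit) ⊕ J) B')) (ρ : B' →⋆ₐ[ℂ] Mt ((Fin 2 ⊕ Unit) ⊕ J) ℂ),
    Fintype.card ((Fin 2 ⊕ Unit) ⊕ J) = 2 ^ a ∧ star w * w = 1 ∧ w * star w = 1 ∧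
    star w' * w' = 1 ∧ w' * star w' = 1 ∧
    (∀ b ∈ F, ∃ x : (Fin 2 ⊕ Unit) ⊕ J → (Fin 2 ⊕ Unit) ⊕ J → ℂ,
      ‖kst P.θ P.ω (t.comp P.inc) b - star w * Mt.scal x * w‖ < ε) ∧
    ∀ b ∈ F', ∀ y, ‖rotM P.θ' P.ω' t y b - star (w' y) * scl B' ρ b * w' y‖ < ε

/-! ## The two cones -/

/-- The algebra `C₀([0,∞), E) ⊕ C₀([0,∞), E)`. -/
abbrev Two (E : Type) [NonUnitalCStarAlgebra E] : Type := C₀(ℝ≥0, E) × C₀(ℝ≥0, E)

/-- Restriction of functions on the line to the half lines. -/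
def toTwo (E : Type) [NonUnitalCStarAlgebra E] : C₀(ℝ, E) →⋆ₙₐ[ℂ] Two E where
  toFun f := (⟨⟨fun r => f r, by fun_prop⟩, (zero_at_infty f).comp (by
      exact NNReal.isClosedEmbedding_coe.tendsto_cocompact)⟩,
    ⟨⟨fun r => f (-r), by fun_prop⟩, (zero_at_infty f).comp (by
      have h1 : Filter.Tendsto (fun t : ℝ => -t) (Filter.cocompact ℝ) (Filter.cocompact ℝ) := by
        have := (Homeomorph.neg ℝ).isClosedEmbedding.tendsto_cocompact
        simpa using this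
      exact h1.comp NNReal.isClosedEmbedding_coe.tendsto_cocompact)⟩)
  map_smul' _ _ := rfl
  map_zero' := rfl
  map_add' _ _ := rfl
  map_mul' _ _ := rfl
  map_star' _ := rfl

/-- The swap. -/
def swp (E : Type) [NonUnitalCStarAlgebra E] : Two E →⋆ₙₐ[ℂ] Two E where
  toFun x := (x.2, x.1)
  map_smul' _ _ := rfl
  map_zero' := rfl
  map_add' _ _ := rfl
  map_mul' _ _ := rfl
  map_star' _ := rfl

/-- The character of a unitization. -/
def omU (X : Type) [NonUnitalCStarAlgebra X] : Unitization ℂ X →⋆ₐ[ℂ] ℂ where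
  toFun b := b.fst
  map_one' := rfl
  map_mul' _ _ := Unitization.fst_mul _ _
  map_zero' := rfl
  map_add' _ _ := rfl
  commutes' _ := rfl
  map_star' _ := rfl

theorem starMap_fst {X Y : Type} [NonUnitalCStarAlgebra X] [NonUnitalCStarAlgebra Y]
    (f : X →⋆ₙₐ[ℂ] Y) (b : Unitization ℂ X) : (Unitization.starMap f b).fst = b.fst := by
  induction b with
  | inl_add_inr r x =>
    simp
    rfl

theorem starMap_snd {X Y : Type} [NonUnitalCStarAlgebra X] [NonUnitalCStarAlgebra Y]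
    (f : X →⋆ₙₐ[ℂ] Y) (b : Unitization ℂ X) : (Unitization.starMap f b).snd = f b.snd := by
  induction b with
  | inl_add_inr r x =>
    simp
    rfl

theorem toTwo_injective (E : Type) [NonUnitalCStarAlgebra E] : Function.Injective (toTwo E) := by
  intro f g h
  ext t
  have h1 : (toTwo E f).1 = (toTwo E g).1 := congrArg Prod.fst h
  have h2 : (toTwo E f).2 = (toTwo E g).2 := congrArg Prod.snd h
  rcases le_total 0 t with ht | ht
  · exact DFunLike.congr_fun h1 ⟨t, ht⟩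
  · have h3 := DFunLike.congr_fun h2 (⟨-t, by linarith⟩ : ℝ≥0)
    have h4 : f (-(-t)) = g (-(-t)) := h3
    rwa [neg_neg] at h4

/-- The pair of the two unitizations. -/
def prE (E : Type) [NonUnitalCStarAlgebra E] :
    Pr (Unitization ℂ C₀(ℝ, E)) (Unitization ℂ (Two E)) where
  inc := Unitization.starMap (toTwo E)
  θ := Unitization.starMap (flip E)
  θ' := Unitization.starMap (swp E)
  ω' := omU (Two E)
  inj := by
    intro a b h
    refine Unitization.ext ?_ ?_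
    · rw [← starMap_fst (toTwo E) a, ← starMap_fst (toTwo E) b, h]
    · apply toTwo_injective E
      rw [← starMap_snd (toTwo E) a, ← starMap_snd (toTwo E) b, h]
  comm := by
    intro b
    refine Unitization.ext ?_ ?_
    · simp only [starMap_fst]
    · simp only [starMap_snd]
      refine Prod.ext ?_ ?_
      · rfl
      · ext t
        show b.snd (- -(t : ℝ)) = b.snd t
        rw [neg_neg]

/-! ## Systems of standard steps -/

/-- A sequence of standard steps of sizes powers of 2. -/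
structure DData (B' : Type) [CStarAlgebra B'] where
  J : ℕ → Type
  fJ : ∀ i, Fintype (J i)
  dJ : ∀ i, DecidableEq (J i)
  t : ∀ i, B' →⋆ₐ[ℂ] Mt (J i) ℂ
  card : ∀ i, ∃ a, Fintype.card ((Fin 2 ⊕ Unit) ⊕ J i) = 2 ^ a
  S : ℕ → Type
  fS : ∀ i, Fintype (S i)
  dS : ∀ i, DecidableEq (S i)
  s0 : S 0
  uniq : ∀ s : S 0, s = s0
  e : ∀ i, S (i + 1) ≃ S i × ((Fin 2 ⊕ Unit) ⊕ J i)

instance {B' : Type} [CStarAlgebra B'] (d : DData B') (i : ℕ) : Fintype (d.J i) := d.fJ i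
instance {B' : Type} [CStarAlgebra B'] (d : DData B') (i : ℕ) : DecidableEq (d.J i) := d.dJ i
instance {B' : Type} [CStarAlgebra B'] (d : DData B') (i : ℕ) : Fintype (d.S i) := d.fS i
instance {B' : Type} [CStarAlgebra B'] (d : DData B') (i : ℕ) : DecidableEq (d.S i) := d.dS i

/-- The system of the steps `kst θ ω (t i ∘ inc)` over an algebra `B` with a homomorphism
`inc : B → B'`. -/
def DData.sys {B' : Type} [CStarAlgebra B'] (d : DData B') {B : Type} [CStarAlgebra B]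
    (inc : B →⋆ₐ[ℂ] B') (θ : B →⋆ₐ[ℂ] B) (ω : B →⋆ₐ[ℂ] ℂ) : Sys B θ where
  S := d.S
  fS := d.fS
  dS := d.dS
  C i := (Fin 2 ⊕ Unit) ⊕ d.J i
  fC _ := inferInstance
  dC _ := inferInstance
  s0 := d.s0
  uniq := d.uniq
  e := d.e
  c0 i := i0 (d.J i)
  c1 i := i1 (d.J i)
  card := d.card
  K i := kst θ ω ((d.t i).comp inc)
  w _ := 1
  step i := kst_step θ ω ((d.t i).comp inc)

/-- The scalar matrix `x ⊗ 1`. -/
def xt {S C R : Type} [DecidableEq C] [Zero R] {S' : Type} (e : S' ≃ S × C) (x : S → S → R) :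
    S' → S' → R := fun p q => if (e p).2 = (e q).2 then x (e p).1 (e q).1 else 0

/-- The rotated connecting map over `B'` at the point `y`. -/
def DData.rk {B B' : Type} [CStarAlgebra B] [CStarAlgebra B'] (d : DData B') (P : Pr B B') (i : ℕ)
    (y : Sphere2) (a : Mt (d.S i) B') : Mt (d.S (i + 1)) B' :=
  Mt.of fun p q => rotM P.θ' P.ω' (d.t i) y (a (d.e i p).1 (d.e i q).1) (d.e i p).2 (d.e i q).2

/-- The unitaries `v i` show that the field over `B'` is trivial. -/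
structure DData.Big {B B' : Type} [CStarAlgebra B] [CStarAlgebra B'] (d : DData B') (P : Pr B B')
    (v : ∀ i, C(ℕ → Sphere2, Mt (d.S i) B')) : Prop where
  uni : ∀ i, star (v i) * v i = 1 ∧ v i * star (v i) = 1
  comp : ∀ i (x : ℕ → Sphere2) (z : d.S i → d.S i → ℂ),
    d.rk P i (x i) (star (v i x) * Mt.scal z * v i x) =
      star (v (i + 1) x) * Mt.scal (xt (d.e i) z) * v (i + 1) x
  app : ∀ (j : ℕ) (a : ∀ k, C(ℕ → Sphere2, Mt (d.S (j + k)) B')),
    (∀ k x, a (k + 1) x = d.rk P (j + k) (x (j + k)) (a k x)) → ∀ ε : ℝ, 0 < ε →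
    ∃ (k : ℕ) (z : C(ℕ → Sphere2, Mt (d.S (j + k)) ℂ)), ∀ x,
      ‖a k x - star (v (j + k) x) * Mt.scal (fun p q => z x p q) * v (j + k) x‖ < ε

/-! ## Block diagonal matrices, the rotated part of a standard step -/

/-- Block diagonal matrices. -/
def bd {R I J : Type} [Zero R] (a : Mt I R) (c : Mt J R) : Mt (I ⊕ J) R :=
  Mt.of fun p q => match p, q with
    | .inl x, .inl y => a x y
    | .inr x, .inr y => c x y
    | _, _ => 0

/-- The rotated part of a standard step: `diag(θ b, b ⊗ p_y + ω b ⊗ (1 - p_y))`. -/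
def rr {B : Type} [CStarAlgebra B] (θ : B →⋆ₐ[ℂ] B) (ω : B →⋆ₐ[ℂ] ℂ) (y : Sphere2) (b : B) :
    Mt (Fin 2 ⊕ Unit) B :=
  Mt.of (rotE ω (.inl 1) (.inr ()) (osum (Sys2.Ktriv θ) (scl B (chM ω))) y b)

theorem osum_bd {B R I J : Type} [CStarAlgebra B] [CStarAlgebra R] [Fintype I] [DecidableEq I]
    [Fintype J] [DecidableEq J] (α : B →⋆ₐ[ℂ] Mt I R) (β : B →⋆ₐ[ℂ] Mt J R) (b : B) :
    osum α β b = bd (α b) (β b) := rfl

theorem rotM_eq {B J : Type} [CStarAlgebra B] [Fintype J] [DecidableEq J] (θ : B →⋆ₐ[ℂ] B)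
    (ω : B →⋆ₐ[ℂ] ℂ) (t : B →⋆ₐ[ℂ] Mt J ℂ) (y : Sphere2) (b : B) :
    rotM θ ω t y b = bd (rr θ ω y b) (scl B t b) := by
  ext p q
  rcases p with p | p <;> rcases q with q | q
  · show rotE ω (i1 J) (i2 J) (kst θ ω t) y b (.inl p) (.inl q) =
      rotE ω (.inl 1) (.inr ()) (osum (Sys2.Ktriv θ) (scl B (chM ω))) y b p q
    unfold rotE ix
    simp only [i1, i2, Sum.inl.injEq]
    rfl
  · show rotE ω (i1 J) (i2 J) (kst θ ω t) y b (.inl p) (.inr q) = 0
    unfold rotE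
    rw [if_neg]
    · rfl
    · rintro ⟨-, h | h⟩ <;> cases h
  · show rotE ω (i1 J) (i2 J) (kst θ ω t) y b (.inr p) (.inl q) = 0
    unfold rotE
    rw [if_neg]
    · rfl
    · rintro ⟨h | h, -⟩ <;> cases h
  · show rotE ω (i1 J) (i2 J) (kst θ ω t) y b (.inr p) (.inr q) = scl B t b p q
    unfold rotE
    rw [if_neg]
    · rfl
    · rintro ⟨h | h, -⟩ <;> cases h

/-! ## Relative versions of property (N) -/

/-- Property (N) of `X`, with representations that extend to `X'`. -/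
def PNu {X X' : Type} [NonUnitalCStarAlgebra X] [NonUnitalCStarAlgebra X']
    (u : X →⋆ₙₐ[ℂ] X') : Prop :=
  ∀ (F : Finset X) (ε : ℝ), 0 < ε → ∃ (J : Type) (_ : Fintype J) (_ : DecidableEq J)
    (σ : X' →⋆ₙₐ[ℂ] CStarMatrix J J ℂ) (v : J → X), ‖∑ p, star (v p) * v p‖ ≤ 1 ∧
      ∀ x ∈ F, ‖qf (σ (u x)) v - x‖ < ε

/-- The unital version. -/
def NU {B B' : Type} [CStarAlgebra B] [CStarAlgebra B'] (inc : B →⋆ₐ[ℂ] B') : Prop :=
  ∀ (F : Finset B) (δ : ℝ), 0 < δ → ∃ (J : Type) (_ : Fintype J) (_ : DecidableEq J)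
    (σ : B' →⋆ₐ[ℂ] CStarMatrix J J ℂ) (v : J → B), ∑ p, star (v p) * v p = 1 ∧
      ∀ b ∈ F, ‖qf (σ (inc b)) v - b‖ < δ

/-! ## The combined algebra -/

/-- The index set of a standard step. -/
structure StD (B' : Type) [CStarAlgebra B'] where
  J : Type
  fJ : Fintype J
  dJ : DecidableEq J
  t : B' →⋆ₐ[ℂ] Mt J ℂ
  card : ∃ a, Fintype.card ((Fin 2 ⊕ Unit) ⊕ J) = 2 ^ a

instance {B' : Type} [CStarAlgebra B'] (d : StD B') : Fintype d.J := d.fJ
instance {B' : Type} [CStarAlgebra B'] (d : StD B') : DecidableEq d.J := d.dJ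

/-- The matrix with the entries `ζ (x p q)`. -/
def zm {Z B S : Type} [CStarAlgebra Z] [CStarAlgebra B] (ζ : Z →⋆ₐ[ℂ] B) (x : S → S → Z) :
    Mt S B := Mt.of fun p q => ζ (x p q)

/-- `B × C(X, B')` with `X = (S²)^ℕ`. -/
abbrev Cb (B B' : Type) [CStarAlgebra B] [CStarAlgebra B'] : Type := B × C(ℕ → Sphere2, B')

/-- The scalars of the combined algebra. -/
def zcb (B B' : Type) [CStarAlgebra B] [CStarAlgebra B'] :
    (ℂ × C(ℕ → Sphere2, ℂ)) →⋆ₐ[ℂ] Cb B B' where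
  toFun c := (algebraMap ℂ B c.1, ⟨fun x => algebraMap ℂ B' (c.2 x), by
    exact (continuous_algebraMap ℂ B').comp c.2.continuous⟩)
  map_one' := by
    refine Prod.ext (map_one (algebraMap ℂ B)) ?_
    ext x
    exact map_one (algebraMap ℂ B')
  map_mul' a b := by
    refine Prod.ext (map_mul (algebraMap ℂ B) a.1 b.1) ?_
    ext x
    exact map_mul (algebraMap ℂ B') (a.2 x) (b.2 x)
  map_zero' := by
    refine Prod.ext (map_zero (algebraMap ℂ B)) ?_
    ext x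
    exact map_zero (algebraMap ℂ B')
  map_add' a b := by
    refine Prod.ext (map_add (algebraMap ℂ B) a.1 b.1) ?_
    ext x
    exact map_add (algebraMap ℂ B') (a.2 x) (b.2 x)
  commutes' _ := rfl
  map_star' c := by
    refine Prod.ext (algebraMap_star_comm c.1) ?_
    ext x
    exact algebraMap_star_comm (c.2 x)

/-- `K` is the standard step over `B` together with the rotated standard step over `B'`. -/
def IsCb {B B' J : Type} [CStarAlgebra B] [CStarAlgebra B'] [Fintype J] [DecidableEq J]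
    (P : Pr B B') (t : B' →⋆ₐ[ℂ] Mt J ℂ) (i : ℕ)
    (K : Cb B B' →⋆ₐ[ℂ] Mt ((Fin 2 ⊕ Unit) ⊕ J) (Cb B B')) : Prop :=
  ∀ b f p q, (K (b, f) p q).1 = kst P.θ P.ω (t.comp P.inc) b p q ∧
    ∀ x : ℕ → Sphere2, (K (b, f) p q).2 x = rotM P.θ' P.ω' t (x i) (f x) p q

/-! ## Fields with varying fibres -/

/-- `A` is the C*-algebra of the sections of a unital continuous field over the compact space `X`
with the fibres `L x`. -/
structure CtsFieldV {X A : Type} {L : X → Type} [TopologicalSpace X] [CompactSpace X]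
    [CStarAlgebra A] [∀ x, CStarAlgebra (L x)] (ζ : C(X, ℂ) →⋆ₐ[ℂ] A)
    (π : ∀ x, A →⋆ₐ[ℂ] L x) : Prop where
  surj : ∀ x, Function.Surjective (π x)
  scalar : ∀ x f, π x (ζ f) = algebraMap ℂ (L x) (f x)
  cont : ∀ a, Continuous fun x => ‖π x a‖
  faithful : ∀ a, (∀ x, π x a = 0) → a = 0

end

end Pool.Agent.Helper45.CF
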