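import Pool.Agent.Helper39.CR.CarDefs

/-!
# Continuous fields with fibre the CAR algebra: definitions for the statement

Project CF (MP_d97caa_an). Paper proof: `paper.md` in this folder.
-/

open scoped ComplexOrder Topology
open TopologicalSpace

namespace Pool.Agent.Helper45.CF

noncomputable section

/-- The 2-sphere. -/
abbrev Sphere2 : Type := {y : ℝ × ℂ // y.1 ^ 2 + ‖y.2‖ ^ 2 = 1}

instance : CompactSpace Sphere2 := by
  refine isCompact_iff_compactSpace.1 ?_
  have hcl : IsClosed {y : ℝ × ℂ | y.1 ^ 2 + ‖y.2‖ ^ 2 = 1} :=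
    isClosed_eq (by fun_prop) continuous_const
  refine (isCompact_closedBall (0 : ℝ × ℂ) 1).of_isClosed_subset hcl ?_
  intro y hy
  have hy' : y.1 ^ 2 + ‖y.2‖ ^ 2 = 1 := hy
  rw [mem_closedBall_zero_iff, Prod.norm_def, sup_le_iff, Real.norm_eq_abs]
  constructor
  · exact abs_le_one_iff_mul_self_le_one.2 (by nlinarith [sq_nonneg ‖y.2‖])
  · nlinarith [sq_nonneg y.1, norm_nonneg y.2]

/-- `A` is the C*-algebra of the sections of a unital continuous field over the compact space `X`,
all of whose fibres are `L`: the evaluations `π x` map onto `L`, the scalar functions are sections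
(`ζ`), the norms of the values of a section are continuous functions, and a section is determined
by its values. -/
structure CtsField {X A L : Type} [TopologicalSpace X] [CompactSpace X] [CStarAlgebra A]
    [CStarAlgebra L] (ζ : C(X, ℂ) →⋆ₐ[ℂ] A) (π : X → A →⋆ₐ[ℂ] L) : Prop where
  surj : ∀ x, Function.Surjective (π x)
  scalar : ∀ x f, π x (ζ f) = algebraMap ℂ L (f x)
  cont : ∀ a, Continuous fun x => ‖π x a‖
  faithful : ∀ a, (∀ x, π x a = 0) → a = 0

end

end Pool.Agent.Helper45.CF
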