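import Pool.Agent.Helper45.CF.Asm2

/-!
# Project CF (MP_d97caa_an), second stage: the embedding of the field into the trivial field
-/

open scoped ComplexOrder ZeroAtInfty Topology ComplexConjugate NNReal
open TopologicalSpace Filter

namespace Pool.Agent.Helper45.CF

open Pool.Agent.Helper34.CAR Pool.Agent.Helper39.CR

noncomputable section

theorem sep_of_dense {A : Type} [NonUnitalCStarAlgebra A] (B : ℕ → Type)
    [∀ i, NonUnitalCStarAlgebra (B i)] [∀ i, SeparableSpace (B i)] (u : ∀ i, B i →⋆ₙₐ[ℂ] A)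
    (hd : Dense (⋃ i, Set.range (u i))) : SeparableSpace A := by
  have h1 : ∀ i, IsSeparable (Set.range (u i)) := fun i =>
    isSeparable_range (continuous_hom (u i))
  have h2 : IsSeparable (⋃ i, Set.range (u i)) := IsSeparable.iUnion h1
  have h3 : IsSeparable (Set.univ : Set A) := by
    have := h2.closure
    rwa [hd.closure_eq] at this
  exact isSeparable_univ_iff.1 h3

theorem norm_inj {A B : Type} [CStarAlgebra A] [CStarAlgebra B] (f : A →⋆ₐ[ℂ] B)
    (hf : Function.Injective f) (a : A) : ‖f a‖ = ‖a‖ :=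
  NonUnitalStarAlgHom.norm_map f hf a

/-- The embedding of the field. -/
theorem emb (hDST : S_DST) (hDSY : S_DSY) (hLCM : S_LCM) (hTAUV : S_TAUV) (hFMAP : S_FMAP)
    (hGMAP : S_GMAP) (hCPT : S_CPT) (hFCX : S_FCX) (E : Type) [NonUnitalCStarAlgebra E]
    [SeparableSpace E] (hPN : PN E) :
    ∃ (H M L : Type) (_ : CStarAlgebra H) (_ : CStarAlgebra M) (_ : CStarAlgebra L)
      (j : H →⋆ₐ[ℂ] C(ℕ → Sphere2, M)) (π : (ℕ → Sphere2) → H →⋆ₐ[ℂ] L), SeparableSpace H ∧
      IsCAR M ∧ IsCAR L ∧ (∀ x, Function.Surjective (π x)) ∧ (∀ b x, ‖j b x‖ = ‖π x b‖) ∧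
      Function.Injective j ∧
      (∀ f : C(ℕ → Sphere2, ℂ), ∃ b, ∀ x, j b x = algebraMap ℂ M (f x)) ∧
      ∀ T : Theory, T.Zero H ↔ T.Zero (Unitization ℂ C₀(ℝ, E)) := by
  have sX : SeparableSpace C₀(ℝ, E) := by
    obtain ⟨u, hu, -⟩ := p_EMB E
    exact sep_of_inj u hu
  have sT : SeparableSpace (Two E) := sep_two E
  obtain ⟨d, hMat, v, hv⟩ := hDSY (Unitization ℂ C₀(ℝ, E)) (Unitization ℂ (Two E)) (prE E)
    (hDST E hPN)
  let P := prE E
  let s : Sys (Unitization ℂ C₀(ℝ, E)) (Unitization.starMap (flip E)) := d.sys P.inc P.θ P.ω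
  let s' := d.sys (StarAlgHom.id ℂ (Unitization ℂ (Two E))) P.θ' P.ω'
  have hom : ∀ i, HasOm P.ω (s.c0 i) (s.c1 i) (i2 (d.J i)) (s.K i) := fun i => kst_om _ _ _
  have hom' : ∀ i, HasOm P.ω' (s'.c0 i) (s'.c1 i) (i2 (d.J i)) (s'.K i) := fun i => kst_om _ _ _
  choose κh hκ hU using c_KAP _ _ P.ω s (fun i => i2 (d.J i)) hom
  choose κh' hκ' hU' using c_KAP _ _ P.ω' s' (fun i => i2 (d.J i)) hom'
  obtain ⟨L, iL, ι, hι1, hι2, hι3⟩ := t_IL s.A s.κ (t_KINJ _ _ s)
  have hcar : IsCAR L := t_CARL _ _ s hMat L ι hι1 hι2 hι3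
  obtain ⟨L', iL', ι', hι1', hι2', hι3'⟩ := t_IL s'.A s'.κ (t_KINJ _ _ s')
  have ne : Nonempty Sphere2 := ⟨⟨(1, 0), by simp⟩⟩
  obtain ⟨H, iH, ζ, π, u, ιX, hf, hu, hj, hd, hX1, hX2, hX3, hX4, hX5⟩ :=
    hFCX Sphere2 s.A s.κ κh hU L ι hι1 hι2 hι3
  obtain ⟨H', iH', ζ', π', u', ιX', hf', hu', hj', hd', hX1', hX2', hX3', hX4', hX5'⟩ :=
    hFCX Sphere2 s'.A s'.κ κh' hU' L' ι' hι1' hι2' hι3'
  obtain ⟨M, iM, μ, hM, hμ1, hμ2, hμ3⟩ := hLCM (Unitization ℂ (Two E)) d
  choose τ hτ using fun i => hTAUV (ℕ → Sphere2) (d.S i) (Unitization ℂ (Two E)) (v i)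
    (hv.uni i).1 (hv.uni i).2
  have sH : SeparableSpace H := sep_of_dense (fun i => C(Fin i → Sphere2, s.A i)) u hd
  -- the map between the fields
  have hC := fun i => hCPT _ _ P d i (κh i) (κh' i) (hκ i) (hκ' i)
  obtain ⟨Φ, hΦ⟩ := hFMAP H H' (fun i => C(ℕ → Sphere2, s.A i)) (fun i => C(ℕ → Sphere2, s'.A i))
    ιX ιX' (fun i => kX (κh i) i) (fun i => kX (κh' i) i)
    (fun i => mapU (ℕ → Sphere2) (Mt.map P.inc : s.A i →⋆ₐ[ℂ] s'.A i)) hX2
    (fun i a => hX1 i a _ fun x => rfl) (fun i a => hX1' i a _ fun x => rfl)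
    (fun i a => by
      ext1 x
      exact (hC i).1 (a x) (x i)) hX3
  -- the trivialisation
  obtain ⟨G, hG1, hG2⟩ := hGMAP (ℕ → Sphere2) H' M s'.A (fun i => Mt (d.S i) ℂ) ιX'
    (fun i => kX (κh' i) i) τ (fun i => xtH (d.e i)) μ hX2' (fun i a => hX1' i a _ fun x => rfl)
    hX3' (fun i a x => by
      obtain ⟨U, h1, h2, h3⟩ := hU' i (x i)
      rw [kX_apply, h3, norm_conj _ _ h1 h2]
      exact norm_inj (s'.κ i) (t_KINJ _ _ s' i) (a x))
    (fun i z x => (hτ i z x).2)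
    (fun i z z' hz => by
      refine ContinuousMap.ext fun x => ?_
      have e1 := (hτ (i + 1) z' x).1
      have e2 := (hC i).2 (τ i z x) (x i)
      have e3 := hv.comp i x fun p q => z x p q
      have e4 := congrArg (d.rk P i (x i)) (hτ i z x).1
      have e5 := congrArg (fun m : Mt (d.S (i + 1)) ℂ => star (v (i + 1) x) *
        Mt.scal (fun p q => m p q) * v (i + 1) x) (hz x)
      exact e1.trans (e5.trans (e3.symm.trans (e4.symm.trans e2.symm))))
    hμ1 hμ2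
    (fun j a ha ε hε => by
      obtain ⟨k, z, hz⟩ := hv.app j a (fun k x =>
        (congrArg (fun f : C(ℕ → Sphere2, s'.A (j + k + 1)) => f x) (ha k)).trans
          ((hC (j + k)).2 (a k x) (x (j + k)))) (ε / 2) (half_pos hε)
      refine ⟨k, z, ?_⟩
      refine lt_of_le_of_lt ?_ (half_lt_self hε)
      refine (ContinuousMap.norm_le _ (half_pos hε).le).2 fun x => ?_
      have h1 := hz x
      rw [← (hτ (j + k) z x).1] at h1
      exact h1.le)
  have hnorm : ∀ b x, ‖(G.comp Φ) b x‖ = ‖π x b‖ := by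
    intro b x
    have hcont1 : Continuous fun b : H => ‖(G.comp Φ) b x‖ := by
      have h1 : Continuous (G.comp Φ) := AddMonoidHomClass.continuous_of_bound (G.comp Φ) 1
        fun x => by simpa using NonUnitalStarAlgHom.norm_apply_le (G.comp Φ) x
      exact ((continuous_eval_const x).comp h1).norm
    have hcont2 : Continuous fun b : H => ‖π x b‖ := by
      have h1 : Continuous (π x) := AddMonoidHomClass.continuous_of_bound (π x) 1
        fun y => by simpa using NonUnitalStarAlgHom.norm_apply_le (π x) y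
      exact h1.norm
    have hcl : IsClosed {b : H | ‖(G.comp Φ) b x‖ = ‖π x b‖} := isClosed_eq hcont1 hcont2
    have hsub : (⋃ i, Set.range (ιX i)) ⊆ {b : H | ‖(G.comp Φ) b x‖ = ‖π x b‖} := by
      intro b hb
      obtain ⟨i, hi⟩ := Set.mem_iUnion.1 hb
      obtain ⟨a, rfl⟩ := hi
      show ‖G (Φ (ιX i a)) x‖ = ‖π x (ιX i a)‖
      rw [hΦ, hG2, hX4, mapU_apply]
      refine norm_inj (Mt.map P.inc : s.A i →⋆ₐ[ℂ] s'.A i) ?_ (a x)
      intro y z hyz
      exact Mt.ext fun p q => P.inj (congrFun (congrFun hyz p) q)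
    have := hcl.closure_subset_iff.2 hsub
    rw [hX3.closure_eq] at this
    exact this (Set.mem_univ b)
  refine ⟨H, M, L, iH, iM, iL, G.comp Φ, π, sH, hM, hcar, hf.surj, hnorm, ?_, ?_, ?_⟩
  · rw [injective_iff_map_eq_zero]
    intro b hb
    refine hf.faithful b fun x => ?_
    rw [← norm_eq_zero, ← hnorm, hb]
    exact norm_zero
  · intro f
    let a0 : C(ℕ → Sphere2, s.A 0) := ⟨fun x => algebraMap ℂ (s.A 0) (f x),
      (continuous_algebraMap ℂ (s.A 0)).comp f.continuous⟩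
    let z0 : C(ℕ → Sphere2, Mt (d.S 0) ℂ) := ⟨fun x => algebraMap ℂ (Mt (d.S 0) ℂ) (f x),
      (continuous_algebraMap ℂ (Mt (d.S 0) ℂ)).comp f.continuous⟩
    refine ⟨ζ f, fun x => ?_⟩
    have h1 : ζ f = ιX 0 a0 := hX5 f a0 fun x => rfl
    have h2 : mapU (ℕ → Sphere2) (Mt.map P.inc : s.A 0 →⋆ₐ[ℂ] s'.A 0) a0 = τ 0 z0 := by
      refine ContinuousMap.ext fun x => ?_
      refine Eq.trans ?_ (hτ 0 z0 x).1.symm
      have h3 : (Mt.scal (fun p q => z0 x p q) : Mt (d.S 0) (Unitization ℂ (Two E))) =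
          algebraMap ℂ _ (f x) := by
        refine Mt.ext fun p q => ?_
        rw [Mt.scal_apply, Mt.algebraMap_apply]
        have h4 : z0 x p q = if p = q then f x else 0 := by
          show (algebraMap ℂ (Mt (d.S 0) ℂ) (f x)) p q = _
          rw [Mt.algebraMap_apply]
          rfl
        rw [h4]
        split_ifs
        · rfl
        · exact map_zero _
      rw [h3, ← Algebra.commutes, mul_assoc]
      have h5 : star (v 0 x) * v 0 x = 1 := DFunLike.congr_fun (hv.uni 0).1 x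
      rw [h5, mul_one]
      exact AlgHomClass.commutes (Mt.map P.inc : Mt (d.S 0) _ →⋆ₐ[ℂ] Mt (d.S 0) _) (f x)
    have h6 : (G.comp Φ) (ζ f) = G (ιX' 0 (τ 0 z0)) := by
      have h8 : Φ (ζ f) = ιX' 0 (τ 0 z0) :=
        (congrArg Φ h1).trans ((hΦ 0 a0).trans (congrArg (ιX' 0) h2))
      exact congrArg G h8
    have h7 := congrArg (fun g : C(ℕ → Sphere2, M) => g x) h6
    exact h7.trans ((hG1 0 z0 x).trans (AlgHomClass.commutes (μ 0) (f x)))
  · intro T
    exact zero_field E P.ω s (fun i => i2 (d.J i)) hom κh hκ H u hu hj hd T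

end

end Pool.Agent.Helper45.CF
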