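import Pool.Agent.Helper45.CF.Asm4
import Pool.Agent.Helper45.CF.Final
import Pool.Agent.Helper45.CF2.ZCAR
import Pool.Agent.Helper14.CF2.CTR
import Pool.Agent.Helper8.CF2.MVC
import Pool.Agent.Helper96.CF2.BOXZ
import Pool.Agent.Helper79.CF2.FUB
import Pool.Agent.Helper87.CF2.APX
import Pool.Agent.Helper83.CF2.EMX
import Pool.Agent.Helper35.CF2.ZCX

/-!
# Project CF (MP_d97caa_an), second stage: the final theorem
-/

open scoped ComplexOrder Topology
open TopologicalSpace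

namespace Pool.Agent.Helper45.CF

open Pool.Agent.Helper34.CAR Pool.Agent.Helper39.CR Pool.Agent.Helper39.CarDefs

theorem c_CON : S_CON := Pool.Agent.Helper14.CF2.CTR.t
theorem c_MVC : S_MVC := Pool.Agent.Helper8.CF2.MVC.t
theorem c_BOXZ : S_BOXZ := Pool.Agent.Helper96.CF2.BOXZ.t c_CON
theorem c_FUB : S_FUB := Pool.Agent.Helper79.CF2.t c_BOXZ c_MVC
theorem c_APX : S_APX := Pool.Agent.Helper87.CF2.APX.t
theorem c_EMX : S_EMX := Pool.Agent.Helper83.CF2.EMX.t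
theorem c_ZCX : S_ZCX := Pool.Agent.Helper35.CF2.t c_EMX c_APX c_FUB

theorem final2 : ∀ (X : Type) [TopologicalSpace X] [CompactSpace X] [T2Space X]
    [SecondCountableTopology X], (∃ e : C(ℕ → unitInterval, X), Function.Injective e) →
    ∀ (D : Type) [NonUnitalCStarAlgebra D] [SeparableSpace D], Nuclear D →
    ∃ (A M : Type) (_ : CStarAlgebra A) (_ : CStarAlgebra M) (i : A →⋆ₐ[ℂ] C(X, M)),
      Function.Injective i ∧ IsCAR M ∧
      (∀ f : C(X, ℂ), ∃ a, ∀ x, i a x = algebraMap ℂ M (f x)) ∧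
      (∀ x, ∃ (L : Type) (_ : CStarAlgebra L) (j : L →⋆ₐ[ℂ] M), IsCAR L ∧
        Function.Injective j ∧ Set.range j = Set.range fun a => i a x) ∧
      SeparableSpace A ∧ Nuclear A ∧ ∀ T : Groups, IsTheory T → (T.Zero A ↔ T.Zero D) := by
  intro X _ _ _ _ hX D _ _ hD
  obtain ⟨A, M, iA, iM, i, h1, h2, h3, h4, h5, h6, h7⟩ :=
    cfx Pool.Agent.Helper45.CF2.ZCAR.t c_ZCX X hX D hD
  exact ⟨A, M, iA, iM, i, h1, h2, h3, h4, h5, h6, fun T hT => h7 (toTheory T hT)⟩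

end Pool.Agent.Helper45.CF
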