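import Pool.Agent.Helper45.CF.Base

/-!
# Project CF (MP_d97caa_an): goals, first part

Theories with parameters (`S_SUR .. S_MUC`), the sphere (`S_CIR`, `S_SPH`), half of Bott periodicity
(`S_KW .. S_BOTT`). Every packet proves one Prop `S_...` as a theorem in
`Pool/Agent/<You>/CF/<Name>.lean`; Props named in its proof are hypotheses of the theorem. Landed
facts may be used freely, in particular `Pool.Agent.Helper39.CR.Parts6` (`p_TZ`, `p_TADD`, `p_TCOR`,
`p_TUN`, ..) and `Pool.Agent.Helper39.CR.ISO` (`tsz2`, `bij_of_inv`, `bij_of_ext`).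
-/

open scoped ComplexOrder ZeroAtInfty Topology ComplexConjugate
open TopologicalSpace Filter

namespace Pool.Agent.Helper45.CF

open Pool.Agent.Helper34.CAR Pool.Agent.Helper39.CR Pool.Agent.Helper39.Uct

noncomputable section

/-! ## Theories with parameters: if `T` is a theory and `T.Zero C(Z, ℂ)` then `A ↦ F(C(Z, A))` is a
theory -/

/-- SUR. `C(Z, ·)` preserves surjections.
Proof. The range of `mapC Z q` is closed (`S_RC`, landed: `Pool.Agent.Helper39.Uct.t_RC` or the like in `Helper39/Uct/Main.lean`), so it is enough that it is dense: given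
`g : C(Z, Q)` and `ε > 0` apply `exists_continuous_forall_mem_convex_of_local_const` (Mathlib, `Analysis/Convex/PartitionOfUnity`) with `E = A` and the convex sets
`t z = {a : ‖q a - g z‖ < ε}`: near `z₀` a preimage `a₀` of `g z₀` lies in all `t z`. It gives `f : C(Z, A)` with `‖q (f z) - g z‖ < ε` for all `z`. -/
def S_SUR : Prop := ∀ (Z A Q : Type) [TopologicalSpace Z] [CompactSpace Z] [T2Space Z]
  [NonUnitalCStarAlgebra A] [NonUnitalCStarAlgebra Q] (q : A →⋆ₙₐ[ℂ] Q),
  Function.Surjective q → Function.Surjective (mapC Z q)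

/-- DEN. `C(Z, ·)` preserves closures of increasing unions.
Proof. Let `g : C(Z, A)`, `ε > 0`. `g` has compact range, so there are finitely many `a i` in `⋃ range (u k)` such that every `g z` is at distance `< ε` from some `a i`
(compactness of `Z` for the open sets `{z : ‖g z - a‖ < ε}`, `a` in the dense union). The ranges increase, so all `a i` lie in `range (u k)` for one `k`. Apply
`exists_continuous_forall_mem_convex_of_local_const` with `E = B k` and the convex sets `t z = {b : ‖u k b - g z‖ < ε}`; near `z₀` one of the `a i = u k b i` works. -/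
def S_DEN : Prop := ∀ (Z A : Type) [TopologicalSpace Z] [CompactSpace Z] [T2Space Z]
  [NonUnitalCStarAlgebra A] (B : ℕ → Type) [∀ k, NonUnitalCStarAlgebra (B k)]
  (j : ∀ k, B k →⋆ₙₐ[ℂ] B (k + 1)) (u : ∀ k, B k →⋆ₙₐ[ℂ] A),
  (∀ k b, u (k + 1) (j k b) = u k b) → Dense (⋃ k, Set.range (u k)) →
  Dense (⋃ k, Set.range (mapC Z (u k)))

/-- HOC. `C(Z, ·)` preserves homotopies.
Proof. `(t, a) ↦ h t a` is continuous on `unitInterval × A` (pointwise continuous in `t`, and `‖h t a - h t a'‖ ≤ ‖a - a'‖`), so `(t, z) ↦ h t (f z)` is continuous on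
`unitInterval × Z`; use `ContinuousMap.curry` (its continuity in `t`) and identify `curry .. t` with `mapC Z (h t) f`. -/
def S_HOC : Prop := ∀ (Z A B : Type) [TopologicalSpace Z] [CompactSpace Z]
  [NonUnitalCStarAlgebra A] [NonUnitalCStarAlgebra B] (h : unitInterval → (A →⋆ₙₐ[ℂ] B)),
  (∀ a, Continuous fun t => h t a) → ∀ f : C(Z, A), Continuous fun t => mapC Z (h t) f

/-- MUC. `C(Z, ·)` of a matrix algebra is a matrix algebra.
Proof. `‖e i j a‖ ≤ ‖a‖`: `star (e i j a) * e i j a = e j j (star a * a)` and `e j j` is a *-homomorphism, so contractive; so `e i j` is continuous and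
`e' i j f z = e i j (f z)` is well defined; `mul`, `mul0`, `star`, `inj` pointwise. `span`: for `x : C(Z, M)` write `x z = ∑ e i j (F z i j)`; the `F z i j` are continuous in `z`:
if `x - x' = ∑ e i j (g i j)` then `‖g i j‖ ≤ ‖x - x'‖`, because `e i i a * (x - x') * e j j b = e i j (a * g i j * b)`, and `‖e i j c‖ = ‖c‖` (`e j j` is an injective *-homomorphism,
isometric), so `‖a * g * b‖ ≤ ‖a‖ ‖x - x'‖ ‖b‖`; take `a = star g`, `b = star g * g`: `‖g‖^4 ≤ ‖g‖ ‖x - x'‖ ‖g‖^2`. -/
def S_MUC : Prop := ∀ (Z A M ι : Type) [TopologicalSpace Z] [CompactSpace Z]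
  [NonUnitalCStarAlgebra A] [NonUnitalCStarAlgebra M] [Fintype ι] (e : ι → ι → A →ₗ[ℂ] M),
  MUnits e → ∃ e' : ι → ι → C(Z, A) →ₗ[ℂ] C(Z, M), MUnits e' ∧ ∀ i j f z, e' i j f z = e i j (f z)

/-! ## The sphere -/

/-- CIR. The circle.
Proof. `q : C(Circle, A) → A`, `f ↦ f 1`, is surjective (constants). Its kernel (closed *-subalgebra) is isomorphic to `Sus A` (`TBase`) by `f ↦ (t ↦ f (exp (2 π i t)))`: injective because
`t ↦ Circle.exp (2 π t)` is onto; surjective: for `g ∈ Sus A` use `quo` (`Base.lean`) for `c t = Circle.exp (2 π t)`, `c t = c t'` implies `t = t'` or `{t, t'} = {0, 1}`.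
`T.Zero (Sus A)` by TSZ (`tsz2` in `ISO.lean` gives `F_i(Sus A) ≅ F_{i+1}(A)`), so `T.Zero` of the kernel (`bij_of_inv`), and `bij_of_ext` gives `F_i(A) ≅ F_i(C(Circle, A))`. -/
def S_CIR : Prop := ∀ (T : Theory) (A : Type) [NonUnitalCStarAlgebra A] [SeparableSpace A],
  T.Zero A → T.Zero C(Circle, A)

/-- SPH. The sphere (uses CIR).
Proof. `N = pol (0, 1)`, `S = pol (1, 1)` the poles. `q : C(Sphere2, A) → A × A`, `f ↦ (f N, f S)`, is surjective: `f (t, w) = ((1+t)/2) • a + ((1-t)/2) • b`. `T.Zero (A × A)`: extension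
`A → A × A → A` (`bij_of_ext`). The kernel `J` of `q` (closed *-subalgebra) is isomorphic to `Sus C(Circle, A)` by `f ↦ (t ↦ (z ↦ f (pol (t, z))))` (`pol` in `Base.lean`; use `ContinuousMap.curry`): injective because
`pol` is onto; onto: for `g` in `Sus C(Circle, A)` use `quo` for `pol` and `(t, z) ↦ g t z` (`ContinuousMap.uncurry` / continuity of evaluation): `pol (t, z) = pol (t', z')` implies `t = t'` (`cos` is injective on `[0, π]`)
and `z = z'` or `t ∈ {0, 1}` (`sin (π t) ≠ 0` for `0 < t < 1`), where `g t = 0`. `T.Zero C(Circle, A)` by CIR, `T.Zero (Sus ..)` by TSZ, so `T.Zero J`, and `bij_of_ext`. -/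
def S_SPH : Prop := ∀ (T : Theory) (A : Type) [NonUnitalCStarAlgebra A] [SeparableSpace A],
  T.Zero A → T.Zero C(Sphere2, A)

/-! ## Half of Bott periodicity: the Toeplitz extension -/

/-- KW. The algebra of compact operators over `W`.
Proof. Inductive limit of `Mt (Fin n) W` along the corners. E.g. apply `S_IL` (landed, `Helper34/CAR/Main.lean`: `t_IL`) to the unital algebras `Unitization ℂ (Mt (Fin (n+1)) W)` with the
injective unital maps `Unitization.starMap (pad n)`, `pad n a` = the matrix `a` with a row and a column of zeros added; get `L`, `ι n`. `u n = ι n ∘ inr : Mt (Fin (n+1)) W → L` is an injective *-homomorphism, the ranges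
increase; `K` = the closure of their union (closed *-subalgebra of `L`), `e i j w = u n (Mt.single i j w)` for any `n` with `i, j ≤ n` (e.g. `n = max i j`; independent of `n`). Separable: countable union of ranges of separable
spaces. (If `W` is trivial everything is `0`, no special treatment is necessary.) -/
def S_KW : Prop := ∀ (W : Type) [CStarAlgebra W] [SeparableSpace W],
  ∃ (K : Type) (_ : NonUnitalCStarAlgebra K) (e : ℕ → ℕ → W →ₗ[ℂ] K), SeparableSpace K ∧ IUnits e

/-- MUL. The multiplier algebra and strict limits.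
Proof. `M = 𝓜(ℂ, K)` (Mathlib, `Analysis/CStarAlgebra/Multiplier`: it is a `CStarAlgebra`), `k x = (L_x, R_x)` (`DoubleCentralizer.coeHom`). Injective: `x * star x = 0` implies `x = 0`. Ideal: `m * k x = k (m.fst x)`,
`k x * m = k (m.snd x)`. Essential: `m * k x = k (m.fst x) = 0` for all `x` gives `m.fst = 0`, so `m = 0` (`norm_fst`). Strict limits: `b n * x` converges to `l x`, `x * b n` to `r x` (`K` is complete); `l`, `r` are bounded
linear maps (pointwise limits, `‖l x‖ ≤ C ‖x‖`), and `r x * y = x * l y` (limit of `x * b n * y`), the condition for a double centralizer. -/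
def S_MUL : Prop := ∀ (K : Type) [NonUnitalCStarAlgebra K], ∃ (M : Type) (_ : CStarAlgebra M)
  (k : K →⋆ₙₐ[ℂ] M), Function.Injective k ∧
  (∀ (m : M) (x : K), m * k x ∈ Set.range k ∧ k x * m ∈ Set.range k) ∧
  (∀ m : M, (∀ x, m * k x = 0) → m = 0) ∧
  ∀ (b : ℕ → K) (C : ℝ), (∀ n, ‖b n‖ ≤ C) → (∀ x, CauchySeq fun n => b n * x) →
    (∀ x, CauchySeq fun n => x * b n) → ∃ m : M, ∀ x,
      Tendsto (fun n => k (b n * x)) atTop (𝓝 (m * k x)) ∧
      Tendsto (fun n => k (x * b n)) atTop (𝓝 (k x * m))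

/-- GEN. The isometry `v` and the diagonal copy `ρ` of `W` (uses MUL).
Proof. `b n = ∑_{i<n} e (i+1) i 1`, `d w n = ∑_{i<n} e i i w`. `‖d w n‖ ≤ ‖w‖` (for fixed `n`, `w ↦ d w n` is a *-homomorphism) and `star (b n) * b n = d 1 n`, so `‖b n‖ ≤ 1` (C*-identity, `‖d 1 n‖ ≤ ‖1‖ ≤ 1`). For `x = e i j w` the sequences
`b n * x`, `x * b n`, `d w' n * x`, `x * d w' n` are eventually constant: `e (i+1) j w`; `e i (j-1) w` (`0` if `j = 0`); `e i j (w' w)`; `e i j (w w')`. So they converge for `x` in the dense set and, being bounded, for all `x`. MUL gives `v` and `ρ w` in `M`: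
`v * k (e i j w) = k (e (i+1) j w)`, `k (e i j w) * v = k (e i (j-1) w)` or `0`, `ρ w' * k (e i j w) = k (e i j (w' w))`, `k (e i j w) * ρ w' = k (e i j (w w'))`. Taking stars: `star v * k (e i j w) = k (e (i-1) j w)` or `0`
if `i = 0`. An element `m` of `M` with `m * k (e i j w) = 0` for all `i, j, w` is `0` (density, continuity, essential). Hence `ρ` is linear, multiplicative, unital, `ρ (star w) = star (ρ w)`, `star v * v = 1`,
`v * star v = 1 - k (e 0 0 1)` (compare on `e i j w`), `v * ρ w = ρ w * v`, and `ρ w * k (e 0 0 1) = k (e 0 0 w)`. -/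
def S_GEN : Prop := ∀ (W K : Type) [CStarAlgebra W] [NonUnitalCStarAlgebra K]
  (e : ℕ → ℕ → W →ₗ[ℂ] K), IUnits e → ∃ (M : Type) (_ : CStarAlgebra M) (k : K →⋆ₙₐ[ℂ] M)
  (ρ : W →⋆ₐ[ℂ] M) (v : M), Function.Injective k ∧
  (∀ (m : M) (x : K), m * k x ∈ Set.range k ∧ k x * m ∈ Set.range k) ∧
  star v * v = 1 ∧ v * star v = 1 - k (e 0 0 1) ∧ (∀ w, v * ρ w = ρ w * v) ∧
  ∀ w, ρ w * k (e 0 0 1) = k (e 0 0 w)

/-- QTK. Quotients of unital C*-algebras by ideals are unital C*-algebras.
Proof. `range k` is closed (`S_RC`), a two-sided ideal, closed under `star`; `S_QT` (landed: `Pool.Agent.Helper42.Uct.stmtQT`) gives a `NonUnitalCStarAlgebra Q` and `π`. `π 1` is a unit of `Q` (`π` is onto). Make `Q` a `CStarAlgebra` with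
`1 = π 1` (algebra structure `algebraMap c = c • 1`; build the instance from the non-unital one so that all old operations stay the same), then `π` is a unital *-homomorphism. -/
def S_QTK : Prop := ∀ (K M : Type) [NonUnitalCStarAlgebra K] [CStarAlgebra M] (k : K →⋆ₙₐ[ℂ] M),
  (∀ (m : M) (x : K), m * k x ∈ Set.range k ∧ k x * m ∈ Set.range k) →
  ∃ (Q : Type) (_ : CStarAlgebra Q) (π : M →⋆ₐ[ℂ] Q), Function.Surjective π ∧
    ∀ m, π m = 0 ↔ m ∈ Set.range k

/-- POU. Partitions of unity with small supports.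
Proof. Cover `Z` by finitely many balls `ball (z k) δ`; `h k x = max 0 (δ - dist x (z k))`, `H = ∑ h k > 0`, `l k = √(h k / H)`. -/
def S_POU : Prop := ∀ (Z : Type) [MetricSpace Z] [CompactSpace Z] (δ : ℝ), 0 < δ →
  ∃ (n : ℕ) (z : Fin n → Z) (l : Fin n → C(Z, ℝ)), (∀ x, ∑ k, l k x ^ 2 = 1) ∧
    ∀ k x, l k x ≠ 0 → dist x (z k) < δ

/-- UNV. The universal property of `C(Circle, W)` (uses POU).
Proof. Functional calculus: `ν : C(Circle, ℂ) →⋆ₐ Q` with `ν (z ↦ z) = u`: the spectrum of `u` is in the circle (`u` is normal), `ν g = cfcHom (restriction of g to the spectrum)`; `ν g` commutes with all `σ w`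
(`u` and `star u` do; `Commute.cfcHom`-type lemma, or: the `g` such that `ν g` commutes with `σ w` form a closed *-subalgebra (for all `w` at once) that contains `z ↦ z`, Stone-Weierstrass).
For a partition of unity `(z k, l k)` (POU) put `τ₀ f = ∑ k, ν (l k) * σ (f (z k)) * ν (l k)`. It is linear and `‖τ₀ f‖ ≤ ‖f‖`: in `Mt (Fin n) Q` let `R = ∑ single 0' k (ν (l k))`, `D = ∑ single k k (σ (f (z k)))` (`0' : Fin n`; `n ≥ 1` because `∑ = 1`; empty sums are impossible, or use `Option (Fin n)`);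
`R * star R = single 0' 0' 1`, `‖D‖ ≤ max ‖f (z k)‖` (`S_ORTH`, landed: `Pool.Agent.Helper61.CAR.orth`), `R * D * star R = single 0' 0' (τ₀ f)`. For POU with `δ = 1/(m+1)` call it `τ₀ m`. For `f = g • w` (`g : C(Circle, ℂ)`, `w : W`, `f z = g z • w`):
`τ₀ m f = ν (∑ g (z k) l k²) σ w → ν g * σ w`, as `‖∑ g (z k) l k² - g‖ ≤ sup {|g x - g x'| : dist < 1/(m+1)} → 0` (uniform continuity). The span of the `g • w` is dense in `C(Circle, W)`: `f` is close to `∑ (l k)² • f (z k)`. So `τ₀ m f` converges for all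
`f` (equicontinuity); the limit `τ` is linear, contractive, `τ (g • w) = ν g * σ w`; it is multiplicative and *-preserving on the `g • w`, hence on their span and on the closure. `τ (const w) = σ w`, `τ (z ↦ z • 1) = u`. -/
def S_UNV : Prop := ∀ (W Q : Type) [CStarAlgebra W] [CStarAlgebra Q] (σ : W →⋆ₐ[ℂ] Q) (u : Q),
  star u * u = 1 → u * star u = 1 → (∀ w, u * σ w = σ w * u) →
  ∃ τ : C(Circle, W) →⋆ₐ[ℂ] Q, (∀ w, τ (ContinuousMap.const _ w) = σ w) ∧
    ∀ f : C(Circle, W), (∀ z : Circle, f z = (z : ℂ) • (1 : W)) → τ f = u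

/-- GEX. The mapping cone algebra `G = {(m, f) : π m = τ (f 1), f 0 ∈ c W}`.
Proof. It is a *-subalgebra (unital) of the C*-algebra `M × C([0,1], V)`, closed because `{f : f 0 ∈ range c}` is closed (`S_RC`). Separable: the map `q : G → C([0,1], V)`, `(m, f) ↦ f` has kernel `{(k x, 0)}`, separable, and range in a separable
metric space. General lemma: if `q : G → R` is a *-homomorphism of C*-algebras with `R` separable and the kernel `J` separable then `G` is separable: `range q` is closed (`S_RC`) and separable, choose `g n ∈ G` with `q (g n)` dense in `range q`; by the open mapping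
theorem (`ContinuousLinearMap.exists_preimage_norm_le` for `G → range q`) for `x ∈ G` and `ε` there are `n` and `y` with `q y = q (x - g n)`, `‖y‖ ≤ C ε`, so `x = g n + y + (x - g n - y)` with the last term in `J`; so the sums `g n + j m`, `j m` dense in `J`, are dense. -/
def S_GEX : Prop := ∀ (K M Q V W : Type) [NonUnitalCStarAlgebra K] [CStarAlgebra M]
  [CStarAlgebra Q] [CStarAlgebra V] [CStarAlgebra W] [SeparableSpace K] [SeparableSpace V]
  (k : K →⋆ₙₐ[ℂ] M) (π : M →⋆ₐ[ℂ] Q) (τ : V →⋆ₐ[ℂ] Q) (c : W →⋆ₐ[ℂ] V),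
  (∀ m, π m = 0 ↔ m ∈ Set.range k) →
  ∃ (G : Type) (_ : CStarAlgebra G) (g : G →⋆ₐ[ℂ] M × C(unitInterval, V)), SeparableSpace G ∧
    Function.Injective g ∧ ∀ x : M × C(unitInterval, V),
      x ∈ Set.range g ↔ π x.1 = τ (x.2 1) ∧ ∃ w, x.2 0 = c w

/-- CONE. The ideal `K` of the mapping cone algebra.
Proof. `q : G → W`, `q x` = the unique `w` with `(g x).2 0 = c w`, is a *-homomorphism (`c` is injective), onto, with the splitting `r w = g⁻¹ (ρ w, const (c w))`. Let `G'` be the kernel of `q` (closed *-subalgebra). (a) `F_i(G) → F_i(G')` is onto: in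
`exact` for `G' → G → W` the map `d : F_i(G') → F_{i+1}(W)` is `0`, because `map q (d x) = 0` (third clause of `exact`) and `map q` is injective (`q ∘ r = id`). (b) `K → G' → Cone`, `Cone = {f ∈ C([0,1], V) : f 0 = 0}`, `x ↦ f` is an extension: `K → G'` is `x ↦ κ x` (injective), `G' → Cone` is
onto (given `f` choose `m` with `π m = τ (f 1)`), its kernel is the range of `κ`. `T.Zero Cone`: contractible by `H s f = (t ↦ f (s t))` (compare `cone_zero` in `Helper60/CR/TSZ.lean`, there `f 1 = 0`). So `F_i(G') → F_i(K)` is onto (`d : F_i(K) → F_{i+1}(Cone) = 0`). Compose. -/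
def S_CONE : Prop := ∀ (K M Q V W G : Type) [NonUnitalCStarAlgebra K] [CStarAlgebra M]
  [CStarAlgebra Q] [CStarAlgebra V] [CStarAlgebra W] [CStarAlgebra G] [SeparableSpace K]
  [SeparableSpace V] [SeparableSpace W] [SeparableSpace G]
  (k : K →⋆ₙₐ[ℂ] M) (π : M →⋆ₐ[ℂ] Q) (τ : V →⋆ₐ[ℂ] Q) (c : W →⋆ₐ[ℂ] V) (ρ : W →⋆ₐ[ℂ] M)
  (g : G →⋆ₐ[ℂ] M × C(unitInterval, V)), Function.Injective k → Function.Surjective π →
  (∀ m, π m = 0 ↔ m ∈ Set.range k) → Function.Injective c → (∀ w, π (ρ w) = τ (c w)) →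
  Function.Injective g →
  (∀ x : M × C(unitInterval, V), x ∈ Set.range g ↔ π x.1 = τ (x.2 1) ∧ ∃ w, x.2 0 = c w) →
  ∀ κ : K →⋆ₙₐ[ℂ] G, (∀ x, g (κ x) = (k x, 0)) →
  ∀ (T : Theory) (i : ZMod 2), Function.Surjective (T.map i κ)

/-- STAB. Stability for the compact operators.
Proof. `B n = Mt (Fin (n+1)) W`, `u n a = ∑_{i,j} e i j (a i j)` (an injective *-homomorphism `B n → K`: `e i i 1 * u n a * e j j 1 = e i j (a i j)`), `j n` = padding by zeros, `u (n+1) ∘ j n = u n`; the union of the ranges is dense. Corner `c n w = Mt.single 0 0 w`; `map (c n)` is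
bijective (`stable`; the `Mt.single i j` are `MUnits`). Given `x ∈ F_i(W)` let `x n ∈ F_i(B n)` with `map (c n) (x n) = x`; `map (j n) (x (n+1)) = x n` because `j n ∘ c n = c (n+1)`. `milnor` (first part) gives `y ∈ F_i(K)` with
`map (u n) y = x n`; `h = u 0 ∘ c 0`, so `map h y = x`. -/
def S_STAB : Prop := ∀ (T : Theory) (i : ZMod 2) (W K : Type) [CStarAlgebra W]
  [NonUnitalCStarAlgebra K] [SeparableSpace W] [SeparableSpace K] (e : ℕ → ℕ → W →ₗ[ℂ] K),
  IUnits e → ∀ h : W →⋆ₙₐ[ℂ] K, (∀ w, h w = e 0 0 w) → Function.Surjective (T.map i h)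

/-- TOE. The Toeplitz data (uses KW, GEN, QTK, UNV, GEX, CONE, STAB).
Proof. KW: `K, e`; GEN: `M, k, ρ, v`; QTK: `Q, π`; `σ = π ∘ ρ`, `u = π v` is a unitary (`1 - v star v ∈ range k`) that commutes with `σ w`; UNV: `τ : C(Circle, W) → Q`. `V = C(Circle, W)`, `c w = const w`. GEX: `G, g`. Define by `g`: `r w = (ρ w, const const w)`;
`Φ f = (ρ (f S), (t ↦ (z ↦ f (pol (t, z)))))`, `S = (-1, 0)` the south pole `pol (1, z)`, `pol (0, z) = (1, 0)`; `ξ 0 = (0, (t, z) ↦ cos (π t/2) • 1)`, `ξ 1 = (v, (t, z) ↦ sin (π t/2) • z • 1)`; `ε w = (k (e 0 0 w), 0)`. They are in the range of `g`: for `Φ f`: `π (ρ (f S)) = σ (f S) = τ (const (f S))`;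
`ξ 0`: `cos (π/2) = 0`, at `t = 0` it is `const 1`; `ξ 1`: `π v = u = τ (z ↦ z • 1)`, at `t = 0` it is `0`. `Toe`: `const`, `comm` clear; `iso`: `star v * v = 1`, `cos² + sin² = 1`; `bott`: second components: `bp (pol (t, z)) i j = ξ_i conj ξ_j` with `ξ_0 = cos (π t/2)`, `ξ_1 = sin (π t/2) z`
(`(1 + cos π t)/2 = cos²`, `sin (π t)/2 = sin cos`, half angle formulas); first components: `bp S i j = 1` for `i = j = 1` and `0` otherwise, `v ρ(w) star v = ρ(w) (1 - k (e 0 0 1)) = ρ w - k (e 0 0 w)`. `orth`: `star v * k (e 0 0 w) = star v * ρ w * (1 - v * star v) = ρ w * star v * (1 - v star v) = 0`.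
Surjectivity: `ε = κ ∘ h` with `h w = e 0 0 w`, `κ x = g⁻¹ (k x, 0)`; STAB and CONE. -/
def S_TOE : Prop := ∀ (W : Type) [CStarAlgebra W] [SeparableSpace W],
  ∃ (G : Type) (_ : CStarAlgebra G) (r : W →⋆ₐ[ℂ] G) (Φ : C(Sphere2, W) →⋆ₐ[ℂ] G)
    (ε : W →⋆ₙₐ[ℂ] G) (ξ : Fin 2 → G), SeparableSpace G ∧ Toe r Φ ε ξ ∧
    ∀ (T : Theory) (i : ZMod 2), Function.Surjective (T.map i ε)

/-- BOTT. Half of Bott periodicity (uses TOE).
Proof. `M2 = Mt (Fin 2) G`, `M3 = Mt (Fin 3) G`, matrix units `Mt.single i j` (`MUnits`), corners `γ i g = single i i g`. `j : M2 → M3` padding (indices 0, 1). `Φ₂ : C(Sphere2, Mt (Fin 2) W) → M2`, `Φ₂ f i j = Φ (y ↦ f y i j)`. Given `x`, let `y₁ ∈ F_i(G)` with `map ε y₁ = x` (TOE), `y₃ ∈ F_i(M3)` with `map (γ 2) y₃ = y₁`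
(`stable`), then `map (γ i) y₃ = y₁` for all `i` (`p_TCOR`), `y₂ = map j y₃ ∈ F_i(M2)`, and `y = map Φ₂ y₂`. (1) `Φ₂ (P w) = A w + E₁ w`, `A w i j = ξ i * r w * star (ξ j)`, `E₁ w = single 1 1 (ε w)` (`Toe.bott`), *-homomorphisms `W → M2` (`comm`, `iso`) with `A w * E₁ w' = 0 = E₁ w * A w'` (`orth`, and its star), so
(`p_TADD`) `map P y = map A y₂ + map E₁ y₂`; `map E₁ y₂ = map (j ∘ E₁) y₃ = map ε (map (γ 1) y₃) = x`. (2) `j ∘ A` and `w ↦ single 2 2 (r w)` are homotopic: `H t w i j = Ξ i * r w * star (Ξ j)` with the column `Ξ = (s ξ 0, s ξ 1, c 1)`, `s = sin (π t/2)`, `c = cos (π t/2)`, `∑ star (Ξ i) * Ξ i = s² + c² = 1`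
(pointwise a *-homomorphism, continuous in `t`: a finite sum of scalar functions times fixed elements). So `map A y₂ = map (j ∘ A) y₃ = map r (map (γ 2) y₃) = map r y₁`. (3) `Φ₂ (E w) = single 0 0 (r w)` (`Toe.const`), so `map E y = map r (map (γ 0 in M2) y₂) = map r (map (γ 0) y₃) = map r y₁`. -/
def S_BOTT : Prop := ∀ (T : Theory) (i : ZMod 2) (W : Type) [CStarAlgebra W] [SeparableSpace W]
  (P E : W →⋆ₙₐ[ℂ] C(Sphere2, Mt (Fin 2) W)), (∀ w y i j, P w y i j = bp y i j • w) →
  (∀ w y, E w y = Mt.single 0 0 w) →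
  ∀ x : T.F i W, ∃ y : T.F i C(Sphere2, Mt (Fin 2) W), T.map i P y = T.map i E y + x

end

end Pool.Agent.Helper45.CF
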