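import Pool.Agent.Helper45.CF.GoalsA

/-!
# Project CF (MP_d97caa_an): goals, second part

Systems with an extra character and rotated steps (`S_PADO .. S_KAP`), the effect on theories
(`S_JSU`, `S_DEC`, `S_SRJ`), continuous fields from rotated systems (`S_FIN`, `S_FB`, `S_FC`), nuclearity
(`S_NSUP`, `S_NUA`, `S_NUB`), products of spheres (`S_CUR`).
-/

open scoped ComplexOrder ZeroAtInfty Topology ComplexConjugate
open TopologicalSpace Filter

namespace Pool.Agent.Helper45.CF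

open Pool.Agent.Helper34.CAR Pool.Agent.Helper39.CR Pool.Agent.Helper39.Uct
  Pool.Agent.Helper39.CarDefs

noncomputable section

/-! ## Systems with an extra character -/

/-- PADO. Doubling a step by copies of the character (compare the proof of `S_PAD`, landed).
Proof. `K' b = K b ⊕ ω(b) 1` on `C ⊕ C`, i.e. `K' b (inl x) (inl y) = K b x y`, `K' b (inr x) (inr y) = if x = y then algebraMap ℂ B (ω b) else 0`, mixed entries `0`; `w' = w ⊕ 1`. `K'` is a unital *-homomorphism. `StepAt`: the new entries are scalars; for `b ∈ F`: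
`K' b - star w' * scal (x ⊕ ω(b) 1) * w' = (K b - star w * scal x * w) ⊕ 0`, and `a ↦ a ⊕ 0` is a *-homomorphism, so contractive. `HasOm` with `c2 = inr c0`. -/
def S_PADO : Prop := ∀ (B : Type) [CStarAlgebra B] (θ : B →⋆ₐ[ℂ] B) (ω : B →⋆ₐ[ℂ] ℂ)
  (F : Finset B) (ε : ℝ) (C : Type) [Fintype C] [DecidableEq C]
  (c0 c1 : C) (K : B →⋆ₐ[ℂ] Mt C B) (w : Mt C B), 0 < ε →
  StepAt θ F ε C c0 c1 K w → ∃ (K' : B →⋆ₐ[ℂ] Mt (C ⊕ C) B) (w' : Mt (C ⊕ C) B),
    StepAt θ F ε (C ⊕ C) (.inl c0) (.inl c1) K' w' ∧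
      HasOm ω (Sum.inl c0 : C ⊕ C) (.inl c1) (.inr c0) K'

/-- SYSO. The recursion with steps that have the extra character (uses PADO).
Proof. Copy `Helper39/CR/SYS2.lean` (or `Helper32/CAR/SYS.lean`) and the proof of `S_SYS1` (`Helper19/CAR/SYS1.lean`): in SYS1 the step obtained from `StepProp B θ` for the finite set of entries and `ε'` is replaced by its doubling (PADO), of size `2 ^ (a + 1)`; everything
else is unchanged (`S_SYS1` uses only `StepAt θ F ε' ..` of the step and its size); the structure `StepD` gets the fields `c2 : C` and `om : HasOm ω c0 c1 c2 K` (all steps are of this kind, there are no trivial steps). -/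
def S_SYSO : Prop := ∀ (B : Type) [CStarAlgebra B] [SeparableSpace B] (θ : B →⋆ₐ[ℂ] B)
  (ω : B →⋆ₐ[ℂ] ℂ), StepProp B θ → ∃ (s : Sys B θ) (c2 : ∀ i, s.C i), s.Matricial ∧
    ∀ i, HasOm ω (s.c0 i) (s.c1 i) (c2 i) (s.K i)

/-- ROT. The rotated step is unitarily equivalent to the step, pointwise.
Proof. For `y = (t, w)` there is a unit vector `(a₀, a₁)` in `ℂ²` with `a_i conj a_j = bp y i j` (if `t ≠ -1`: `a₀ = √((1+t)/2)`, `a₁ = w / (2 a₀)`; if `t = -1`, then `w = 0`, `a = (0, 1)`). Let `U` be the matrix over `B` with the scalar block `[[a₀, - conj a₁], [a₁, conj a₀]]` at the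
indices `c1, c2` and the identity matrix elsewhere; it is unitary. `U * K b * star U` has the block `u diag(b, ω b) star u = (a_i conj a_j) b + (δ_ij - a_i conj a_j) ω b` at `c1, c2` (the rows and columns of `K b` at `c1` and `c2` are `0` off the diagonal) and is `K b` elsewhere. -/
def S_ROT : Prop := ∀ (B : Type) [CStarAlgebra B] (ω : B →⋆ₐ[ℂ] ℂ) (C : Type) [Fintype C]
  [DecidableEq C] (c0 c1 c2 : C) (K : B →⋆ₐ[ℂ] Mt C B), (∀ b, K b c1 c1 = b) →
  (∀ b x, x ≠ c1 → K b c1 x = 0 ∧ K b x c1 = 0) → HasOm ω c0 c1 c2 K →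
  ∀ y, ∃ U : Mt C B, star U * U = 1 ∧ U * star U = 1 ∧
    ∀ b x x', rotE ω c1 c2 K y b x x' = (U * K b * star U) x x'

/-- KAP. The rotated connecting maps (uses ROT).
Proof. Fix `y`. By ROT (the hypotheses on `K` are clauses of `s.step k`) `b ↦ Mt.of (rotE .. y b) = U * K b * star U` is a unital *-homomorphism `B → Mt (s.C k) B`. Apply it entrywise: `κ_y a = Mt.of fun p q => rotE .. y (a (e p).1 (e q).1) (e p).2 (e q).2`; with the unitary `U' = 1 ⊗ U`,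
`U' p q = if (e p).1 = (e q).1 then U (e p).2 (e q).2 else 0`, `κ_y a = U' * s.κ k a * star U'`, so `κ_y` is a unital *-homomorphism. `y ↦ κ_y a` is continuous: the entries are (`continuous_bp`), and `Mt.norm_le_sum`. Put `κh a = ⟨fun y => κ_y a, _⟩`; it is a *-homomorphism pointwise. -/
def S_KAP : Prop := ∀ (B : Type) [CStarAlgebra B] (θ : B →⋆ₐ[ℂ] B) (ω : B →⋆ₐ[ℂ] ℂ)
  (s : Sys B θ) (c2 : ∀ i, s.C i), (∀ i, HasOm ω (s.c0 i) (s.c1 i) (c2 i) (s.K i)) →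
  ∀ k, ∃ κh : s.A k →⋆ₐ[ℂ] C(Sphere2, s.A (k + 1)), IsKap s ω c2 k κh ∧
    ∀ y, ∃ U : s.A (k + 1), star U * U = 1 ∧ U * star U = 1 ∧ ∀ a, κh a y = U * s.κ k a * star U

/-! ## The effect of the rotated connecting maps on theories -/

/-- JSU. Block embeddings.
Proof. `C(Sphere2, B) → C(Sphere2, Mt (Fin 2) B) → C(Sphere2, Mt S B)`, the corner at `0` (`f ↦ single 0 0 ∘ f`) followed by `J`, is the corner at `p0`. Both corners induce bijections by `stable`: `C(Sphere2, Mt I B)` has matrix units over `C(Sphere2, B)`, `e i j f = (y ↦ Mt.single i j (f y))`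
(`MUnits` directly: entries of a continuous matrix function are continuous, `continuous_entry` in `TBase`, `Mt.eq_sum_single`). So `map J` is bijective. -/
def S_JSU : Prop := ∀ (T : Theory) (i : ZMod 2) (B S : Type) [CStarAlgebra B] [SeparableSpace B]
  [Fintype S] [DecidableEq S] (p0 p1 : S), p0 ≠ p1 →
  ∀ J : C(Sphere2, Mt (Fin 2) B) →⋆ₙₐ[ℂ] C(Sphere2, Mt S B),
  (∀ f y, J f y = Mt.single p0 p0 (f y 0 0) + Mt.single p0 p1 (f y 0 1) +
    Mt.single p1 p0 (f y 1 0) + Mt.single p1 p1 (f y 1 1)) →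
  Function.Surjective (T.map i J)

/-- CCO. Constant corners.
Proof. `C(Sphere2, Mt S B)` has matrix units over `C(Sphere2, B)` (see JSU), so the two corner homomorphisms `C_p f = (y ↦ single p p (f y))`, `C_q` induce the same map (`p_TCOR`); `h = C_p ∘ const`, `h' = C_q ∘ const`. -/
def S_CCO : Prop := ∀ (T : Theory) (i : ZMod 2) (B S : Type) [CStarAlgebra B] [SeparableSpace B]
  [Fintype S] [DecidableEq S] (p q : S) (h h' : B →⋆ₙₐ[ℂ] C(Sphere2, Mt S B)),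
  (∀ b y, h b y = Mt.single p p b) → (∀ b y, h' b y = Mt.single q q b) → T.map i h = T.map i h'

/-- SCA. Homomorphisms with scalar values induce `0`.
Proof. `χ : C(Sphere2, Mt S B) → C(Sphere2, Mt S ℂ)`, `ω` applied to all entries at all points, and `κ : C(Sphere2, Mt S ℂ) → C(Sphere2, Mt S B)`, the inclusion of scalar matrices (`algebraMap`), are *-homomorphisms, and `h = κ ∘ χ ∘ h` because the entries of `h b y` are scalars and
`ω (algebraMap c) = c`. So `map h x = map (χ ∘ h) (map κ x)` and `map κ x ∈ F_i(C(Sphere2, Mt S ℂ)) = 0`: `C(Sphere2, Mt S ℂ)` has matrix units over `C(Sphere2, ℂ)` (see JSU), `stable` and the hypothesis `T.Zero C(Sphere2, ℂ)`. (If `S` is empty the algebra is `0`; `p_TZ`.) -/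
def S_SCA : Prop := ∀ (T : Theory) (i : ZMod 2) (B S : Type) [CStarAlgebra B] [SeparableSpace B]
  [Fintype S] [DecidableEq S] (ω : B →⋆ₐ[ℂ] ℂ), T.Zero C(Sphere2, ℂ) →
  ∀ h : B →⋆ₙₐ[ℂ] C(Sphere2, Mt S B), (∀ b y p q, ∃ c : ℂ, h b y p q = algebraMap ℂ B c) →
  ∀ x, T.map i h x = 0

/-- DEC. The decomposition of a rotated connecting map at a corner.
Proof. `idx c = (s.e k).symm (s0, c)`, `p0 = idx c0`, `p1 = idx c1`, `p2 = idx c2`. `h0 b = (y ↦ single p0 p0 (θ b))`. `h1 b y = ∑_{i,j} single p_{1+i} p_{1+j} (bp y i j • b)`. `h2 b = κh (single s0 s0 b) - h0 b - h1 b`. By the definition of `rotE` and the clauses of `s.step k` and `HasOm`: `κh (single s0 s0 b) y` vanishes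
outside `(idx c, idx c')` (`K 0 = 0`, `rotE .. 0 = 0`), its entries there are `θ b` at `(c0, c0)`; `0` at `(c0, x)`, `(x, c0)`, `x ≠ c0`; `bp y i j • b + (δ_ij - bp y i j) • ω b` at `(c_{1+i}, c_{1+j})`; `0` at `(x, c1)`, `(x, c2)` and their transposes for `x ∉ {c1, c2}`; the scalar `K b x x'` for `x, x' ∉ {c0, c1, c2}`.
So `h2 b y` has the scalar entries `(δ_ij - bp y i j) • ω b` at `(c_{1+i}, c_{1+j})` and `K b x x'` for `x, x' ∉ {c0, c1, c2}`. `h0`, `h1` are *-homomorphisms (`bp y` is a projection: `∑_l bp y i l * bp y l j = bp y i j`, `conj (bp y i j) = bp y j i`, from `t² + |w|² = 1`); `h0 a * κh .. = h0 a * h0 b`, `h1 a * κh (single s0 s0 b) = h1 (a b)` (because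
`bp (1 - bp) = 0`), and the same on the other side; so `h2` is a *-homomorphism and the three are pairwise orthogonal (compute: `h2 a * h2 b = (κ - h0 - h1)(a) (κ - h0 - h1)(b) = κ(ab) - h0(ab) - h1(ab)`). -/
def S_DEC : Prop := ∀ (B : Type) [CStarAlgebra B] (θ : B →⋆ₐ[ℂ] B) (ω : B →⋆ₐ[ℂ] ℂ)
  (s : Sys B θ) (c2 : ∀ i, s.C i), (∀ i, HasOm ω (s.c0 i) (s.c1 i) (c2 i) (s.K i)) →
  ∀ (k : ℕ) (κh : s.A k →⋆ₐ[ℂ] C(Sphere2, s.A (k + 1))), IsKap s ω c2 k κh → ∀ s0 : s.S k,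
  ∃ (p0 p1 p2 : s.S (k + 1)) (h : Fin 3 → (B →⋆ₙₐ[ℂ] C(Sphere2, s.A (k + 1)))), p1 ≠ p2 ∧
    (∀ b, κh (Mt.single s0 s0 b) = ∑ l, h l b) ∧ (∀ l m, l ≠ m → ∀ a b, h l a * h m b = 0) ∧
    (∀ b y, h 0 b y = Mt.single p0 p0 (θ b)) ∧
    (∀ b y, h 1 b y = Mt.single p1 p1 (bp y 0 0 • b) + Mt.single p1 p2 (bp y 0 1 • b) +
      Mt.single p2 p1 (bp y 1 0 • b) + Mt.single p2 p2 (bp y 1 1 • b)) ∧
    ∀ b y p q, ∃ c : ℂ, h 2 b y p q = algebraMap ℂ B c

/-- SRJ. The rotated connecting maps induce surjections (uses JSU, CCO, SCA, DEC, BOTT).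
Proof. `s0 : s.S k` any index (`s.top k`), `c : B → s.A k`, `c b = single s0 s0 b`; `map c` is bijective (`stable`), so it is enough that `map (κh ∘ c) : F_i(C(Sphere2, s.A (k+1))) → F_i(B)` is onto. DEC and `p_TADD`: `map (κh ∘ c) y = map (h 0) y + map (h 1) y + map (h 2) y`. `map (h 2) = 0` (SCA).
`h 0 = d_{p0} ∘ θ` with `d_p b = (y ↦ single p p b)`, so `map (h 0) y = - map d_{p0} y = - map d_{p1} y` (hypothesis on `θ`, CCO). Let `P`, `E` be the homomorphisms of `S_BOTT` for `W = B` (`P b y i j = bp y i j • b` is a *-homomorphism because `bp y` is a projection, `E b y = single 0 0 b`) and `J` the block embedding of JSU for `p1, p2`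
(a *-homomorphism). `h 1 = J ∘ P`, `d_{p1} = J ∘ E`. So `map (κh ∘ c) y = map P (map J y) - map E (map J y)`. Given `x ∈ F_i(B)` choose `y₂` by BOTT with `map P y₂ = map E y₂ + x` and `y` with `map J y = y₂` (JSU). -/
def S_SRJ : Prop := ∀ (T : Theory) (i : ZMod 2) (B : Type) [CStarAlgebra B] [SeparableSpace B]
  (θ : B →⋆ₐ[ℂ] B) (ω : B →⋆ₐ[ℂ] ℂ) (s : Sys B θ) (c2 : ∀ i, s.C i),
  (∀ i, HasOm ω (s.c0 i) (s.c1 i) (c2 i) (s.K i)) → T.Zero C(Sphere2, ℂ) →
  (∀ g : B →⋆ₙₐ[ℂ] B, (∀ b, g b = θ b) → ∀ x : T.F i B, T.map i g x = -x) →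
  ∀ (k : ℕ) (κh : s.A k →⋆ₐ[ℂ] C(Sphere2, s.A (k + 1))), IsKap s ω c2 k κh →
  ∀ κn : s.A k →⋆ₙₐ[ℂ] C(Sphere2, s.A (k + 1)), (∀ a, κn a = κh a) →
  Function.Surjective (T.map i κn)

/-! ## Continuous fields from rotated systems -/

/-- FIN. Continuous functions on an infinite product depend almost on finitely many coordinates only.
Proof. Fix `y₀ : Y`; for `z : Fin n → Y` let `ext z i = z i` for `i < n`, `y₀` otherwise (continuous). For every `x` there are `n x` and an open neighbourhood `U x` of `x`, depending only on the coordinates `< n x`, with `‖g x' - g x‖ < ε/2` for `x' ∈ U x` (basis of the product topology). Finitely many `U x` cover the compact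
space; `n` = the maximum of their `n x`; `f z = g (ext z)`. For `x' ∈ U x` the point `ext (x' restricted to Fin n)` has the same coordinates `< n`, so it is in `U x`, and `‖g x' - f (..)‖ < ε`. -/
def S_FIN : Prop := ∀ (Y A : Type) [TopologicalSpace Y] [CompactSpace Y] [Nonempty Y]
  [NonUnitalCStarAlgebra A] (g : C(ℕ → Y, A)) (ε : ℝ), 0 < ε →
  ∃ (n : ℕ) (f : C(Fin n → Y, A)), ∀ x : ℕ → Y, ‖g x - f (fun i => x i)‖ < ε

/-- FB. The algebra of the field and the evaluations.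
Proof. `X = ℕ → Y`. `κX i : C(X, A i) →⋆ₐ C(X, A (i+1))`, `κX i a x = κh i (a x) (x i)`: continuous because `x ↦ κh i (a x) ∈ C(Y, A (i+1))` is continuous and evaluation is jointly continuous (`Y` compact; `ContinuousEval`), pointwise a unital *-homomorphism; injective: `κh i b y = U * κ i b * star U = 0` implies `κ i b = 0`, `ι i b = ι (i+1) (κ i b) = 0`,
`b = 0`. `S_IL` (landed: `t_IL` in `Helper34/CAR/Parts.lean`/`Main.lean`) gives `𝒜`, `ιX`. Unitaries: `V 0 = 1`, `V (i+1) = U_{i, x i} * κ i (V i)` for the chosen `U_{i,y}`, (recursion on `i`, `x` fixed). `f i a = ι i (star (V i) * a x * V i)` is a unital *-homomorphism `C(X, A i) → L`, and `f (i+1) (κX i a) = ι (i+1) (star (V (i+1)) * U * κ i (a x) * star U * V (i+1))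
= ι (i+1) (κ i (star (V i) * a x * V i)) = f i a`. `S_EXT` (landed: `t_EXT`) gives `F : 𝒜 →⋆ₙₐ L` with `F (ιX i a) = f i a`; `F 1 = 1`, so it is a unital homomorphism `π x` (choice for every `x`). -/
def S_FB : Prop := ∀ (Y : Type) [TopologicalSpace Y] [CompactSpace Y] (A : ℕ → Type)
  [∀ i, CStarAlgebra (A i)] (κ : ∀ i, A i →⋆ₐ[ℂ] A (i + 1)) (κh : ∀ i, A i →⋆ₐ[ℂ] C(Y, A (i + 1))),
  (∀ i y, ∃ U : A (i + 1), star U * U = 1 ∧ U * star U = 1 ∧
    ∀ a, κh i a y = U * κ i a * star U) →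
  ∀ (L : Type) [CStarAlgebra L] (ι : ∀ i, A i →⋆ₐ[ℂ] L),
  (∀ i a, ι (i + 1) (κ i a) = ι i a) → (∀ i, Function.Injective (ι i)) →
  ∃ (𝒜 : Type) (_ : CStarAlgebra 𝒜) (ιX : ∀ i, C(ℕ → Y, A i) →⋆ₐ[ℂ] 𝒜)
    (π : (ℕ → Y) → 𝒜 →⋆ₐ[ℂ] L),
    (∀ i (a : C(ℕ → Y, A i)) (a' : C(ℕ → Y, A (i + 1))), (∀ x, a' x = κh i (a x) (x i)) →
      ιX (i + 1) a' = ιX i a) ∧
    (∀ i, Function.Injective (ιX i)) ∧ Dense (⋃ i, Set.range (ιX i)) ∧
    ∀ x i, ∃ V : A i, star V * V = 1 ∧ V * star V = 1 ∧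
      ∀ a, π x (ιX i a) = ι i (star V * a x * V)

/-- FC. The continuous field (uses FB, FIN).
Proof. `𝒜`, `ιX`, `π` by FB. `‖π x (ιX i a)‖ = ‖a x‖` (`ι i` is isometric, `V` unitary). `ζ f = ιX 0 (x ↦ algebraMap (f x))`: `scalar`. `cont`: for `a = ιX i b` clear; in general `|‖π x a‖ - ‖π x a'‖| ≤ ‖a - a'‖`, uniform limits of continuous functions are continuous. `surj`: the range of `π x` is closed (`S_RC`, landed) and contains `ι i (star V * b * V)`
for all `b : A i` (constant functions), i.e. all of `range (ι i)` (`V` unitary), so it is dense. `faithful`: if all `π x a = 0` and `‖a - ιX i b‖ < ε` then `‖b x‖ ≤ ε` for all `x`, `‖ιX i b‖ = ‖b‖ ≤ ε`, `‖a‖ ≤ 2 ε`. `u i f = ιX i (f ∘ restriction to Fin i)`, injective because the restriction `X → (Fin i → Y)` is onto (`Y` nonempty). Compatible: first clause of FB.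
Dense: let `a ≈ ιX i b`, `b ≈ g ∘ restriction to Fin n` (FIN), where we may enlarge `n` so that `n ≥ i`. By induction on `m` with `i + m = n`: for `g : C(Fin n → Y, A i)`, `ιX i (g ∘ res) ∈ range (u n)`: for `m = 0` clear; otherwise `ιX i (g ∘ res) = ιX (i+1) (g' ∘ res)` with `g' z = κh i (g z) (z i)`, `i < n`. -/
def S_FC : Prop := ∀ (Y : Type) [TopologicalSpace Y] [CompactSpace Y] [Nonempty Y] (A : ℕ → Type)
  [∀ i, CStarAlgebra (A i)] (κ : ∀ i, A i →⋆ₐ[ℂ] A (i + 1)) (κh : ∀ i, A i →⋆ₐ[ℂ] C(Y, A (i + 1))),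
  (∀ i y, ∃ U : A (i + 1), star U * U = 1 ∧ U * star U = 1 ∧
    ∀ a, κh i a y = U * κ i a * star U) →
  ∀ (L : Type) [CStarAlgebra L] (ι : ∀ i, A i →⋆ₐ[ℂ] L),
  (∀ i a, ι (i + 1) (κ i a) = ι i a) → (∀ i, Function.Injective (ι i)) →
  Dense (⋃ i, Set.range (ι i)) →
  ∃ (𝒜 : Type) (_ : CStarAlgebra 𝒜) (ζ : C(ℕ → Y, ℂ) →⋆ₐ[ℂ] 𝒜) (π : (ℕ → Y) → 𝒜 →⋆ₐ[ℂ] L)
    (u : ∀ i, C(Fin i → Y, A i) →⋆ₙₐ[ℂ] 𝒜), CtsField ζ π ∧ (∀ i, Function.Injective (u i)) ∧
    (∀ i (f : C(Fin i → Y, A i)) (f' : C(Fin (i + 1) → Y, A (i + 1))),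
      (∀ z, f' z = κh i (f fun l => z l.castSucc) (z (Fin.last i))) → u (i + 1) f' = u i f) ∧
    Dense (⋃ i, Set.range (u i))

/-- CUR. Functions on a product of `n + 1` factors.
Proof. `φ f = (z ↦ (y ↦ f (Fin.snoc z y)))` (`ContinuousMap.curry`, `Continuous.finSnoc`), `ψ g = (z ↦ g (fun l => z l.castSucc) (z (Fin.last n)))` (evaluation is jointly continuous). -/
def S_CUR : Prop := ∀ (Y A : Type) [TopologicalSpace Y] [CompactSpace Y]
  [NonUnitalCStarAlgebra A] (n : ℕ), ∃ (φ : C(Fin (n + 1) → Y, A) →⋆ₙₐ[ℂ] C(Fin n → Y, C(Y, A)))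
    (ψ : C(Fin n → Y, C(Y, A)) →⋆ₙₐ[ℂ] C(Fin (n + 1) → Y, A)),
    (∀ g z, ψ g z = g (fun l => z l.castSucc) (z (Fin.last n))) ∧ (∀ f, ψ (φ f) = f) ∧
    ∀ g, φ (ψ g) = g

/-! ## Nuclearity -/

/-- NSUP. The norm of a section is the supremum of the norms of its values.
Proof. The map `a ↦ (π x a)_x` into the C*-algebra of bounded families (`lp (fun _ : X => L) ⊤`, or bounded functions on the discrete space `X`) is an injective *-homomorphism (`faithful`), so isometric (`NonUnitalStarAlgHom.isometry`). (Case `X` empty: `A = 0`.) -/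
def S_NSUP : Prop := ∀ (X A L : Type) [TopologicalSpace X] [CompactSpace X] [CStarAlgebra A]
  [CStarAlgebra L] (ζ : C(X, ℂ) →⋆ₐ[ℂ] A) (π : X → A →⋆ₐ[ℂ] L), CtsField ζ π →
  ∀ (a : A) (M : ℝ), 0 ≤ M → (∀ x, ‖π x a‖ ≤ M) → ‖a‖ ≤ M

/-- CPQ. The quadratic map of a column is completely positive.
Proof. For `a ∈ M_k(M_J(ℂ))`: `qf ((star a * a) s t) v = ∑_{r, l} star (d r l s) * d r l t`, `d r l t = ∑ q, (a r t) l q • v q` (expand `(star a * a) s t = ∑ r, star (a r s) * a r t`). So the matrix with these entries is `∑_{r,l} star R * R`, `R = R r l ∈ M_k(A)` with first row `d r l ·` and other rows `0` (`k ≥ 1`), positive, so it is `star c * c`,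
`c` its square root (spectral order). Compare `IsCP` statements in `Helper82/BD/NucA.lean` (`phi_cp`), `Helper44/CAR/Choi.lean`. Norm: `S_COL` (landed: `s_COL`): `‖qf a v‖ ≤ ‖a‖ ‖∑ star (v p) * v p‖`. -/
def S_CPQ : Prop := ∀ (A : Type) [CStarAlgebra A] (m : ℕ) (v : Fin m → A),
  ‖∑ p, star (v p) * v p‖ ≤ 1 → ∃ ψ : CStarMatrix (Fin m) (Fin m) ℂ →ₗ[ℂ] A,
    IsCP ψ ∧ (∀ x, ‖ψ x‖ ≤ ‖x‖) ∧ ∀ x, ψ x = qf x v

/-- NUA. Local approximation.
Proof. `L` is CAR: `e`, `j`; choose `m` and `x a` with `‖j m (x a) - π x₀ a‖ < ε/3` for `a ∈ F` (density, increasing ranges; see the proof of `nuc` in `Helper82/BD/NucB.lean`). `τ` a tracial state of `L` (`p_CTR`), `phi τ i0 (j m) : L → M_N(ℂ)` (`Helper82/BD/NucA.lean`): completely positive (`phi_cp`), contractive (`phi_norm`), `phi (j m x) = x` (`phi_j`).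
`φ = phi ∘ π x₀` is completely positive and contractive, `‖j m (φ a) - π x₀ a‖ ≤ ‖j m (phi (π x₀ a - j m (x a)))‖ + ‖j m (x a) - π x₀ a‖ < 2 ε/3`. `c p ∈ A` with `π x₀ (c p) = j m (e_{0p})` (`surj`; `e_{0p} = mu i0 p`). Then `π x₀ (qf (φ a) c) = j m (∑ (φ a)_{pq} e_{p0} e_{0q}) = j m (φ a)` and `π x₀ (∑ star (c p) * c p) = 1`, so
at `x = x₀` the norms are `< ε` and `≤ 1 < 1 + δ` (if `L = 0`: `‖1‖ = 0`); by `cont` this holds on an open neighbourhood `U`. -/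
def S_NUA : Prop := ∀ (X A L : Type) [TopologicalSpace X] [CompactSpace X] [CStarAlgebra A]
  [CStarAlgebra L] (ζ : C(X, ℂ) →⋆ₐ[ℂ] A) (π : X → A →⋆ₐ[ℂ] L), CtsField ζ π → IsCAR L →
  ∀ (F : Finset A) (ε δ : ℝ), 0 < ε → 0 < δ → ∀ x₀ : X, ∃ (m : ℕ)
    (φ : A →ₗ[ℂ] CStarMatrix (Fin m) (Fin m) ℂ) (c : Fin m → A) (U : Set X), IsCP φ ∧
    (∀ a, ‖φ a‖ ≤ ‖a‖) ∧ IsOpen U ∧ x₀ ∈ U ∧
    ∀ x ∈ U, ‖π x (∑ p, star (c p) * c p)‖ < 1 + δ ∧ ∀ a ∈ F, ‖π x (qf (φ a) c - a)‖ < ε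

/-- NUB. Nuclearity of continuous fields with fibre the CAR algebra (uses NSUP, CPQ, NUA).
Proof. Given `F`, `ε`: choose `δ > 0` with `δ (1 + ‖a‖) < ε/2` on `F`. NUA (with `ε/2`, `δ`) and compactness: finitely many points `x k` (`k < r`), `φ k`, `c k`, `U k` with `⋃ U k = X`; a partition of unity subordinate to `U k` (`X` is compact Hausdorff; `PartitionOfUnity.exists_isSubordinate`), `l k = √(k-th function)`, `∑ (l k)² = 1`. Index set `J = Σ k, Fin (m k)`,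
reindexed by `Fin m`; `φ a` = the block diagonal matrix of the `φ k a` (completely positive: blocks; contractive: norm of a block diagonal matrix), `v (k, p) = (1+δ)^(-1/2) • c k p * ζ (l k)`. `∑ star v * v = (1+δ)⁻¹ ∑ k, ζ (l k)² * ∑ p, star (c k p) * c k p` (`ζ f` is central by `faithful`, `scalar`); at every `x` its norm is `≤ (1+δ)⁻¹ ∑ (l k x)² (1+δ) = 1`, so it is `≤ 1`
by NSUP. CPQ gives `ψ`. `(1+δ) • ψ (φ a) - a = ∑ k, ζ (l k)² * (qf (φ k a) (c k) - a)`, at every `x` of norm `≤ ε/2`; so `‖(1+δ) ψ (φ a) - a‖ ≤ ε/2` and `‖ψ (φ a) - a‖ ≤ ε/2 + δ ‖ψ (φ a)‖ ≤ ε/2 + δ ‖a‖ < ε`. -/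
def S_NUB : Prop := ∀ (X A L : Type) [TopologicalSpace X] [CompactSpace X] [T2Space X]
  [CStarAlgebra A] [CStarAlgebra L] (ζ : C(X, ℂ) →⋆ₐ[ℂ] A) (π : X → A →⋆ₐ[ℂ] L),
  CtsField ζ π → IsCAR L → Nuclear A

/-- The theorem. -/
def S_CFMAIN : Prop := ∀ (D : Type) [NonUnitalCStarAlgebra D] [SeparableSpace D], Nuclear D →
  ∃ (A L : Type) (_ : CStarAlgebra A) (_ : CStarAlgebra L) (ζ : C(ℕ → Sphere2, ℂ) →⋆ₐ[ℂ] A)
    (π : (ℕ → Sphere2) → A →⋆ₐ[ℂ] L), SeparableSpace A ∧ Nuclear A ∧ IsCAR L ∧ CtsField ζ π ∧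
    ∀ T : Theory, T.Zero A ↔ T.Zero D

end

end Pool.Agent.Helper45.CF
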