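import Pool.Agent.Helper45.CF.Base2

/-!
# Project CF (MP_d97caa_an), second stage: goals

The field over the Hilbert cube. Every packet proves one Prop `S_...` as a theorem in
`Pool/Agent/<You>/CF2/<Name>.lean`; Props named in its proof are hypotheses of the theorem. Landed
facts may be used freely: `Pool.Agent.Helper34.CAR.Parts` (`t_ABS`, `t_UNT`, `t_HOM`, `t_FLAT`, `t_IL`,
`t_EXT`, `t_KINJ`, `t_CARL`), `Pool.Agent.Helper39.CR.Parts6`, `Pool.Agent.Helper45.CF.Parts`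
(`c_SUR`, `c_DEN`, .., `c_FC`), `Pool.Agent.Helper45.CF.Asm` (`zfin`, `zero_iso`, `zero_union`, `evC`,
`cstC`), `Pool.Agent.Helper45.CF.Par`.
-/

open scoped ComplexOrder ZeroAtInfty Topology ComplexConjugate NNReal
open TopologicalSpace Filter

namespace Pool.Agent.Helper45.CF

open Pool.Agent.Helper34.CAR Pool.Agent.Helper39.CR Pool.Agent.Helper39.Uct
  Pool.Agent.Helper39.CarDefs

noncomputable section

/-! ## Property (N) -/

/-- PNI. Property (N) of `C₀(ℝ, E)` with representations of `Two E`.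
Proof. Copy `ns` in `Helper80/CAR/NS.lean`: `S_PU` gives `I, s, g`, property (N) of `E` gives `J, σ, v`. The representation of `C₀(ℝ, E)` there is `f ↦ β (fun i => σ (f (s i)))`. Here take for `x ∈ Two E` the representation `x ↦ β (fun i => σ (if 0 ≤ s i then x.1 ⟨s i, _⟩ else x.2 ⟨- s i, _⟩))`
(`x.1 (Real.toNNReal (s i))`, `x.2 (Real.toNNReal (- s i))`), whose value at `toTwo E f` is `β (fun i => σ (f (s i)))`. The rest of the proof is the same. -/
def S_PNI : Prop := ∀ (E : Type) [NonUnitalCStarAlgebra E], PN E → PNu (toTwo E)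

/-- PNT. Property (N) of `Two E`.
Proof. Given `F ⊂ Two E`, `ε`. For `f : C₀(ℝ≥0, E)` let `f^ : C₀(ℝ, E)`, `f^ t = f |t|` (composition with the proper map `t ↦ |t|`). `S_PU` (`Helper61/CAR/GoalsQ.lean`, landed as `s_PU`) for all `x.1^`, `x.2^`, `x ∈ F`, and `ε/2`: `I, s, g` with `‖∑ g i t ^ 2 • f |s i| - f |t|‖ < ε/2` for all `t`. Property (N) of `E` for
the values `x.1 |s i|`, `x.2 |s i|` and `ε/4`: `J, σ, v`. On `(Bool × I) × J` (or `Σ _ : Bool × I, J`, `S_BD`) put `σ' x = β (fun (k, i) => σ (x_k |s i|))`, `x_true = x.1`, `x_false = x.2`, and `v' (true, i, p) = (g i|.. ⊗ v p, 0)`, `v' (false, i, p) = (0, g i|.. ⊗ v p)`, where `g i|..` is the restriction of `g i` to `ℝ≥0`.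
At `t ≥ 0` the first component of `qf (σ' x) v'` is `∑ i, g i t ^ 2 • qf (σ (x.1 |s i|)) v`, at distance `≤ ε/4 + ε/2` from `x.1 t`; the first component of `∑ star v' * v'` is `(∑ g i t ^ 2) • ∑ star (v p) * v p`; the second components likewise. Norms of functions and of pairs are suprema. Compare `Helper80/CAR/NS.lean`. -/
def S_PNT : Prop := ∀ (E : Type) [NonUnitalCStarAlgebra E], PN E → PN (Two E)

/-- UNTI. From (N) to the unitizations, relative version.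
Proof. As `S_UNT` (landed: `Helper44/CAR/UNT.lean`). `b = λ + x`. Apply `PNu u` to the parts `b.snd`, get `J₀, σ₀, v₀`; `J = Option J₀`, `σ : Unitization ℂ X' → M_J(ℂ)`, `σ (λ + x') = λ 1 + (σ₀ x' ⊕ 0)`, `v (some p) = v₀ p`, `v none = √(1 - ∑ star (v₀ p) * v₀ p)`. `∑ star v * v = 1` and
`qf (σ (starMap u b)) v = λ + qf (σ₀ (u x)) v₀`. -/
def S_UNTI : Prop := ∀ (X X' : Type) [NonUnitalCStarAlgebra X] [NonUnitalCStarAlgebra X']
  (u : X →⋆ₙₐ[ℂ] X'), PNu u → NU (Unitization.starMap u)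

/-! ## Absorption -/

/-- ABF. Absorption for matrices of functions, `inc`-relative, in flattened form.
Proof. Choose `δ > 0` with `6 m √(δ (1 + 2 ‖b‖)) < ε/2` for `b ∈ F`. `NU inc` for `F ∪ F* ∪ {star b * b} ∪ {b * star b}` and `δ` gives `J₀, σ, v`. `S_ABS` (landed: `t_ABS`) with `R := C(Y, Mt I R)`, the chain `g`, and `σ ∘ inc` gives a unitary `w₀ ∈ Mt (Option (Fin m × J₀)) C(Y, Mt I R)` with
`‖w₀ * amp m (g 0 b) (σ (inc b)) * star w₀ - amp m (g m b) (σ (inc b))‖ < ε`. Put `J = (Fin m × J₀) × I`, `s b' ((i, p), c) ((i', q), c') = if i = i' ∧ c = c' then σ b' p q else 0` (a unital *-homomorphism `B' → Mt J ℂ`), `pos : I ⊕ J → Option (Fin m × J₀) × I`, `inl c ↦ (none, c)`, `inr (x, c) ↦ (some x, c)` (a bijection). The map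
`Ψ : Mt (Option (Fin m × J₀)) C(Y, Mt I R) →⋆ₐ C(Y, Mt (I ⊕ J) R)`, `Ψ a y p q = a (pos p).1 (pos q).1 y (pos p).2 (pos q).2`, is a unital *-homomorphism (continuity in `y`: the entries are continuous, `Mt.norm_le_sum`), and `Ψ (amp m (g k b) (σ (inc b))) y = bd (g k b y) (scl R s∘inc b)` (look at the entries: `blk` has the entries `algebraMap`, whose value at `y` is a
scalar diagonal matrix). With `w = Ψ w₀`: `‖w A star w - C‖ < ε` gives `‖A - star w C w‖ < ε`, and the norm in `C(Y, ..)` dominates the norm at `y`. -/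
def S_ABF : Prop := ∀ (B B' R Y I : Type) [CStarAlgebra B] [CStarAlgebra B'] [CStarAlgebra R]
  [TopologicalSpace Y] [CompactSpace Y] [Fintype I] [DecidableEq I] (inc : B →⋆ₐ[ℂ] B'), NU inc →
  ∀ (m : ℕ) (g : ℕ → B →⋆ₐ[ℂ] C(Y, Mt I R)) (F : Finset B) (ε : ℝ), 0 < ε →
  (∀ b ∈ F, ∀ j < m, ‖g j b - g (j + 1) b‖ ≤ ε / 2) →
  ∃ (J : Type) (_ : Fintype J) (_ : DecidableEq J) (s : B' →⋆ₐ[ℂ] Mt J ℂ)
    (w : C(Y, Mt (I ⊕ J) R)), star w * w = 1 ∧ w * star w = 1 ∧ ∀ b ∈ F, ∀ y,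
      ‖bd (g 0 b y) (scl R (s.comp inc) b) - star (w y) * bd (g m b y) (scl R (s.comp inc) b) * w y‖
        < ε

/-- SML. The small step (uses PNI, UNTI, ABF).
Proof. `B = Unitization ℂ C₀(ℝ, E)`. PNI and UNTI give `NU (prE E).inc`. ABF with `Y = Unit`, `I = Fin 2`, `R = B`. The chain (as in the proof of `S_STEP`, `Helper64/CAR/STEP.lean`): `t_HOM E` for the elements `b.snd`, `b ∈ F`, and `ε/2` gives `m`, `c i : C₀(ℝ, E) → Mt (Fin 2) B`; `g i : B → C(Unit, Mt (Fin 2) B)`, `g i (λ + x) =` the constant function `λ 1 + c i x`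
(`Unitization.starLift`). `g 0 b = diag(θ b, b)`, which is `Sys2.Ktriv θ b`, and `g m b = λ 1`. So the first matrix in ABF is `osum (Sys2.Ktriv θ) (scl _ (s.comp inc)) b` (`osum_bd`), the second is `bd (λ 1) (scl ..)`, a matrix with scalar entries, so of the form `Mt.scal x`. -/
def S_SML : Prop := ∀ (E : Type) [NonUnitalCStarAlgebra E], PN E →
  ∀ (F : Finset (Unitization ℂ C₀(ℝ, E))) (ε : ℝ), 0 < ε → ∃ (J : Type) (_ : Fintype J)
    (_ : DecidableEq J) (s : Unitization ℂ (Two E) →⋆ₐ[ℂ] Mt J ℂ)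
    (w : Mt (Fin 2 ⊕ J) (Unitization ℂ C₀(ℝ, E))), star w * w = 1 ∧ w * star w = 1 ∧
    ∀ b ∈ F, ∃ x : Fin 2 ⊕ J → Fin 2 ⊕ J → ℂ,
      ‖osum (Sys2.Ktriv (prE E).θ) (scl (Unitization ℂ C₀(ℝ, E)) (s.comp (prE E).inc)) b -
        star w * Mt.scal x * w‖ < ε

/-- UCH. The identity of the unitization of `Two E` is connected with the character.
Proof. `k u : Two E → Two E`, `k u x = (r ↦ x.1 (r + u), r ↦ x.2 (r + u))`, `u : ℝ≥0` (`r ↦ r + u` is continuous and proper: it is a closed embedding of `ℝ≥0`). Choose `U` with `‖x.1 r‖, ‖x.2 r‖ ≤ η` for `r ≥ U`, and `n ≥ 1` with `‖x.1 r - x.1 r'‖ ≤ η` for `|r - r'| ≤ U/n` (functions vanishing at infinity are uniformly continuous), for `x = b.snd`, `b ∈ F`, and the same for `x.2`.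
`h j = Unitization.starMap (k (j U / n))` for `j ≤ n`, `h j = algebraMap ∘ omU` for `j > n`, `m = n + 1`. For `j < n`: `h j b - h (j+1) b = inr (k .. x - k .. x)` of norm `≤ η` (`Unitization.norm_inr`); `h n b - h (n+1) b = inr (k U x)`, of norm `≤ η`. -/
def S_UCH : Prop := ∀ (E : Type) [NonUnitalCStarAlgebra E]
  (F : Finset (Unitization ℂ (Two E))) (η : ℝ), 0 < η → ∃ (m : ℕ)
    (h : ℕ → Unitization ℂ (Two E) →⋆ₐ[ℂ] Unitization ℂ (Two E)), (∀ b, h 0 b = b) ∧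
    (∀ b, h m b = algebraMap ℂ (Unitization ℂ (Two E)) (omU (Two E) b)) ∧
    ∀ b ∈ F, ∀ j < m, ‖h j b - h (j + 1) b‖ ≤ η

/-- RRH. The rotated steps are *-homomorphisms.
Proof. For fixed `y` apply `S_ROT` (landed: `Pool.Agent.Helper57.CF.ROT.t`) to `C = Fin 2 ⊕ Unit`, `K = osum (Sys2.Ktriv θ) (scl B (chM ω))`, `c0 = inl 0`, `c1 = inl 1`, `c2 = inr ()` (the hypotheses on `K` as in `kst_step`, `kst_om`): `rr θ ω y b = U * K b * star U`, so `b ↦ rr θ ω y b` is a unital *-homomorphism. Second part: `K = kst θ ω t`, `kst_step`, `kst_om`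
(or `rotM_eq`). Continuity in `y`: the entries are continuous (`continuous_bp`), `Mt.norm_le_sum`. Compare `Helper47/CF/KAP.lean`. -/
def S_RRH : Prop := ∀ (B : Type) [CStarAlgebra B] (θ : B →⋆ₐ[ℂ] B) (ω : B →⋆ₐ[ℂ] ℂ),
  (∃ R : B →⋆ₐ[ℂ] C(Sphere2, Mt (Fin 2 ⊕ Unit) B), ∀ b y, R b y = rr θ ω y b) ∧
  ∀ (J : Type) [Fintype J] [DecidableEq J] (t : B →⋆ₐ[ℂ] Mt J ℂ),
    ∃ R : B →⋆ₐ[ℂ] C(Sphere2, Mt ((Fin 2 ⊕ Unit) ⊕ J) B), ∀ b y, R b y = rotM θ ω t y b

/-- BIG. The rotated step over the big algebra is almost scalar, uniformly over the sphere (uses PNT, UCH, RRH, ABF).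
Proof. `B' = Unitization ℂ (Two E)`, `θ' = (prE E).θ'`, `ω' = (prE E).ω' = omU (Two E)`. `t_UNT` for `PN (Two E)` (PNT) gives `NU (StarAlgHom.id ℂ B')`. UCH for `F` and `ε/2`: `m`, `h`. RRH: `R : B' → C(Sphere2, Mt (Fin 2 ⊕ Unit) B')`, `R b y = rr θ' ω' y b`. ABF with `inc = id`, `Y = Sphere2`, `I = Fin 2 ⊕ Unit`, `R = B'`, `g j = R ∘ h j`
(`‖R (h j b) - R (h (j+1) b)‖ ≤ ‖h j b - h (j+1) b‖`). `g 0 b y = rr θ' ω' y b`, so the first matrix is `rotM θ' ω' s y b` (`rotM_eq`); `g m b y = R (algebraMap (ω' b)) y = algebraMap (ω' b)`, so the second matrix is `scl B' ρ b` with `ρ b = bd (algebraMap ℂ _ (ω' b)) (s b)`, e.g. `ρ = osum (ω'-multiples of 1) s`. -/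
def S_BIG : Prop := ∀ (E : Type) [NonUnitalCStarAlgebra E], PN E →
  ∀ (F : Finset (Unitization ℂ (Two E))) (ε : ℝ), 0 < ε → ∃ (J : Type) (_ : Fintype J)
    (_ : DecidableEq J) (s : Unitization ℂ (Two E) →⋆ₐ[ℂ] Mt J ℂ)
    (w : C(Sphere2, Mt ((Fin 2 ⊕ Unit) ⊕ J) (Unitization ℂ (Two E))))
    (ρ : Unitization ℂ (Two E) →⋆ₐ[ℂ] Mt ((Fin 2 ⊕ Unit) ⊕ J) ℂ),
    star w * w = 1 ∧ w * star w = 1 ∧ ∀ b ∈ F, ∀ y,
      ‖rotM (prE E).θ' (prE E).ω' s y b - star (w y) * scl (Unitization ℂ (Two E)) ρ b * w y‖ < ε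

/-- DST. The common step (uses SML, BIG).
Proof. SML for `F`, `ε`: `J₁, s₁, w₁`; BIG for `F'`, `ε`: `J₂, s₂, w₂, ρ₂`. Choose `a, n` with `3 + |J₁| + |J₂| + n = 2 ^ a`; `J = (J₁ ⊕ J₂) ⊕ Fin n`, `t = osum (osum s₁ s₂) χ`, `χ b = ω' b • 1` (`n` copies of the character). (1) `kst θ ω (t.comp inc) b`, after the obvious bijection `(Fin 2 ⊕ Unit) ⊕ ((J₁ ⊕ J₂) ⊕ Fin n) ≃ (Fin 2 ⊕ J₁) ⊕ (Unit ⊕ (J₂ ⊕ Fin n))`, is
`bd (osum (Ktriv θ) (scl (s₁.comp inc)) b) (a scalar matrix)`; `w = bd w₁ 1` reindexed; the difference is `bd (difference of SML) 0`, whose norm is at most the norm of the difference (`a ↦ bd a 0` is a *-homomorphism). (2) `rotM θ' ω' t y b` (`rotM_eq`), after the bijection to `((Fin 2 ⊕ Unit) ⊕ J₂) ⊕ (J₁ ⊕ Fin n)`, is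
`bd (rotM θ' ω' s₂ y b) (scl ..)`; `w' y = bd (w₂ y) 1` reindexed, `ρ = bd ρ₂ (s₁ ⊕ χ)` reindexed. (Reindexing along a bijection is an isometric *-isomorphism.) -/
def S_DST : Prop := ∀ (E : Type) [NonUnitalCStarAlgebra E], PN E → (prE E).Step

/-! ## The recursion -/

/-- GREC. The recursion over a unital C*-algebra with central scalars.
Proof. Copy `Helper37/CF/SYSO.lean`. There: `sys1o` (one step) and the recursion with the states `St`. Changes: the step comes from the third hypothesis (no `StepAt`, `HasOm`), scalar matrices `Mt.scal x` are replaced by `zm ζ x`, `x : S → S → Z`. One step: for `v : Mt S B` unitary, `G` finite, `ε`: take the step `p, w` for all entries of `v * g * star v` and `ε / (n² + 1)`;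
`v' = oW w * kapH K v`; `kapF K (zm ζ x) = zm ζ (xo x)` (second hypothesis), `zm ζ (xo x)` commutes with `oW w` (first hypothesis: `ζ z` is central), so `kapF K (star v * zm ζ x * v) = star v' * zm ζ (xo x) * v'` (now with the explicit matrix `xo x`, which is `xt (Equiv.refl _) x`). State: `S`, `v`, `G j m` = images at the present stage of a dense sequence of stage `j`.
Last clause: for the sequence `a`, `ε`: choose `m` with `‖a 0 - G_j j m‖ < ε/2`, then `‖a d - G_{j+d} j m‖ < ε/2` for all `d` (`kapH` is contractive), and for large `d` the element `G_{j+d} j m` is `ε/2`-close to `star v * zm ζ x * v`. -/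
def S_GREC : Prop := ∀ (B Z : Type) [CStarAlgebra B] [SeparableSpace B] [CStarAlgebra Z]
  (ζ : Z →⋆ₐ[ℂ] B) (P : Type 1) (C : P → Type) [∀ p, Fintype (C p)] [∀ p, DecidableEq (C p)]
  (K : ℕ → ∀ p, B →⋆ₐ[ℂ] Mt (C p) B), (∀ z b, ζ z * b = b * ζ z) →
  (∀ i p z, K i p (ζ z) = Mt.of fun x y => if x = y then ζ z else 0) →
  (∀ (i : ℕ) (F : Finset B) (ε : ℝ), 0 < ε → ∃ (p : P) (w : Mt (C p) B), star w * w = 1 ∧
    w * star w = 1 ∧ ∀ b ∈ F, ∃ x : C p → C p → Z, ‖K i p b - star w * zm ζ x * w‖ < ε) →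
  ∃ (p : ℕ → P) (S : ℕ → Type) (_ : ∀ i, Fintype (S i)) (_ : ∀ i, DecidableEq (S i)) (s0 : S 0)
    (e : ∀ i, S (i + 1) ≃ S i × C (p i)) (v : ∀ i, Mt (S i) B), (∀ s : S 0, s = s0) ∧
    (∀ i, star (v i) * v i = 1 ∧ v i * star (v i) = 1) ∧
    (∀ i (x : S i → S i → Z) a c,
      K i (p i) ((star (v i) * zm ζ x * v i) (e i a).1 (e i c).1) (e i a).2 (e i c).2 =
        (star (v (i + 1)) * zm ζ (xt (e i) x) * v (i + 1)) a c) ∧
    ∀ (j : ℕ) (a : ∀ d, Mt (S (j + d)) B),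
      (∀ d x y, a (d + 1) x y = K (j + d) (p (j + d)) (a d (e (j + d) x).1 (e (j + d) y).1)
        (e (j + d) x).2 (e (j + d) y).2) →
      ∀ ε : ℝ, 0 < ε → ∃ (d : ℕ) (x : S (j + d) → S (j + d) → Z),
        ‖a d - star (v (j + d)) * zm ζ x * v (j + d)‖ < ε

/-- KCB. The combined step as a *-homomorphism (uses RRH).
Proof. `K (b, f) p q = (kst P.θ P.ω (t.comp P.inc) b p q, x ↦ rotM P.θ' P.ω' t (x i) (f x) p q)`. The second component is continuous in `x`: with `R` of RRH it is the entry `(p, q)` of `R (f x) (x i)`, and `(b, y) ↦ R b y` is jointly continuous (`x ↦ R (f x) ∈ C(Sphere2, ..)` is continuous and evaluation is jointly continuous). For every `x` the map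
`f ↦ rotM .. (x i) (f x)` is a unital *-homomorphism (RRH), and `kst ..` is one; products, sums, star and unit of `Mt _ (Cb B B')` are computed in the components (the second one pointwise). -/
def S_KCB : Prop := ∀ (B B' : Type) [CStarAlgebra B] [CStarAlgebra B'] (P : Pr B B') (J : Type)
  [Fintype J] [DecidableEq J] (t : B' →⋆ₐ[ℂ] Mt J ℂ) (i : ℕ),
  ∃ K : Cb B B' →⋆ₐ[ℂ] Mt ((Fin 2 ⊕ Unit) ⊕ J) (Cb B B'), IsCb P t i K

/-- STC. Approximation of the combined steps.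
Proof. Norm of `Mt C (Cb B B')`: `M ↦ (M.1, x ↦ M.2 x) ∈ Mt C B × C(X, Mt C B')` (entrywise) is an injective *-homomorphism, so isometric; hence `‖M‖ < ε` if `‖M.1‖ < ε` and `‖M.2 x‖ ≤ 3 ε/4` for all `x`. For every `(b, f) ∈ F` the range of `f` is compact: choose a finite set `N` of elements of `B'` such that for all `(b, f) ∈ F` and `x` there is `n ∈ N` with `‖f x - n‖ < ε/4`. Apply `P.Step` to
`{b}`, `N` and `ε/4`: `a, J, t, w₁, w₂, ρ`. `d = ⟨J, t, ..⟩`, `w p q = (w₁ p q, x ↦ w₂ (x i) p q)`, unitary. For `(b, f) ∈ F` take `x p q = (x₁ p q, x' ↦ ρ (f x') p q)`. First component of `K (b, f) - star w * zm (zcb B B') x * w`: norm `< ε/4`. Second component at `x'`, `y = x' i`: `rotM .. y (f x') - star (w₂ y) * scl B' ρ (f x') * w₂ y`;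
replacing `f x'` by `n` changes both terms by at most `ε/4` (`rotM .. y` is contractive: `IsCb` for the constant function shows that it comes from the *-homomorphism `K`, or use `S_RRH` as a hypothesis), so its norm is `≤ 3 ε/4`. -/
def S_STC : Prop := ∀ (B B' : Type) [CStarAlgebra B] [CStarAlgebra B'] (P : Pr B B'), P.Step →
  ∀ (i : ℕ) (F : Finset (Cb B B')) (ε : ℝ), 0 < ε → ∃ (d : StD B')
    (w : Mt ((Fin 2 ⊕ Unit) ⊕ d.J) (Cb B B')), star w * w = 1 ∧ w * star w = 1 ∧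
    ∀ K : Cb B B' →⋆ₐ[ℂ] Mt ((Fin 2 ⊕ Unit) ⊕ d.J) (Cb B B'), IsCb P d.t i K → ∀ b ∈ F,
      ∃ x : (Fin 2 ⊕ Unit) ⊕ d.J → (Fin 2 ⊕ Unit) ⊕ d.J → ℂ × C(ℕ → Sphere2, ℂ),
        ‖K b - star w * zm (zcb B B') x * w‖ < ε

/-- DSY. The common system (uses GREC, KCB, STC).
Proof. GREC for `Cb B B'`, `Z = ℂ × C(X, ℂ)`, `ζ = zcb B B'` (central), `P = StD B'`, `C p = (Fin 2 ⊕ Unit) ⊕ p.J`, `K i p` chosen by KCB for `p.t` and `i`. `K i p (ζ z) = diag(ζ z)`: `kst` and `rotM .. y` are unital and linear (evaluate at `x`; the second by KCB: `K` applied to a constant function). Step hypothesis: STC. Result: `p, S, s0, e, v`.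
`d : DData B'` with `J i = (p i).J`, `t i`, `S`, `e`. First components: `v₁ i = (v i).1` entrywise, unitary. `Matricial`: `comp`: apply the third clause to `x' p q = (x p q, 0)`; `approx`: apply the last clause to `a k p q = (push j k a₀ p q, 0)` (`K 0 = 0`); take first components (entrywise `Prod.fst` is a *-homomorphism, contractive).
Big: `v₂ i x = (v i).2 x` entrywise (continuous in `x`: entries, `Mt.norm_le_sum`). `uni`, `comp` (for `x' p q = (0, const (z p q))`, evaluated at `x`), `app` (for `(0, a k)`; `z` = second components; the norm of the value at `x` is at most the norm). -/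
def S_DSY : Prop := ∀ (B B' : Type) [CStarAlgebra B] [CStarAlgebra B'] [SeparableSpace B]
  [SeparableSpace B'] (P : Pr B B'), P.Step → ∃ d : DData B',
    (d.sys P.inc P.θ P.ω).Matricial ∧ ∃ v : ∀ i, C(ℕ → Sphere2, Mt (d.S i) B'), d.Big P v

/-! ## Embedding of the field into the trivial field -/

/-- LCM. The limit of the scalar matrices.
Proof. Consider `s = d.sys (algC B') id id`, a system over `ℂ`: its steps are `b ↦ diag(b, b, b, t (b 1)) = b • 1`, so `s.κ i x` is `xt (d.e i) x`. It is `Matricial` with `v i = 1` (`κ (scal x) = scal (xt x)`, and every element of `s.A i` is `Mt.scal x`). `t_IL` (with `t_KINJ`) gives `M`, `μ`; `t_CARL` gives `IsCAR M`. -/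
def S_LCM : Prop := ∀ (B' : Type) [CStarAlgebra B'] (d : DData B'), ∃ (M : Type)
  (_ : CStarAlgebra M) (μ : ∀ i, Mt (d.S i) ℂ →⋆ₐ[ℂ] M), IsCAR M ∧
    (∀ i, Function.Injective (μ i)) ∧
    (∀ i (x : Mt (d.S i) ℂ), μ (i + 1) (Mt.of (xt (d.e i) fun p q => x p q)) = μ i x) ∧
    Dense (⋃ i, Set.range (μ i))

/-- TAUV. The trivialisation at stage `i`.
Proof. `τ z = x ↦ star (v x) * Mt.map (algC B') (z x) * v x`, continuous in `x`, a unital *-homomorphism pointwise; `Mt.map (algC B')` is injective (`B'` nontrivial), so isometric, and `v x` is unitary. (`Mt.map (algC B') (z x) = Mt.scal fun p q => z x p q` by definition.) -/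
def S_TAUV : Prop := ∀ (X S B' : Type) [TopologicalSpace X] [CompactSpace X] [Fintype S]
  [DecidableEq S] [CStarAlgebra B'] [Nontrivial B'] (v : C(X, Mt S B')), star v * v = 1 →
  v * star v = 1 → ∃ τ : C(X, Mt S ℂ) →⋆ₐ[ℂ] C(X, Mt S B'), ∀ z x,
    τ z x = star (v x) * Mt.scal (fun p q => z x p q) * v x ∧ ‖τ z x‖ = ‖z x‖

/-- FMAP. Homomorphisms between fields.
Proof. `S_EXT` (landed: `t_EXT`) for `ι` and `f i a = ι' i (α i a)`: given `a` at stage `i` take `κ i a` at stage `i + 1`. The extension is unital: `Φ 1 = Φ (ι 0 1) = ι' 0 (α 0 1) = 1`. -/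
def S_FMAP : Prop := ∀ (H H' : Type) [CStarAlgebra H] [CStarAlgebra H'] (A A' : ℕ → Type)
  [∀ i, CStarAlgebra (A i)] [∀ i, CStarAlgebra (A' i)] (ι : ∀ i, A i →⋆ₐ[ℂ] H)
  (ι' : ∀ i, A' i →⋆ₐ[ℂ] H') (κ : ∀ i, A i → A (i + 1)) (κ' : ∀ i, A' i → A' (i + 1))
  (α : ∀ i, A i →⋆ₐ[ℂ] A' i), (∀ i, Function.Injective (ι i)) →
  (∀ i a, ι (i + 1) (κ i a) = ι i a) → (∀ i a, ι' (i + 1) (κ' i a) = ι' i a) →
  (∀ i a, α (i + 1) (κ i a) = κ' i (α i a)) → Dense (⋃ i, Set.range (ι i)) →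
  ∃ Φ : H →⋆ₐ[ℂ] H', ∀ i a, Φ (ι i a) = ι' i (α i a)

/-- GMAP. Trivialisation of a field.
Proof. `S_EXT` (landed: `t_EXT`) for `z ↦ ι i (τ i z)` and `f i z = (x ↦ μ i (z x))`. Injective: `ι i` is, and `τ i` is because `‖τ i z x‖ = ‖z x‖`. Compatible: for `z` take `z' = (x ↦ ν i (z x))`. Dense: `ι j b`, `ε`: with `a 0 = b`, `a (k+1) = κ (j+k) (a k)` one has `ι (j+k) (a k) = ι j b`, and the last hypothesis gives `k, z` with `‖a k - τ (j+k) z‖ < ε`.
`G` is unital (`1 = ι 0 (τ 0 1)`). Norm: let `a k` be the sequence with `a 0 = a` at stage `i`; `‖a k x‖ = ‖a x‖`; for `ε` there are `k, z` with `‖a k - τ z‖ < ε`; `G (ι i a) = G (ι (i+k) (a k))` is `ε`-close to `G (ι (τ z)) = (x ↦ μ (z x))`, and `‖μ (z x)‖ = ‖z x‖ = ‖τ z x‖` is `ε`-close to `‖a k x‖ = ‖a x‖`. So `|‖G (ι i a) x‖ - ‖a x‖| ≤ 2 ε` for all `ε`. -/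
def S_GMAP : Prop := ∀ (X H M : Type) [TopologicalSpace X] [CompactSpace X] [CStarAlgebra H]
  [CStarAlgebra M] (A N : ℕ → Type) [∀ i, CStarAlgebra (A i)] [∀ i, CStarAlgebra (N i)]
  (ι : ∀ i, C(X, A i) →⋆ₐ[ℂ] H) (κ : ∀ i, C(X, A i) → C(X, A (i + 1)))
  (τ : ∀ i, C(X, N i) →⋆ₐ[ℂ] C(X, A i)) (ν : ∀ i, N i →⋆ₐ[ℂ] N (i + 1))
  (μ : ∀ i, N i →⋆ₐ[ℂ] M), (∀ i, Function.Injective (ι i)) →
  (∀ i a, ι (i + 1) (κ i a) = ι i a) → Dense (⋃ i, Set.range (ι i)) →
  (∀ i a x, ‖κ i a x‖ = ‖a x‖) → (∀ i z x, ‖τ i z x‖ = ‖z x‖) →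
  (∀ i (z : C(X, N i)) (z' : C(X, N (i + 1))), (∀ x, z' x = ν i (z x)) →
    τ (i + 1) z' = κ i (τ i z)) →
  (∀ i, Function.Injective (μ i)) → (∀ i n, μ (i + 1) (ν i n) = μ i n) →
  (∀ (j : ℕ) (a : ∀ k, C(X, A (j + k))), (∀ k, a (k + 1) = κ (j + k) (a k)) →
    ∀ ε : ℝ, 0 < ε → ∃ (k : ℕ) (z : C(X, N (j + k))), ‖a k - τ (j + k) z‖ < ε) →
  ∃ G : H →⋆ₐ[ℂ] C(X, M), (∀ i z x, G (ι i (τ i z)) x = μ i (z x)) ∧
    ∀ i a x, ‖G (ι i a) x‖ = ‖a x‖

/-- CPT. The rotated connecting maps are compatible with the inclusion.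
Proof. `IsKap` on both sides; entries: `P.inc (rotE P.ω c1 c2 (kst P.θ P.ω (t.comp P.inc)) y b p q) = rotE P.ω' c1 c2 (kst P.θ' P.ω' t) y (P.inc b) p q`, because `P.inc (P.θ b) = P.θ' (P.inc b)`, `P.ω b = P.ω' (P.inc b)` (definition of `Pr.ω`), `P.inc` is linear and unital. Second part: `IsKap` and the definitions of `DData.rk`, `rotM`. -/
def S_CPT : Prop := ∀ (B B' : Type) [CStarAlgebra B] [CStarAlgebra B'] (P : Pr B B')
  (d : DData B') (i : ℕ)
  (κh : (d.sys P.inc P.θ P.ω).A i →⋆ₐ[ℂ] C(Sphere2, (d.sys P.inc P.θ P.ω).A (i + 1)))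
  (κh' : (d.sys (StarAlgHom.id ℂ B') P.θ' P.ω').A i →⋆ₐ[ℂ]
    C(Sphere2, (d.sys (StarAlgHom.id ℂ B') P.θ' P.ω').A (i + 1))),
  IsKap (d.sys P.inc P.θ P.ω) P.ω (fun i => i2 (d.J i)) i κh →
  IsKap (d.sys (StarAlgHom.id ℂ B') P.θ' P.ω') P.ω' (fun i => i2 (d.J i)) i κh' →
  (∀ (a : Mt (d.S i) B) y, Mt.map P.inc (κh a y : Mt (d.S (i + 1)) B) =
    κh' (Mt.map P.inc a) y) ∧
  ∀ (a : Mt (d.S i) B') y, κh' a y = d.rk P i y a

/-- FCX. The continuous field, with the maps `ιX` (uses FB, FIN; these are landed: `Helper32/CF/FB.lean`, `Helper95/CF/FIN.lean`).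
Proof. The proof of `S_FC` (`Helper79/CF/FC.lean`) gives all this; export the additional clauses. `‖π x (ιX i a)‖ = ‖ι i (star V * a x * V)‖ = ‖a x‖`; `ζ f = ιX 0 (x ↦ algebraMap (f x))`. -/
def S_FCX : Prop := ∀ (Y : Type) [TopologicalSpace Y] [CompactSpace Y] [Nonempty Y] (A : ℕ → Type)
  [∀ i, CStarAlgebra (A i)] (κ : ∀ i, A i →⋆ₐ[ℂ] A (i + 1)) (κh : ∀ i, A i →⋆ₐ[ℂ] C(Y, A (i + 1))),
  (∀ i y, ∃ U : A (i + 1), star U * U = 1 ∧ U * star U = 1 ∧
    ∀ a, κh i a y = U * κ i a * star U) →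
  ∀ (L : Type) [CStarAlgebra L] (ι : ∀ i, A i →⋆ₐ[ℂ] L),
  (∀ i a, ι (i + 1) (κ i a) = ι i a) → (∀ i, Function.Injective (ι i)) →
  Dense (⋃ i, Set.range (ι i)) →
  ∃ (𝒜 : Type) (_ : CStarAlgebra 𝒜) (ζ : C(ℕ → Y, ℂ) →⋆ₐ[ℂ] 𝒜) (π : (ℕ → Y) → 𝒜 →⋆ₐ[ℂ] L)
    (u : ∀ i, C(Fin i → Y, A i) →⋆ₙₐ[ℂ] 𝒜) (ιX : ∀ i, C(ℕ → Y, A i) →⋆ₐ[ℂ] 𝒜),
    CtsField ζ π ∧ (∀ i, Function.Injective (u i)) ∧
    (∀ i (f : C(Fin i → Y, A i)) (f' : C(Fin (i + 1) → Y, A (i + 1))),
      (∀ z, f' z = κh i (f fun l => z l.castSucc) (z (Fin.last i))) → u (i + 1) f' = u i f) ∧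
    Dense (⋃ i, Set.range (u i)) ∧
    (∀ i (a : C(ℕ → Y, A i)) (a' : C(ℕ → Y, A (i + 1))), (∀ x, a' x = κh i (a x) (x i)) →
      ιX (i + 1) a' = ιX i a) ∧
    (∀ i, Function.Injective (ιX i)) ∧ Dense (⋃ i, Set.range (ιX i)) ∧
    (∀ i a x, ‖π x (ιX i a)‖ = ‖a x‖) ∧
    ∀ (f : C(ℕ → Y, ℂ)) (a : C(ℕ → Y, A 0)), (∀ x, a x = algebraMap ℂ (A 0) (f x)) →
      ζ f = ιX 0 a

/-! ## The Hilbert cube -/

/-- TIE. Tietze for values in a C*-algebra.
Proof. Given `g : C(X, M)` and `ε > 0` apply `exists_continuous_forall_mem_convex_of_local_const` (Mathlib, `Analysis/Convex/PartitionOfUnity`) on `Q` to the convex sets `t q = {m : ∀ x, e x = q → ‖m - g x‖ < ε}`: near `q₀` a constant works: if `q₀ ∉ range e` (closed) take `m = 0` and the complement of `range e`; if `q₀ = e x₀` take `m = g x₀` and the complement of the closed set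
`e '' {x : ε ≤ ‖g x₀ - g x‖}` (compact; it does not contain `q₀` as `e` is injective). This gives `f` with `‖f (e x) - g x‖ < ε` for all `x`, so the restriction map `C(Q, M) → C(X, M)` (`pull M e`) has dense range; its range is closed (`S_RC`, landed). -/
def S_TIE : Prop := ∀ (X Q M : Type) [TopologicalSpace X] [CompactSpace X] [TopologicalSpace Q]
  [CompactSpace Q] [T2Space Q] [NonUnitalCStarAlgebra M] (e : C(X, Q)), Function.Injective e →
  Function.Surjective (pull M e)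

/-- EMQ. The infinite product of spheres embeds in the Hilbert cube.
Proof. `Sphere2 → Fin 3 → unitInterval`, `(t, w) ↦ ((1 + t)/2, (1 + re w)/2, (1 + im w)/2)` (in `[0, 1]` because `t² + |w|² = 1`) is continuous and injective; take the product over `ℕ` and a bijection `ℕ ≃ ℕ × Fin 3`. -/
def S_EMQ : Prop := ∃ e : C(ℕ → Sphere2, ℕ → unitInterval), Function.Injective e

/-- AQ. The pull-back algebra.
Proof. `A = {f ∈ C(Q, M) : f ∘ e ∈ range j}` is a unital *-subalgebra, closed because `range j` is closed (`S_RC`, landed; or `j` is isometric) and `f ↦ f ∘ e` is continuous. `r f = j⁻¹ (f ∘ e)`. -/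
def S_AQ : Prop := ∀ (X Q M H : Type) [TopologicalSpace X] [CompactSpace X] [TopologicalSpace Q]
  [CompactSpace Q] [CStarAlgebra M] [CStarAlgebra H] (e : C(X, Q)) (j : H →⋆ₐ[ℂ] C(X, M)),
  Function.Injective j → ∃ (A : Type) (_ : CStarAlgebra A) (i : A →⋆ₐ[ℂ] C(Q, M))
    (r : A →⋆ₐ[ℂ] H), Function.Injective i ∧ (∀ a x, j (r a) x = i a (e x)) ∧
    ∀ f : C(Q, M), (∃ b, ∀ x, j b x = f (e x)) → ∃ a, i a = f

/-- FIB. The fibres of the pull-back algebra (uses TIE).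
Proof. `x = e x'`: `{i a x : a} = {j b x' : b ∈ H}` (`⊂`: `i a (e x') = j (r a) x'`; `⊃`: extend `j b` to `Q` by TIE and use the last hypothesis). As `‖j b x'‖ = ‖π x' b‖` and `π x'` is onto `L`, `l = π x' b ↦ j b x'` is a well defined injective unital *-homomorphism `L → M` with this range; `L` is CAR.
`x ∉ range e`: the range is all of `M`: for `m : M` take `f = φ • m` with `φ : C(Q, ℝ)`, `φ = 0` on `range e` (closed), `φ x = 1` (Urysohn, `Q` is normal); `f (e x') = 0 = j 0 x'`, so `f = i a`. Take `M` itself and the identity. -/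
def S_FIB : Prop := ∀ (X Q M H A L : Type) [TopologicalSpace X] [CompactSpace X]
  [TopologicalSpace Q] [CompactSpace Q] [T2Space Q] [CStarAlgebra M] [CStarAlgebra H]
  [CStarAlgebra A] [CStarAlgebra L] (e : C(X, Q)) (j : H →⋆ₐ[ℂ] C(X, M)) (i : A →⋆ₐ[ℂ] C(Q, M))
  (r : A →⋆ₐ[ℂ] H) (π : X → H →⋆ₐ[ℂ] L), Function.Injective e → IsCAR M → IsCAR L →
  (∀ x, Function.Surjective (π x)) → (∀ b x, ‖j b x‖ = ‖π x b‖) →
  (∀ a x, j (r a) x = i a (e x)) →
  (∀ f : C(Q, M), (∃ b, ∀ x, j b x = f (e x)) → ∃ a, i a = f) →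
  ∀ x : Q, ∃ (L' : Type) (_ : CStarAlgebra L') (j' : L' →⋆ₐ[ℂ] M), IsCAR L' ∧
    Function.Injective j' ∧ Set.range j' = Set.range fun a => i a x

/-- ZAQ. The pull-back algebra and the field have the same theories (uses TIE).
Proof. `J = {f ∈ C(Q, M) : f ∘ e = 0}` (closed *-subalgebra, a `NonUnitalCStarAlgebra`, separable). `0 → J → C(Q, M) → C(X, M) → 0` is an extension (TIE), and `T.Zero` of the other two gives `T.Zero J` (`exact`). `0 → J → A → H → 0` with the map `r`: `J → A`: `f ∘ e = 0 = j 0`, so `f = i a` for a unique `a`; `r` is onto: for `b ∈ H` extend `j b` to `Q` by TIE;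
`r a = 0` iff `i a ∘ e = 0`. As `T.Zero J`, `bij_of_ext` (or the exactness) gives `F_i(H) ≅ F_i(A)`, so `T.Zero A ↔ T.Zero H`. -/
def S_ZAQ : Prop := ∀ (T : Theory) (X Q M H A : Type) [TopologicalSpace X] [CompactSpace X]
  [TopologicalSpace Q] [CompactSpace Q] [T2Space Q] [CStarAlgebra M] [CStarAlgebra H]
  [CStarAlgebra A] [SeparableSpace H] [SeparableSpace A] [SeparableSpace C(Q, M)]
  [SeparableSpace C(X, M)] (e : C(X, Q)) (j : H →⋆ₐ[ℂ] C(X, M)) (i : A →⋆ₐ[ℂ] C(Q, M))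
  (r : A →⋆ₐ[ℂ] H), Function.Injective e → Function.Injective j → Function.Injective i →
  (∀ a x, j (r a) x = i a (e x)) →
  (∀ f : C(Q, M), (∃ b, ∀ x, j b x = f (e x)) → ∃ a, i a = f) →
  T.Zero C(Q, M) → T.Zero C(X, M) → (T.Zero A ↔ T.Zero H)

/-- ZCAR. Theories vanish on the CAR algebra.
Proof. `IsCAR M`: `e`, `j i : M_{2^{e i}}(ℂ) → M` injective with increasing ranges and dense union. `T.Zero (CStarMatrix (Fin n) (Fin n) ℂ)`: `stable` and `T.point` (`MUnits` for the matrix units). `zero_union` (`Asm.lean`) with `B k = CStarMatrix ..`, `u k = j k`, connecting maps `(j (k+1))⁻¹ ∘ j k`. Separability of the `B k`: finite-dimensional. -/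
def S_ZCAR : Prop := ∀ (T : Theory) (M : Type) [CStarAlgebra M] [SeparableSpace M], IsCAR M →
  T.Zero M

/-- SEPM. The CAR algebra is separable.
Proof. The union of the ranges of the `j i` (finite-dimensional, so separable) is dense. -/
def S_SEPM : Prop := ∀ (M : Type) [CStarAlgebra M], IsCAR M → SeparableSpace M

/-- ZX. Theories vanish on the functions on the infinite product of spheres.
Proof. `zero_union` (`Asm.lean`) with `B k = C(Fin k → Sphere2, ℂ)`, `u k` = pull-back along the restriction `x ↦ (fun i : Fin k => x i)` (injective because the restriction is onto), `j k` = pull-back along `z ↦ (fun l => z l.castSucc)`; dense by `S_FIN` (landed: `Helper95/CF/FIN.lean`; after enlarging nothing, it gives directly `f : C(Fin n → Y, A)`). `T.Zero (B k)` by `zfin` with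
`c_SPH`, `c_CUR` and `T.point` (`Helper45/CF/Final.lean` has `c_SPH`). -/
def S_ZX : Prop := ∀ T : Theory, T.Zero C(ℕ → Sphere2, ℂ)

/-- ZQ. Theories vanish on the functions on the Hilbert cube.
Proof. Homotopy invariance (`T.homot` or the like): `h t f = (x ↦ f (t x))` (coordinatewise product), `h 1 = id`, `h 0 = cstC ∘ evC 0`; continuous in `t` (`(t, x) ↦ f (t x)` is continuous, `ContinuousMap.curry`). So `x = map id x = map (evC 0) (map (cstC) x)`-type identity, which is `0` because it factors through `F_i(ℂ) = 0` (`T.point`). -/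
def S_ZQ : Prop := ∀ T : Theory, T.Zero C(ℕ → unitInterval, ℂ)

/-! ## Nuclearity of fields with varying fibres -/

/-- NSUPV. As `S_NSUP` (landed: `Helper8/CF/NSUP.lean`) for varying fibres. -/
def S_NSUPV : Prop := ∀ (X A : Type) (L : X → Type) [TopologicalSpace X] [CompactSpace X]
  [CStarAlgebra A] [∀ x, CStarAlgebra (L x)] (ζ : C(X, ℂ) →⋆ₐ[ℂ] A) (π : ∀ x, A →⋆ₐ[ℂ] L x),
  CtsFieldV ζ π → ∀ (a : A) (M : ℝ), 0 ≤ M → (∀ x, ‖π x a‖ ≤ M) → ‖a‖ ≤ M

/-- NUAV. As `S_NUA` (landed: `Helper57/CF/NUA.lean`) for varying fibres; only the fibre at `x₀` and the norms in the other fibres are used. -/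
def S_NUAV : Prop := ∀ (X A : Type) (L : X → Type) [TopologicalSpace X] [CompactSpace X]
  [CStarAlgebra A] [∀ x, CStarAlgebra (L x)] (ζ : C(X, ℂ) →⋆ₐ[ℂ] A) (π : ∀ x, A →⋆ₐ[ℂ] L x),
  CtsFieldV ζ π → (∀ x, IsCAR (L x)) →
  ∀ (F : Finset A) (ε δ : ℝ), 0 < ε → 0 < δ → ∀ x₀ : X, ∃ (m : ℕ)
    (φ : A →ₗ[ℂ] CStarMatrix (Fin m) (Fin m) ℂ) (c : Fin m → A) (U : Set X), IsCP φ ∧
    (∀ a, ‖φ a‖ ≤ ‖a‖) ∧ IsOpen U ∧ x₀ ∈ U ∧
    ∀ x ∈ U, ‖π x (∑ p, star (c p) * c p)‖ < 1 + δ ∧ ∀ a ∈ F, ‖π x (qf (φ a) c - a)‖ < ε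

/-- NUBV. As `S_NUB` (landed: `Helper88/CF/NUB.lean`) for varying fibres (uses NSUPV, CPQ, NUAV). -/
def S_NUBV : Prop := ∀ (X A : Type) (L : X → Type) [TopologicalSpace X] [CompactSpace X] [T2Space X]
  [CStarAlgebra A] [∀ x, CStarAlgebra (L x)] (ζ : C(X, ℂ) →⋆ₐ[ℂ] A) (π : ∀ x, A →⋆ₐ[ℂ] L x),
  CtsFieldV ζ π → (∀ x, IsCAR (L x)) → Nuclear A

/-- NQ. Nuclearity of intermediate algebras with CAR fibres (uses NUBV).
Proof. `L x`, `j x` as in the hypothesis; `π x a = (j x)⁻¹ (i a x)` is a unital *-homomorphism onto `L x` (`j x` is injective, its range is the set of the `i a x`), with `‖π x a‖ = ‖i a x‖` (`j x` is isometric). `ζ f` = the element of `A` with `i (ζ f) x = algebraMap (f x)` (unique). `CtsFieldV`: `scalar`, `cont`, `faithful` are clear. -/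
def S_NQ : Prop := ∀ (Q M A : Type) [TopologicalSpace Q] [CompactSpace Q] [T2Space Q]
  [CStarAlgebra M] [CStarAlgebra A] (i : A →⋆ₐ[ℂ] C(Q, M)), Function.Injective i →
  (∀ f : C(Q, ℂ), ∃ a, ∀ x, i a x = algebraMap ℂ M (f x)) →
  (∀ x : Q, ∃ (L : Type) (_ : CStarAlgebra L) (j : L →⋆ₐ[ℂ] M), IsCAR L ∧
    Function.Injective j ∧ Set.range j = Set.range fun a => i a x) → Nuclear A

/-- The theorem over the Hilbert cube. -/
def S_CFQ : Prop := ∀ (D : Type) [NonUnitalCStarAlgebra D] [SeparableSpace D], Nuclear D →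
  ∃ (A M : Type) (_ : CStarAlgebra A) (_ : CStarAlgebra M)
    (i : A →⋆ₐ[ℂ] C(ℕ → unitInterval, M)), Function.Injective i ∧ IsCAR M ∧
    (∀ f : C(ℕ → unitInterval, ℂ), ∃ a, ∀ x, i a x = algebraMap ℂ M (f x)) ∧
    (∀ x, ∃ (L : Type) (_ : CStarAlgebra L) (j : L →⋆ₐ[ℂ] M), IsCAR L ∧
      Function.Injective j ∧ Set.range j = Set.range fun a => i a x) ∧
    SeparableSpace A ∧ Nuclear A ∧ ∀ T : Theory, T.Zero A ↔ T.Zero D

end

end Pool.Agent.Helper45.CF
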