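import Pool.Agent.Helper45.CF.Parts2
import Pool.Agent.Helper13.CF2.ZAQ

/-!
# Project CF (MP_d97caa_an), second stage: commutative C*-algebras

`Q = ℕ → unitInterval` is the Hilbert cube. Every packet proves one Prop `S_...` as a theorem `t` in
`Pool/Agent/<You>/CF2/<Name>.lean`; Props named in its proof are hypotheses of the theorem. Useful and landed:
`Pool.Agent.Helper45.CF.Parts2` (`c_TIE`, `c_ZQ`, ..), `Pool.Agent.Helper13.CF2` (`van M e` = the ideal of the functions
with `f ∘ e = 0`, `vinc`, `zero_ideal`), `bij_of_ext`, `bij_of_inv` (`Helper39/CR/ISO.lean`),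
`zero_iso`, `zero_union` (`Helper45/CF/Asm.lean`).
-/

open scoped ComplexOrder Topology
open TopologicalSpace Filter

namespace Pool.Agent.Helper45.CF

open Pool.Agent.Helper34.CAR Pool.Agent.Helper39.CR

noncomputable section

/-- CON. Theories vanish on the functions on contractible spaces.
Proof. As in `Helper27/CF2/ZQ.lean` (there for the Hilbert cube): `h t f = (x ↦ f (H (t, x)))` is a homotopy of *-homomorphisms of `C(K, ℂ)`, continuous in `t` (`ContinuousMap.curry`), `h 1 = id`, `h 0 = cstC ∘ evC c`. So `map (h 1) x = map (h 0) x` factors through `F_i(ℂ) = 0`. -/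
def S_CON : Prop := ∀ (T : Theory) (K : Type) [TopologicalSpace K] [CompactSpace K] [T2Space K]
  [SecondCountableTopology K] (H : C(unitInterval × K, K)) (c : K), (∀ x, H (1, x) = x) →
  (∀ x, H (0, x) = c) → T.Zero C(K, ℂ)

/-- MVC. Mayer-Vietoris.
Proof. `q : C(K ∪ L, ℂ) → C(K, ℂ)` and `q' : C(L, ℂ) → C(K ∩ L, ℂ)`, the restriction maps, are onto (`c_TIE`, the spaces are compact Hausdorff). Their kernels `J`, `J'` (`van ℂ e` for the inclusions `e`) are isomorphic by restriction: `J → J'`, `f ↦ f|L`; the inverse extends a function on `L` that vanishes on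
`K ∩ L` by `0` to `K ∪ L` (continuous: `K`, `L` closed; e.g. `ContinuousMap` gluing, or `IsClosed` pasting lemma / the preimages of closed sets). `T.Zero J'` by `zero_ideal` (`Helper13/CF2/ZAQ.lean`) for `q'`, so `T.Zero J` (`zero_iso`), and `bij_of_ext` for `q` with `T.Zero C(K, ℂ)` gives the claim. -/
def S_MVC : Prop := ∀ (T : Theory) (Q : Type) [TopologicalSpace Q] [T2Space Q]
  [SecondCountableTopology Q] (K L : Set Q) [CompactSpace K] [CompactSpace L]
  [CompactSpace ↥(K ∩ L)] [CompactSpace ↥(K ∪ L)], T.Zero C(K, ℂ) → T.Zero C(L, ℂ) →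
  T.Zero C(↥(K ∩ L), ℂ) → T.Zero C(↥(K ∪ L), ℂ)

/-- BOXZ. Boxes (uses CON).
Proof. `Set.Icc a b` (product order) is empty, then `C(∅, ℂ)` is the zero algebra (`p_TZ`, or: subsingleton, `homotopy` of the identity and `0`; or use `T.exact`), or it contains `a`, and `H (t, x) = (i ↦ (1 - t) a i + t x i)` contracts it. -/
def S_BOXZ : Prop := ∀ (T : Theory) (a b : ℕ → unitInterval) [CompactSpace ↥(Set.Icc a b)],
  T.Zero C(↥(Set.Icc a b), ℂ)

/-- FUB. Finite unions of boxes (uses BOXZ, MVC).
Proof. Induction on `n`, for all `a, b`. `n = 0`: the empty space (as in BOXZ: `⋃ = ∅ = Set.Icc 1 0`). `n + 1`: `K` = the union of the first `n` boxes, `L` = the last box `Set.Icc c d`; `K ∩ L = ⋃ i, Set.Icc (a i ⊔ c) (b i ⊓ d)` (`Set.Icc_inter_Icc`) is a union of `n` boxes. MVC. (Transport along the equality of the sets: `subst` or `▸`, the statement for all sets equal to the union.) -/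
def S_FUB : Prop := ∀ (T : Theory) (n : ℕ) (a b : Fin n → ℕ → unitInterval)
  [CompactSpace ↥(⋃ i, Set.Icc (a i) (b i))], T.Zero C(↥(⋃ i, Set.Icc (a i) (b i)), ℂ)

/-- APX. Closed sets are decreasing intersections of finite unions of boxes.
Proof. (1) For an open `U ⊇ X` there is a finite union of boxes `K` with `X ⊆ K ⊆ U`: every `x ∈ X` has a box neighbourhood `Set.Icc a b ⊆ U` (basis of the product topology: finitely many coordinates in closed intervals that are neighbourhoods of `x i` in `unitInterval`, the other coordinates in `[0, 1]`); `X` is compact. (2) Finite unions of boxes are closed under finite intersections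
(`Set.Icc_inter_Icc`). (3) Choose open `U n` with `⋂ U n = X` (the space is metrizable: closed sets are `G_δ`, `IsClosed.isGδ`), `L n` as in (1) for `U n`, `K n = L 0 ∩ .. ∩ L n`. -/
def S_APX : Prop := ∀ X : Set (ℕ → unitInterval), IsClosed X →
  ∃ K : ℕ → Set (ℕ → unitInterval), (∀ n, ∃ (m : ℕ) (a b : Fin m → ℕ → unitInterval),
    K n = ⋃ i, Set.Icc (a i) (b i)) ∧ Antitone K ∧ ⋂ n, K n = X

/-- EMX. Compact metrizable spaces embed in the Hilbert cube.
Proof. `letI := TopologicalSpace.metrizableSpaceMetric X`; let `x n` be a dense sequence (if `X` is empty trivial); `e x n = min 1 (dist x (x n))`. Injective: if `e x = e y`, `x ≠ y`, choose `n` with `dist x (x n) < ε`, `ε = min 1 (dist x y / 2)`; then `dist y (x n) < ε`, and `dist x y < 2 ε`. -/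
def S_EMX : Prop := ∀ (X : Type) [TopologicalSpace X] [CompactSpace X] [T2Space X]
  [SecondCountableTopology X], ∃ e : C(X, ℕ → unitInterval), Function.Injective e

/-- ZCX. Theories vanish on separable unital commutative C*-algebras (uses EMX, APX, FUB).
Proof. `e : C(X, Q)` by EMX, `K n` by APX for `range e` (compact, closed). `T.Zero C(K n, ℂ)` (FUB) and `T.Zero C(Q, ℂ)` (`c_ZQ`) give `T.Zero (van ℂ e_n)`, `e_n : K n → Q` the inclusion (`zero_ideal`, `c_TIE`). `van ℂ e_n` increases with `n` and its union is dense in `van ℂ e`: for `f` with `f ∘ e = 0`, `ε > 0` the open set `{|f| < ε}` contains `⋂ K n`,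
so it contains `K n` for some `n` (compactness), and `f_ε = f · max(0, |f| - ε) / max(|f|, ε)` (product of continuous functions) vanishes on `K n`, `‖f - f_ε‖ ≤ ε`. `zero_union` gives `T.Zero (van ℂ e)`. The extension `van ℂ e → C(Q, ℂ) → C(X, ℂ)` (`c_TIE`) and `bij_of_ext` give `T.Zero C(X, ℂ)`. -/
def S_ZCX : Prop := ∀ (T : Theory) (X : Type) [TopologicalSpace X] [CompactSpace X] [T2Space X]
  [SecondCountableTopology X], T.Zero C(X, ℂ)

/-- The theorem over compact metrizable spaces that contain a Hilbert cube. -/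
def S_CFX : Prop := ∀ (X : Type) [TopologicalSpace X] [CompactSpace X] [T2Space X]
  [SecondCountableTopology X], (∃ e : C(ℕ → unitInterval, X), Function.Injective e) →
  ∀ (D : Type) [NonUnitalCStarAlgebra D] [SeparableSpace D], Nuclear D →
  ∃ (A M : Type) (_ : CStarAlgebra A) (_ : CStarAlgebra M) (i : A →⋆ₐ[ℂ] C(X, M)),
    Function.Injective i ∧ IsCAR M ∧
    (∀ f : C(X, ℂ), ∃ a, ∀ x, i a x = algebraMap ℂ M (f x)) ∧
    (∀ x, ∃ (L : Type) (_ : CStarAlgebra L) (j : L →⋆ₐ[ℂ] M), IsCAR L ∧
      Function.Injective j ∧ Set.range j = Set.range fun a => i a x) ∧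
    SeparableSpace A ∧ Nuclear A ∧ ∀ T : Theory, T.Zero A ↔ T.Zero D

end

end Pool.Agent.Helper45.CF
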