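import Pool.Agent.Helper55.CF.Goals

/-! # Non-stationary region: one and two variables -/

open MeasureTheory Complex
open scoped ContDiff ComplexConjugate

noncomputable section
namespace CF55.NS45

theorem contDiff_ins {X : Type*} [NormedAddCommGroup X] [NormedSpace ℝ X] (i : Fin 3)
    {a : X → ℂ} {b : X → Fin 2 → ℂ} (ha : ContDiff ℝ ∞ a) (hb : ContDiff ℝ ∞ b) :
    ContDiff ℝ ∞ (fun p => (i.insertNth (a p) (b p) : Z)) := by
  rw [contDiff_pi]
  refine (Fin.forall_iff_succAbove i).mpr ⟨?_, fun j => ?_⟩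
  · simpa using ha
  · simp only [Fin.insertNth_apply_succAbove]
    exact (contDiff_pi.mp hb) j

theorem differentiable_ins (i : Fin 3) (w : Fin 2 → ℂ) :
    Differentiable ℂ (fun ζ : ℂ => (i.insertNth ζ w : Z)) := by
  rw [differentiable_pi]
  refine (Fin.forall_iff_succAbove i).mpr ⟨?_, fun j => ?_⟩
  · simpa using differentiable_id
  · simp

theorem hasDerivAt_ins (i : Fin 3) (w : Fin 2 → ℂ) (ζ : ℂ) :
    HasDerivAt (fun ζ : ℂ => (i.insertNth ζ w : Z)) (Pi.single i 1) ζ := by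
  rw [hasDerivAt_pi]
  refine (Fin.forall_iff_succAbove i).mpr ⟨?_, fun j => ?_⟩
  · simp only [Fin.insertNth_apply_same, Pi.single_eq_same]
    exact hasDerivAt_id' ζ
  · simp only [Fin.insertNth_apply_succAbove]
    have : (Pi.single i 1 : Fin 3 → ℂ) (i.succAbove j) = 0 := by
      rw [Pi.single_eq_of_ne (Fin.succAbove_ne i j)]
    rw [this]
    exact hasDerivAt_const ζ (w j)

theorem norm_ins_le (i : Fin 3) (w : Fin 2 → ℂ) (ζ : ℂ) (r : ℝ) (hζ : ‖ζ‖ ≤ r) (hw : ‖w‖ ≤ r) :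
    ‖(i.insertNth ζ w : Z)‖ ≤ r := by
  rw [pi_norm_le_iff_of_nonneg ((norm_nonneg _).trans hζ)]
  refine (Fin.forall_iff_succAbove i).mpr ⟨?_, fun j => ?_⟩
  · simpa using hζ
  · simp only [Fin.insertNth_apply_succAbove]
    exact (norm_le_pi_norm w j).trans hw

theorem norm_le_ins1 (i : Fin 3) (w : Fin 2 → ℂ) (ζ : ℂ) : ‖ζ‖ ≤ ‖(i.insertNth ζ w : Z)‖ := by
  have := norm_le_pi_norm (i.insertNth ζ w : Z) i
  simpa using this

theorem norm_le_ins2 (i : Fin 3) (w : Fin 2 → ℂ) (ζ : ℂ) : ‖w‖ ≤ ‖(i.insertNth ζ w : Z)‖ := by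
  rw [pi_norm_le_iff_of_nonneg (norm_nonneg _)]
  intro j
  have := norm_le_pi_norm (i.insertNth ζ w : Z) (i.succAbove j)
  simpa using this

/-- The general lemma. -/
theorem general (hN : G_NSP) {Θ : Type} [NormedAddCommGroup Θ] [NormedSpace ℝ Θ] (i : Fin 3)
    (F : Z × Θ → ℂ) (hF : ContDiff ℝ ∞ F) (hhol : ∀ θ, Differentiable ℂ (fun z => F (z, θ)))
    (Kθ : Set Θ) (hK : IsCompact Kθ)
    (h0 : ∀ θ ∈ Kθ, fderiv ℂ (fun z => F (z, θ)) 0 (Pi.single i 1) ≠ 0) :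
    ∃ r : ℝ, 0 < r ∧ ∀ φ : Z → ℝ, ContDiff ℝ ∞ φ → HasCompactSupport φ →
      tsupport φ ⊆ Metric.ball 0 r → ∃ C : ℝ, ∀ θ ∈ Kθ, ∀ s : ℂ,
        ‖∫ z : Z, cexp (I * ((s * F (z, θ)).re : ℂ)) * φ z‖ ≤ C / (1 + ‖s‖) ^ 4 := by
  -- the partial derivative
  set D : Z × Θ → ℂ := fun p => fderiv ℝ F p (Pi.single i 1, 0) with hD
  have hDc : Continuous D := by
    have h1 : Continuous (fderiv ℝ F) := hF.continuous_fderiv (by simp)
    exact h1.clm_apply continuous_const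
  have hchain : ∀ (z : Z) (θ : Θ), fderiv ℂ (fun z => F (z, θ)) z (Pi.single i 1) = D (z, θ) := by
    intro z θ
    have h1 : HasFDerivAt (fun z => F (z, θ)) (fderiv ℂ (fun z => F (z, θ)) z) z :=
      (hhol θ z).hasFDerivAt
    have h2 : HasFDerivAt (fun z => F (z, θ))
        ((fderiv ℂ (fun z => F (z, θ)) z).restrictScalars ℝ) z := h1.restrictScalars ℝ
    have h3 : HasFDerivAt F (fderiv ℝ F (z, θ)) (z, θ) :=
      (hF.differentiable (by simp) (z, θ)).hasFDerivAt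
    have h4 : HasFDerivAt (fun z : Z => (z, θ)) (ContinuousLinearMap.inl ℝ Z Θ) z :=
      hasFDerivAt_prodMk_left z θ
    have h5 := h3.comp z h4
    have h6 := h2.unique h5
    have h7 := congrArg (fun L : Z →L[ℝ] ℂ => L (Pi.single i 1)) h6
    simpa [hD] using h7
  have hopen : IsOpen {p : Z × Θ | D p ≠ 0} := isOpen_ne_fun hDc continuous_const
  obtain ⟨U, V, hU, hV, hU0, hKV, hUV⟩ := generalized_tube_lemma (isCompact_singleton (x := (0 : Z)))
    hK hopen (by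
      rintro ⟨z, θ⟩ ⟨hz, hθ⟩
      have hz' : z = 0 := hz
      subst hz'
      show D (0, θ) ≠ 0
      rw [← hchain]
      exact h0 θ hθ)
  obtain ⟨r', hr', hball⟩ := Metric.isOpen_iff.mp hU 0 (hU0 rfl)
  refine ⟨r' / 2, by positivity, fun φ hφ hφc hφs => ?_⟩
  set r := r' / 2 with hr
  have hr0 : 0 < r := by positivity
  have hφ0 : ∀ z : Z, r ≤ ‖z‖ → φ z = 0 := by
    intro z hz
    by_contra hne
    have := hφs (subset_tsupport φ hne)
    rw [mem_ball_zero_iff] at this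
    linarith
  obtain ⟨C, hC⟩ := hN (Θ × (Fin 2 → ℂ))
    (fun p => F (i.insertNth p.1 p.2.2, p.2.1))
    (fun p => (φ (i.insertNth p.1 p.2.2) : ℂ))
    (hF.comp ((contDiff_ins i contDiff_fst (contDiff_snd.comp contDiff_snd)).prodMk
      (contDiff_fst.comp contDiff_snd)))
    (Complex.ofRealCLM.contDiff.comp
      (hφ.comp (contDiff_ins i contDiff_fst (contDiff_snd.comp contDiff_snd))))
    (fun p => (hhol p.1).comp (differentiable_ins i p.2))
    (Metric.closedBall 0 r) (Kθ ×ˢ Metric.closedBall 0 r)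
    (isCompact_closedBall 0 r) (hK.prod (isCompact_closedBall 0 r))
    (fun ζ p hζ => by
      have h1 : r < ‖ζ‖ := by
        rw [Metric.mem_closedBall, dist_zero_right, not_le] at hζ
        exact hζ
      have h2 := norm_le_ins1 i p.2 ζ
      simp only
      rw [hφ0 _ (by linarith)]
      simp)
    (fun ζ hζ p hp => by
      have hz : ‖(i.insertNth ζ p.2 : Z)‖ ≤ r := by
        refine norm_ins_le i p.2 ζ r ?_ ?_
        · simpa using hζ
        · simpa using hp.2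
      have h1 : HasDerivAt (fun ζ : ℂ => F (i.insertNth ζ p.2, p.1))
          (fderiv ℂ (fun z => F (z, p.1)) (i.insertNth ζ p.2) (Pi.single i 1)) ζ :=
        ((hhol p.1 _).hasFDerivAt).comp_hasDerivAt ζ (hasDerivAt_ins i p.2 ζ)
      show deriv (fun ζ : ℂ => F (i.insertNth ζ p.2, p.1)) ζ ≠ 0
      rw [h1.deriv, hchain]
      have h2 : ((i.insertNth ζ p.2 : Z), p.1) ∈ U ×ˢ V := by
        refine ⟨hball ?_, hKV hp.1⟩
        rw [mem_ball_zero_iff]
        linarith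
      exact hUV h2)
  refine ⟨volume.real (Metric.closedBall (0 : Fin 2 → ℂ) r) * C, fun θ hθ s => ?_⟩
  set f : Z → ℂ := fun z => cexp (I * ((s * F (z, θ)).re : ℂ)) * φ z with hf
  have hfc : Continuous f := by
    have h1 : Continuous fun z : Z => F (z, θ) := hF.continuous.comp (Continuous.prodMk_left θ)
    have h2 : Continuous φ := hφ.continuous
    have h3 : Continuous fun z : Z => (((s * F (z, θ)).re : ℝ) : ℂ) :=
      Complex.continuous_ofReal.comp (Complex.continuous_re.comp (continuous_const.mul h1))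
    exact (Complex.continuous_exp.comp (continuous_const.mul h3)).mul
      (Complex.continuous_ofReal.comp h2)
  have hfs : HasCompactSupport f := by
    refine hφc.mono fun z hz => ?_
    rw [Function.mem_support] at hz ⊢
    intro h
    apply hz
    simp [hf, h]
  have hfi : Integrable f := hfc.integrable_of_hasCompactSupport hfs
  have hmp := (volume_preserving_piFinSuccAbove (fun _ : Fin 3 => ℂ) i).symm
  have e1 : ∫ z, f z = ∫ p : ℂ × (Fin 2 → ℂ),
      f ((MeasurableEquiv.piFinSuccAbove (fun _ : Fin 3 => ℂ) i).symm p) :=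
    (hmp.integral_comp (MeasurableEquiv.measurableEmbedding _) f).symm
  have e2 : Integrable (fun p : ℂ × (Fin 2 → ℂ) =>
      f ((MeasurableEquiv.piFinSuccAbove (fun _ : Fin 3 => ℂ) i).symm p)) :=
    (hmp.integrable_comp_emb (MeasurableEquiv.measurableEmbedding _)).mpr hfi
  rw [e1]
  rw [show (volume : Measure (ℂ × (Fin 2 → ℂ))) = (volume : Measure ℂ).prod volume from rfl]
  rw [integral_prod_symm _ e2]
  have e3 : ∀ (w : Fin 2 → ℂ) (ζ : ℂ),
      (MeasurableEquiv.piFinSuccAbove (fun _ : Fin 3 => ℂ) i).symm (ζ, w) = i.insertNth ζ w :=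
    fun w ζ => rfl
  simp only [e3]
  have hzero : ∀ w : Fin 2 → ℂ, w ∉ Metric.closedBall (0 : Fin 2 → ℂ) r →
      (∫ ζ : ℂ, f (i.insertNth ζ w)) = 0 := by
    intro w hw
    have h1 : ∀ ζ : ℂ, f (i.insertNth ζ w) = 0 := by
      intro ζ
      have h2 : r < ‖w‖ := by
        rw [Metric.mem_closedBall, dist_zero_right, not_le] at hw
        exact hw
      have h3 := norm_le_ins2 i w ζ
      simp only [hf]
      rw [hφ0 _ (by linarith)]
      simp
    simp [h1]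
  rw [← setIntegral_eq_integral_of_forall_compl_eq_zero hzero]
  have hbound : ∀ w ∈ Metric.closedBall (0 : Fin 2 → ℂ) r,
      ‖∫ ζ : ℂ, f (i.insertNth ζ w)‖ ≤ C / (1 + ‖s‖) ^ 4 := by
    intro w hw
    exact hC (θ, w) ⟨hθ, hw⟩ s
  have h := norm_setIntegral_le_of_norm_le_const (μ := volume)
    (isCompact_closedBall (0 : Fin 2 → ℂ) r).measure_lt_top hbound
  refine h.trans (le_of_eq ?_)
  ring

theorem van_fderiv {n : ℕ} (hn : 2 ≤ n) {B : Z → ℂ} (hB : Van n B) : fderiv ℂ B 0 = 0 := by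
  obtain ⟨_, K, hK⟩ := hB
  have h0 : B 0 = 0 := by
    have h1 := hK 0 (by simp)
    rw [norm_zero, zero_pow (by omega), mul_zero] at h1
    exact norm_le_zero_iff.mp h1
  have h1 : HasFDerivAt B (0 : Z →L[ℂ] ℂ) 0 := by
    rw [hasFDerivAt_iff_isLittleO_nhds_zero]
    simp only [zero_add, h0, sub_zero, zero_apply]
    have h2 : B =O[nhds 0] (fun z : Z => ‖z‖ ^ n) := by
      refine Asymptotics.IsBigO.of_bound K ?_
      filter_upwards [Metric.closedBall_mem_nhds (0 : Z) one_pos] with z hz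
      rw [Metric.mem_closedBall, dist_zero_right] at hz
      rw [norm_pow, norm_norm]
      exact hK z hz
    exact h2.trans_isLittleO (Asymptotics.isLittleO_norm_pow_id (by omega))
  exact h1.fderiv

theorem van_hasFDerivAt {n : ℕ} (hn : 2 ≤ n) {B : Z → ℂ} (hB : Van n B) :
    HasFDerivAt B (0 : Z →L[ℂ] ℂ) 0 := by
  rw [← van_fderiv hn hB]
  exact (hB.1.differentiable (by simp) 0).hasFDerivAt

theorem proj_hasFDerivAt (i : Fin 3) (z : Z) :
    HasFDerivAt (fun z : Z => z i) (ContinuousLinearMap.proj i : Z →L[ℂ] ℂ) z :=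
  (ContinuousLinearMap.proj i : Z →L[ℂ] ℂ).hasFDerivAt

theorem D1a (hN : G_NSP) : G_D1a := by
  intro B C hB hC ε hε
  obtain ⟨r, hr, H⟩ := general hN (Θ := ℂ) 0
    (fun p => p.1 0 + 2 * B p.1 * p.2 + C p.1 * p.2 ^ 2)
    (by
      have hB' : ContDiff ℝ ∞ (fun p : Z × ℂ => B p.1) := (hB.1.restrict_scalars ℝ).comp contDiff_fst
      have hC' : ContDiff ℝ ∞ (fun p : Z × ℂ => C p.1) := (hC.1.restrict_scalars ℝ).comp contDiff_fst
      have h0 : ContDiff ℝ ∞ (fun p : Z × ℂ => p.1 0) := (contDiff_apply ℝ ℂ 0).comp contDiff_fst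
      exact (h0.add ((contDiff_const.mul hB').mul contDiff_snd)).add (hC'.mul (contDiff_snd.pow 2)))
    (fun θ => by
      have hB' := hB.1.differentiable (by simp)
      have hC' := hC.1.differentiable (by simp)
      have h0 : Differentiable ℂ (fun z : Z => z 0) := differentiable_apply 0
      exact (h0.add ((hB'.const_mul 2).mul_const θ)).add (hC'.mul_const (θ ^ 2)))
    (Metric.closedBall 0 (1 / ε)) (isCompact_closedBall 0 _)
    (fun θ _ => by
      have hB' := van_hasFDerivAt le_rfl hB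
      have hC' := van_hasFDerivAt (by norm_num) hC
      have h := (((proj_hasFDerivAt 0 0).add ((hB'.const_mul 2).mul_const θ)).add
        (hC'.mul_const (θ ^ 2))).fderiv
      have h' : fderiv ℂ (fun z : Z => z 0 + 2 * B z * θ + C z * θ ^ 2) 0 =
        (ContinuousLinearMap.proj 0 : Z →L[ℂ] ℂ) := by
        refine h.trans ?_
        ext v
        simp
      show fderiv ℂ (fun z : Z => z 0 + 2 * B z * θ + C z * θ ^ 2) 0 (Pi.single 0 1) ≠ 0
      rw [h']
      simp)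
  refine ⟨r, hr, fun φ hφ hφc hφs => ?_⟩
  obtain ⟨K, hK⟩ := H φ hφ hφc hφs
  refine ⟨K, fun σ x hσ hx => ?_⟩
  have hx0 : x ≠ 0 := by
    intro h; rw [h, norm_zero] at hx; linarith
  have hxn : 0 < ‖x‖ := norm_pos_iff.mpr hx0
  have hσ0 : 0 < ‖σ‖ := by linarith
  have h1 := hK (1 / x) (by
    rw [Metric.mem_closedBall, dist_zero_right, norm_div, norm_one]
    exact one_div_le_one_div_of_le hε hx) (σ * x ^ 2)
  have h2 : ∀ z : Z, σ * x ^ 2 * (z 0 + 2 * B z * (1 / x) + C z * (1 / x) ^ 2) =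
      σ * (z 0 * x ^ 2 + 2 * B z * x + C z) := by
    intro z
    field_simp
  simp only [h2] at h1
  have hK0 : 0 ≤ K := by
    by_contra hneg
    have h3 : K / (1 + ‖σ * x ^ 2‖) ^ 4 < 0 := div_neg_of_neg_of_pos (not_le.mp hneg) (by positivity)
    have h4 := norm_nonneg (∫ z : Z, cexp (I * ((σ * (z 0 * x ^ 2 + 2 * B z * x + C z)).re : ℂ)) * φ z)
    linarith
  refine h1.trans ?_
  have h3 : ‖σ * x ^ 2‖ = ‖σ‖ * ‖x‖ ^ 2 := by rw [norm_mul, norm_pow]
  rw [h3]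
  have h4 : ‖σ‖ ^ 4 * ‖x‖ ^ 8 = (‖σ‖ * ‖x‖ ^ 2) ^ 4 := by ring
  rw [h4]
  refine div_le_div_of_nonneg_left hK0 (by positivity) ?_
  exact pow_le_pow_left₀ (by positivity) (by linarith [show (0:ℝ) ≤ 1 from zero_le_one]) 4

theorem fin_bound {S : ℂ} {K : ℝ} {σ x : ℂ} (hσ : 0 < ‖σ‖) (hx : 0 < ‖x‖)
    (h : ‖S‖ ≤ K / (1 + ‖σ * x ^ 2‖) ^ 4) : ‖S‖ ≤ |K| / (‖σ‖ ^ 4 * ‖x‖ ^ 8) := by
  refine h.trans ?_
  have h3 : ‖σ * x ^ 2‖ = ‖σ‖ * ‖x‖ ^ 2 := by rw [norm_mul, norm_pow]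
  rw [h3]
  have h4 : ‖σ‖ ^ 4 * ‖x‖ ^ 8 = (‖σ‖ * ‖x‖ ^ 2) ^ 4 := by ring
  rw [h4]
  have h5 : 0 < ‖σ‖ * ‖x‖ ^ 2 := by positivity
  calc K / (1 + ‖σ‖ * ‖x‖ ^ 2) ^ 4 ≤ |K| / (1 + ‖σ‖ * ‖x‖ ^ 2) ^ 4 := by
        gcongr
        exact le_abs_self K
    _ ≤ |K| / (‖σ‖ * ‖x‖ ^ 2) ^ 4 := by
        refine div_le_div_of_nonneg_left (abs_nonneg K) (by positivity) ?_
        exact pow_le_pow_left₀ h5.le (by linarith) 4

theorem smoothZ {B : Z → ℂ} (hB : ContDiff ℂ ∞ B) {X : Type*} [NormedAddCommGroup X]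
    [NormedSpace ℝ X] : ContDiff ℝ ∞ (fun p : Z × X => B p.1) :=
  (hB.restrict_scalars ℝ).comp contDiff_fst

theorem smoothc {X : Type*} [NormedAddCommGroup X] [NormedSpace ℝ X] (i : Fin 3) :
    ContDiff ℝ ∞ (fun p : Z × X => p.1 i) := (contDiff_apply ℝ ℂ i).comp contDiff_fst

theorem D2a (hN : G_NSP) : G_D2a := by
  intro κ N₁ N₂ C hN1 hN2 hC ε hε
  have t1 : ContDiff ℝ ∞ (fun p : Z × (ℂ × ℂ) => p.2.1) := contDiff_fst.comp contDiff_snd
  have t2 : ContDiff ℝ ∞ (fun p : Z × (ℂ × ℂ) => p.2.2) := contDiff_snd.comp contDiff_snd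
  have hKc : IsCompact (Metric.closedBall (0 : ℂ) 1 ×ˢ Metric.closedBall (0 : ℂ) (1 / ε)) :=
    (isCompact_closedBall 0 _).prod (isCompact_closedBall 0 _)
  have d1 := hN1.1.differentiable (by simp)
  have d2 := hN2.1.differentiable (by simp)
  have dC := hC.1.differentiable (by simp)
  have dz : ∀ i : Fin 3, Differentiable ℂ (fun z : Z => z i) := fun i => differentiable_apply i
  have f1 := van_hasFDerivAt le_rfl hN1
  have f2 := van_hasFDerivAt le_rfl hN2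
  have fC := van_hasFDerivAt (by norm_num) hC
  -- the region where `x` dominates
  obtain ⟨r₁, hr₁, H₁⟩ := general hN (Θ := ℂ × ℂ) 0
    (fun p => p.1 0 + 2 * κ * p.1 2 * p.2.1 + p.1 1 * p.2.1 ^ 2 + 2 * N₁ p.1 * p.2.2 +
      2 * N₂ p.1 * p.2.1 * p.2.2 + C p.1 * p.2.2 ^ 2)
    ((((((smoothc 0).add ((contDiff_const.mul (smoothc 2)).mul t1)).add
      ((smoothc 1).mul (t1.pow 2))).add ((contDiff_const.mul (smoothZ hN1.1)).mul t2)).add
      (((contDiff_const.mul (smoothZ hN2.1)).mul t1).mul t2)).add ((smoothZ hC.1).mul (t2.pow 2)))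
    (fun θ => ((((((dz 0).add (((dz 2).const_mul (2 * κ)).mul_const θ.1)).add
      ((dz 1).mul_const (θ.1 ^ 2))).add ((d1.const_mul 2).mul_const θ.2)).add
      (((d2.const_mul 2).mul_const θ.1).mul_const θ.2)).add (dC.mul_const (θ.2 ^ 2))))
    _ hKc
    (fun θ _ => by
      have h := ((((((proj_hasFDerivAt 0 0).add
        (((proj_hasFDerivAt 2 0).const_mul (2 * κ)).mul_const θ.1)).add
        ((proj_hasFDerivAt 1 0).mul_const (θ.1 ^ 2))).add ((f1.const_mul 2).mul_const θ.2)).add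
        (((f2.const_mul 2).mul_const θ.1).mul_const θ.2)).add (fC.mul_const (θ.2 ^ 2))).fderiv
      have h' : fderiv ℂ (fun z : Z => z 0 + 2 * κ * z 2 * θ.1 + z 1 * θ.1 ^ 2 + 2 * N₁ z * θ.2 +
          2 * N₂ z * θ.1 * θ.2 + C z * θ.2 ^ 2) 0 (Pi.single 0 1) = 1 := by
        refine (congrArg (fun L : Z →L[ℂ] ℂ => L (Pi.single 0 1)) h).trans ?_
        simp
      show fderiv ℂ (fun z : Z => z 0 + 2 * κ * z 2 * θ.1 + z 1 * θ.1 ^ 2 + 2 * N₁ z * θ.2 +
          2 * N₂ z * θ.1 * θ.2 + C z * θ.2 ^ 2) 0 (Pi.single 0 1) ≠ 0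
      rw [h']
      exact one_ne_zero)
  -- the region where `y` dominates
  obtain ⟨r₂, hr₂, H₂⟩ := general hN (Θ := ℂ × ℂ) 1
    (fun p => p.1 0 * p.2.1 ^ 2 + 2 * κ * p.1 2 * p.2.1 + p.1 1 + 2 * N₁ p.1 * p.2.1 * p.2.2 +
      2 * N₂ p.1 * p.2.2 + C p.1 * p.2.2 ^ 2)
    (((((((smoothc 0).mul (t1.pow 2)).add ((contDiff_const.mul (smoothc 2)).mul t1)).add
      (smoothc 1)).add (((contDiff_const.mul (smoothZ hN1.1)).mul t1).mul t2)).add
      ((contDiff_const.mul (smoothZ hN2.1)).mul t2)).add ((smoothZ hC.1).mul (t2.pow 2)))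
    (fun θ => (((((((dz 0).mul_const (θ.1 ^ 2)).add (((dz 2).const_mul (2 * κ)).mul_const θ.1)).add
      (dz 1)).add (((d1.const_mul 2).mul_const θ.1).mul_const θ.2)).add
      ((d2.const_mul 2).mul_const θ.2)).add (dC.mul_const (θ.2 ^ 2))))
    _ hKc
    (fun θ _ => by
      have h := (((((((proj_hasFDerivAt 0 0).mul_const (θ.1 ^ 2)).add
        (((proj_hasFDerivAt 2 0).const_mul (2 * κ)).mul_const θ.1)).add
        (proj_hasFDerivAt 1 0)).add (((f1.const_mul 2).mul_const θ.1).mul_const θ.2)).add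
        ((f2.const_mul 2).mul_const θ.2)).add (fC.mul_const (θ.2 ^ 2))).fderiv
      have h' : fderiv ℂ (fun z : Z => z 0 * θ.1 ^ 2 + 2 * κ * z 2 * θ.1 + z 1 +
          2 * N₁ z * θ.1 * θ.2 + 2 * N₂ z * θ.2 + C z * θ.2 ^ 2) 0 (Pi.single 1 1) = 1 := by
        refine (congrArg (fun L : Z →L[ℂ] ℂ => L (Pi.single 1 1)) h).trans ?_
        simp
      show fderiv ℂ (fun z : Z => z 0 * θ.1 ^ 2 + 2 * κ * z 2 * θ.1 + z 1 +
          2 * N₁ z * θ.1 * θ.2 + 2 * N₂ z * θ.2 + C z * θ.2 ^ 2) 0 (Pi.single 1 1) ≠ 0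
      rw [h']
      exact one_ne_zero)
  refine ⟨min r₁ r₂, lt_min hr₁ hr₂, fun φ hφ hφc hφs => ?_⟩
  obtain ⟨K₁, hK₁⟩ := H₁ φ hφ hφc (hφs.trans (Metric.ball_subset_ball (min_le_left _ _)))
  obtain ⟨K₂, hK₂⟩ := H₂ φ hφ hφc (hφs.trans (Metric.ball_subset_ball (min_le_right _ _)))
  refine ⟨max |K₁| |K₂|, fun σ x y hσ hxy => ?_⟩
  have hσ0 : 0 < ‖σ‖ := by linarith
  rcases le_total ‖y‖ ‖x‖ with h | h
  · rw [max_eq_left h] at hxy ⊢
    have hxn : 0 < ‖x‖ := by linarith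
    have hx0 : x ≠ 0 := norm_pos_iff.mp hxn
    have h1 := hK₁ (y / x, 1 / x) ⟨by
      rw [Metric.mem_closedBall, dist_zero_right, norm_div]
      exact (div_le_one hxn).mpr h, by
      rw [Metric.mem_closedBall, dist_zero_right, norm_div, norm_one]
      exact one_div_le_one_div_of_le hε hxy⟩ (σ * x ^ 2)
    have h2 : ∀ z : Z, σ * x ^ 2 * (z 0 + 2 * κ * z 2 * (y / x) + z 1 * (y / x) ^ 2 +
        2 * N₁ z * (1 / x) + 2 * N₂ z * (y / x) * (1 / x) + C z * (1 / x) ^ 2) =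
        σ * gg5 κ N₁ N₂ C x y z := by
      intro z
      unfold gg5
      field_simp
    simp only [h2] at h1
    refine (fin_bound hσ0 hxn h1).trans ?_
    gcongr
    exact le_max_left _ _
  · rw [max_eq_right h] at hxy ⊢
    have hyn : 0 < ‖y‖ := by linarith
    have hy0 : y ≠ 0 := norm_pos_iff.mp hyn
    have h1 := hK₂ (x / y, 1 / y) ⟨by
      rw [Metric.mem_closedBall, dist_zero_right, norm_div]
      exact (div_le_one hyn).mpr h, by
      rw [Metric.mem_closedBall, dist_zero_right, norm_div, norm_one]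
      exact one_div_le_one_div_of_le hε hxy⟩ (σ * y ^ 2)
    have h2 : ∀ z : Z, σ * y ^ 2 * (z 0 * (x / y) ^ 2 + 2 * κ * z 2 * (x / y) + z 1 +
        2 * N₁ z * (x / y) * (1 / y) + 2 * N₂ z * (1 / y) + C z * (1 / y) ^ 2) =
        σ * gg5 κ N₁ N₂ C x y z := by
      intro z
      unfold gg5
      field_simp
    simp only [h2] at h1
    refine (fin_bound hσ0 hyn h1).trans ?_
    gcongr
    exact le_max_right _ _

end CF55.NS45

namespace CF55

theorem stmtD1a (hN : G_NSP) : G_D1a := NS45.D1a hN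

theorem stmtD2a (hN : G_NSP) : G_D2a := NS45.D2a hN

end CF55
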