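import Pool.Agent.Helper45.CF.Asm
import Pool.Agent.Helper36.CF.SUR
import Pool.Agent.Helper86.CF.DEN
import Pool.Agent.Helper22.CF.HOC
import Pool.Agent.Helper84.CF.MUC
import Pool.Agent.Helper20.CF.SPH
import Pool.Agent.Helper48.CF.KW
import Pool.Agent.Helper39.CF.MUL
import Pool.Agent.Helper97.CF.GEN
import Pool.Agent.Helper18.CF.QTK
import Pool.Agent.Helper24.CF.POU
import Pool.Agent.Helper77.CF.GEX
import Pool.Agent.Helper28.CF.CONE
import Pool.Agent.Helper27.CF.STAB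
import Pool.Agent.Helper30.CF.TOE
import Pool.Agent.Helper54.CF.BOTT
import Pool.Agent.Helper89.CF.PADO
import Pool.Agent.Helper37.CF.SYSO
import Pool.Agent.Helper57.CF.ROT
import Pool.Agent.Helper47.CF.KAP
import Pool.Agent.Helper46.CF.CCO
import Pool.Agent.Helper49.CF.SCA
import Pool.Agent.Helper92.CF.SRJ
import Pool.Agent.Helper95.CF.FIN
import Pool.Agent.Helper32.CF.FB
import Pool.Agent.Helper79.CF.FC
import Pool.Agent.Helper40.CF.CUR
import Pool.Agent.Helper8.CF.NSUP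
import Pool.Agent.Helper50.CF.CPQ
import Pool.Agent.Helper57.CF.NUA

/-!
# Project CF (MP_d97caa_an): the proved parts
-/

open scoped ComplexOrder ZeroAtInfty Topology
open TopologicalSpace

namespace Pool.Agent.Helper45.CF

open Pool.Agent.Helper34.CAR Pool.Agent.Helper39.CR

theorem c_SUR : S_SUR := Pool.Agent.Helper36.CF.SUR.t
theorem c_DEN : S_DEN := Pool.Agent.Helper86.CF.DEN.t
theorem c_HOC : S_HOC := Pool.Agent.Helper22.CF.HOC.t
theorem c_MUC : S_MUC := Pool.Agent.Helper84.CF.MUC.t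
theorem c_KW : S_KW := Pool.Agent.Helper48.CF.t
theorem c_MUL : S_MUL := Pool.Agent.Helper39.CF.MUL.t
theorem c_GEN : S_GEN := Pool.Agent.Helper97.CF.t c_MUL
theorem c_QTK : S_QTK := Pool.Agent.Helper18.CF.t
theorem c_POU : S_POU := Pool.Agent.Helper24.CF.POU.t
theorem c_GEX : S_GEX := Pool.Agent.Helper77.CF.GEX.t
theorem c_CONE : S_CONE := Pool.Agent.Helper28.CF.t
theorem c_STAB : S_STAB := Pool.Agent.Helper27.CF.stab
theorem c_TOE (hUNV : S_UNV) : S_TOE :=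
  Pool.Agent.Helper30.CF.t c_KW c_GEN c_QTK hUNV c_GEX c_CONE c_STAB
theorem c_BOTT (hUNV : S_UNV) : S_BOTT := Pool.Agent.Helper54.CF.t (c_TOE hUNV)
theorem c_SYSO : S_SYSO := Pool.Agent.Helper37.CF.t Pool.Agent.Helper89.CF.PADO.t
theorem c_KAP : S_KAP := Pool.Agent.Helper47.CF.KAP.t Pool.Agent.Helper57.CF.ROT.t
theorem c_CCO : S_CCO := Pool.Agent.Helper46.CF.t
theorem c_SCA : S_SCA := Pool.Agent.Helper49.CF.t
theorem c_SRJ (hJSU : S_JSU) (hDEC : S_DEC) (hUNV : S_UNV) : S_SRJ :=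
  Pool.Agent.Helper92.CF.t hJSU c_CCO c_SCA hDEC (c_BOTT hUNV)
theorem c_FC : S_FC := Pool.Agent.Helper79.CF.t Pool.Agent.Helper32.CF.t
  Pool.Agent.Helper95.CF.FIN.t
theorem c_CUR : S_CUR := Pool.Agent.Helper40.CF.t
theorem c_NSUP : S_NSUP := Pool.Agent.Helper8.CF.t
theorem c_CPQ : S_CPQ := Pool.Agent.Helper50.CF.t
theorem c_NUA : S_NUA := Pool.Agent.Helper57.CF.NUA.t

theorem core (hCIR : S_CIR) (hJSU : S_JSU) (hDEC : S_DEC) (hUNV : S_UNV) (hNUB : S_NUB) :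
    S_CFMAIN :=
  cfmain c_SUR c_DEN c_HOC c_MUC (Pool.Agent.Helper20.CF.t hCIR) c_SYSO c_KAP
    (c_SRJ hJSU hDEC hUNV) c_FC c_CUR hNUB

end Pool.Agent.Helper45.CF
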