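import Pool.Agent.Helper45.CF.Asm3
import Pool.Agent.Helper14.CF2.ABF
import Pool.Agent.Helper20.CF2.KCB
import Pool.Agent.Helper27.CF2.ZQ
import Pool.Agent.Helper28.CF2.BIG
import Pool.Agent.Helper30.CF2.SML
import Pool.Agent.Helper31.CF2.LCM
import Pool.Agent.Helper32.CF2.AQ
import Pool.Agent.Helper32.CF2.RRH
import Pool.Agent.Helper39.CF2.TAUV
import Pool.Agent.Helper40.CF2.NQ
import Pool.Agent.Helper46.CF2.FCX
import Pool.Agent.Helper49.CF2.ZX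
import Pool.Agent.Helper54.CF2.UNTI
import Pool.Agent.Helper59.CF2.SEPM
import Pool.Agent.Helper60.CF2.NUBV
import Pool.Agent.Helper62.CF2.UCH
import Pool.Agent.Helper77.CF2.STC
import Pool.Agent.Helper79.CF2.GMAP
import Pool.Agent.Helper83.CF2.TIE
import Pool.Agent.Helper85.CF2.NUAV
import Pool.Agent.Helper89.CF2.PNI
import Pool.Agent.Helper90.CF2.FIB
import Pool.Agent.Helper95.CF2.EMQ

/-!
# Project CF (MP_d97caa_an), second stage: the proved parts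
-/

open scoped ComplexOrder ZeroAtInfty Topology
open TopologicalSpace

namespace Pool.Agent.Helper45.CF

open Pool.Agent.Helper34.CAR Pool.Agent.Helper39.CR

theorem c_PNI : S_PNI := Pool.Agent.Helper89.CF2.PNI.t
theorem c_UNTI : S_UNTI := Pool.Agent.Helper54.CF2.UNTI.t
theorem c_ABF : S_ABF := Pool.Agent.Helper14.CF2.ABF.t
theorem c_SML : S_SML := Pool.Agent.Helper30.CF2.SML.t c_PNI c_UNTI c_ABF
theorem c_UCH : S_UCH := Pool.Agent.Helper62.CF2.UCH.t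
theorem c_RRH : S_RRH := Pool.Agent.Helper32.CF2.RRH.t
theorem c_BIG (hPNT : S_PNT) : S_BIG := Pool.Agent.Helper28.CF2.t hPNT c_UCH c_RRH c_ABF
theorem c_KCB : S_KCB := Pool.Agent.Helper20.CF2.KCB.t c_RRH
theorem c_STC : S_STC := Pool.Agent.Helper77.CF2.STC.t
theorem c_LCM : S_LCM := Pool.Agent.Helper31.CF2.LCM.t
theorem c_TAUV : S_TAUV := Pool.Agent.Helper39.CF2.TAUV.t
theorem c_GMAP : S_GMAP := Pool.Agent.Helper79.CF2.GMAP.t
theorem c_FCX : S_FCX := Pool.Agent.Helper46.CF2.t Pool.Agent.Helper32.CF.t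
  Pool.Agent.Helper95.CF.FIN.t
theorem c_TIE : S_TIE := Pool.Agent.Helper83.CF2.t
theorem c_EMQ : S_EMQ := Pool.Agent.Helper95.CF2.EMQ.t
theorem c_AQ : S_AQ := Pool.Agent.Helper32.CF2.AQ.t
theorem c_FIB : S_FIB := Pool.Agent.Helper90.CF2.FIB.t c_TIE
theorem c_SEPM : S_SEPM := Pool.Agent.Helper59.CF2.SEPM.t
theorem c_ZX : S_ZX := Pool.Agent.Helper49.CF2.ZX.t Pool.Agent.Helper95.CF.FIN.t c_SPH c_CUR
theorem c_ZQ : S_ZQ := Pool.Agent.Helper27.CF2.zq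
theorem c_NUAV : S_NUAV := Pool.Agent.Helper85.CF2.NUAV.t
theorem c_NQ (hNSUPV : S_NSUPV) : S_NQ := Pool.Agent.Helper40.CF2.t
  (Pool.Agent.Helper60.CF2.NUBV.t hNSUPV c_CPQ c_NUAV)

end Pool.Agent.Helper45.CF
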